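import Pool.Agent.H218Z.BW.Binary

set_option autoImplicit false
set_option linter.unusedSectionVars false

namespace Pool.Agent.H218Z.BW

open Alg

variable {X : Type} {A : Clone X} {α β γ δ : Type}

/-- Centre-free subuniverses. -/
structure CF (A : Clone X) {α : Type} [Alg A α] (D : Set α) : Prop where
  sub : Sub A D
  eq : ∀ C, Cen A C D → C.Nonempty → D ⊆ C

/-- Congruences of a subuniverse. -/
structure Cong (A : Clone X) {α : Type} [Alg A α] (θ : Set (α × α)) (D : Set α) : Prop where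
  sub : Sub A θ
  le : ∀ a b, (a, b) ∈ θ → a ∈ D ∧ b ∈ D
  refl : ∀ a ∈ D, (a, a) ∈ θ
  symm : ∀ a b, (a, b) ∈ θ → (b, a) ∈ θ
  trans : ∀ a b c, (a, b) ∈ θ → (b, c) ∈ θ → (a, c) ∈ θ

/-- Subdirect binary relations. -/
structure SD {α β : Type} (R : Set (α × β)) (D : Set α) (E : Set β) : Prop where
  le : ∀ a b, (a, b) ∈ R → a ∈ D ∧ b ∈ E
  left : ∀ a ∈ D, ∃ b, (a, b) ∈ R
  right : ∀ b ∈ E, ∃ a, (a, b) ∈ R

def rcomp {α β γ : Type} (R : Set (α × β)) (S : Set (β × γ)) : Set (α × γ) :=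
  {p | ∃ b, (p.1, b) ∈ R ∧ (b, p.2) ∈ S}

def rinv {α β : Type} (R : Set (α × β)) : Set (β × α) := {p | (p.2, p.1) ∈ R}

theorem SD.inv {R : Set (α × β)} {D : Set α} {E : Set β} (h : SD R D E) : SD (rinv R) E D :=
  ⟨fun _ _ hp => (h.le _ _ hp).symm, h.right, h.left⟩

theorem SD.comp {R : Set (α × β)} {S : Set (β × γ)} {D : Set α} {E : Set β} {F : Set γ}
    (h : SD R D E) (h' : SD S E F) : SD (rcomp R S) D F := by
  refine ⟨fun a c ⟨b, h1, h2⟩ => ⟨(h.le _ _ h1).1, (h'.le _ _ h2).2⟩, fun a ha => ?_, fun c hc => ?_⟩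
  · obtain ⟨b, hb⟩ := h.left a ha
    obtain ⟨c, hc⟩ := h'.left b (h.le _ _ hb).2
    exact ⟨c, b, hb, hc⟩
  · obtain ⟨b, hb⟩ := h'.right c hc
    obtain ⟨a, ha⟩ := h.right b (h'.le _ _ hb).1
    exact ⟨a, b, ha, hb⟩

section
variable [Alg A α] [Alg A β] [Alg A γ] [MinBW A] [Finite X]

theorem Sub.rcomp {R : Set (α × β)} {S : Set (β × γ)} (hR : Sub A R) (hS : Sub A S) :
    Sub A (rcomp R S) :=
  Sub.ex (Sub.and (Sub.pre (by fun_prop) hR) (Sub.pre (by fun_prop) hS))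

theorem Sub.rinv {R : Set (α × β)} (hR : Sub A R) : Sub A (rinv R) := Sub.pre (by fun_prop) hR

theorem Cen.rinv [Finite α] [Finite β] {R' R : Set (α × β)} (h : Cen A R' R) :
    Cen A (rinv R') (rinv R) := by
  have := Cen.pre (f := fun p : β × α => (p.2, p.1)) (by fun_prop) h.subD.rinv h (fun _ hg => hg)
  convert this using 1
  ext p; exact ⟨fun hp => ⟨h.le hp, hp⟩, fun hp => hp.2⟩

theorem Cen.comp_right [Finite α] [Finite β] [Finite γ] {R' R : Set (α × β)} (h : Cen A R' R)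
    {S : Set (β × γ)} (hS : Sub A S) : Cen A (rcomp R' S) (rcomp R S) := by
  have hG : Sub A {z : (α × β) × γ | z.1 ∈ R ∧ (z.1.2, z.2) ∈ S} :=
    Sub.and (Sub.pre (by fun_prop) h.subD) (Sub.pre (by fun_prop) hS)
  have := (Cen.pre (f := fun z : (α × β) × γ => z.1) (by fun_prop) hG h (fun _ hg => hg.1)).image
    (f := fun z : (α × β) × γ => (z.1.1, z.2)) (by fun_prop)
  convert this using 1
  · ext ⟨a, c⟩
    constructor
    · rintro ⟨b, h1, h2⟩; exact ⟨((a, b), c), ⟨⟨h.le h1, h2⟩, h1⟩, rfl⟩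
    · rintro ⟨⟨⟨a', b⟩, c'⟩, ⟨⟨_, h2⟩, h1⟩, he⟩
      obtain ⟨rfl, rfl⟩ := Prod.mk.inj he
      exact ⟨b, h1, h2⟩
  · ext ⟨a, c⟩
    constructor
    · rintro ⟨b, h1, h2⟩; exact ⟨((a, b), c), ⟨h1, h2⟩, rfl⟩
    · rintro ⟨⟨⟨a', b⟩, c'⟩, ⟨h1, h2⟩, he⟩
      obtain ⟨rfl, rfl⟩ := Prod.mk.inj he
      exact ⟨b, h1, h2⟩

theorem Cen.comp_left [Finite α] [Finite β] [Finite γ] {S' S : Set (β × γ)} (h : Cen A S' S)
    {R : Set (α × β)} (hR : Sub A R) : Cen A (rcomp R S') (rcomp R S) := by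
  have := (h.rinv.comp_right hR.rinv).rinv
  convert this using 1
  · ext ⟨a, c⟩
    exact ⟨fun ⟨b, h1, h2⟩ => ⟨b, h2, h1⟩, fun ⟨b, h1, h2⟩ => ⟨b, h2, h1⟩⟩
  · ext ⟨a, c⟩
    exact ⟨fun ⟨b, h1, h2⟩ => ⟨b, h2, h1⟩, fun ⟨b, h1, h2⟩ => ⟨b, h2, h1⟩⟩

/-- The image of a central subuniverse along a subdirect relation. -/
theorem Cen.plus [Finite α] [Finite β] {C D : Set α} {E : Set β} (h : Cen A C D)
    {T : Set (α × β)} (hT : Sub A T) (hsd : SD T D E) : Cen A {b | ∃ a ∈ C, (a, b) ∈ T} E := by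
  have := (Cen.pre (f := fun z : α × β => z.1) (by fun_prop) hT h
    (fun g hg => (hsd.le _ _ hg).1)).image (f := fun z : α × β => z.2) (by fun_prop)
  convert this using 1
  · ext b
    exact ⟨fun ⟨a, h1, h2⟩ => ⟨(a, b), ⟨h2, h1⟩, rfl⟩, fun ⟨⟨a, b'⟩, ⟨h1, h2⟩, he⟩ =>
      ⟨a, h2, by rw [← he]; exact h1⟩⟩
  · ext b
    exact ⟨fun hb => (hsd.right b hb).imp' (fun a => (a, b)) (fun a ha => ⟨ha, rfl⟩),
      fun ⟨⟨a, b'⟩, h1, he⟩ => by rw [← he]; exact (hsd.le _ _ h1).2⟩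

theorem CF.not_win {E S : Set β} (hE : CF A E) (hS : Sub A S) (hle : S ⊆ E) (hne : S.Nonempty)
    (hp : ¬ E ⊆ S) {v : A.Op 3} {w : A.Op 4} (hl : Linked v.1 w.1) (i : Fin 3) :
    ∃ x : Fin 3 → β, (∀ j, x j ∈ E) ∧ x i ∈ S ∧ op v x ∉ S := by
  by_contra h
  push Not at h
  exact hp (hE.eq S (cen_of_ba hS hE.sub hle (ba_of_win hl.transfer hle i h)) hne)

theorem cen_center [Finite β] {R : Set (α × β)} {D : Set α} {E : Set β} (hR : Sub A R)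
    (hD : Sub A D) (hE : CF A E) (hle : ∀ a b, (a, b) ∈ R → a ∈ D ∧ b ∈ E)
    (hl : ∀ a ∈ D, ∃ b, (a, b) ∈ R) : Cen A {d | d ∈ D ∧ ∀ e ∈ E, (d, e) ∈ R} D := by
  have hC : Sub A {d | d ∈ D ∧ ∀ e ∈ E, (d, e) ∈ R} :=
    Sub.and hD (Sub.all fun e => Sub.all fun _ => Sub.pre (by fun_prop) hR)
  have hN : ∀ a, Sub A {e | (a, e) ∈ R} := fun a => Sub.pre (by fun_prop) hR
  refine ⟨hC, hD, fun _ h => h.1, fun a ha hn => ?_, ?_⟩
  · refine ⟨{p | ∃ t : A.Op 2, ∀ e' e, (a, e') ∈ R → e ∈ E →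
        (p.1, op t ![e', e]) ∈ R ∧ (p.2, op t ![e, e']) ∈ R}, ?_, fun c hc => ⟨?_, ?_⟩, ?_⟩
    · intro k s x hx
      choose t ht using hx
      refine ⟨A.comp s t, fun e' e h1 h2 => ?_⟩
      rw [op_comp, op_comp]
      exact ⟨hR k s (fun i => ((x i).1, op (t i) ![e', e])) (fun i => (ht i e' e h1 h2).1),
        hR k s (fun i => ((x i).2, op (t i) ![e, e'])) (fun i => (ht i e' e h1 h2).2)⟩
    · refine ⟨A.proj 0, fun e' e h1 h2 => ?_⟩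
      simp only [op_proj, Matrix.cons_val_zero]
      exact ⟨h1, hc.2 e h2⟩
    · refine ⟨A.proj 1, fun e' e h1 h2 => ?_⟩
      simp only [op_proj, Matrix.cons_val_one, Matrix.cons_val_zero]
      exact ⟨hc.2 e h2, h1⟩
    · rintro ⟨t, ht⟩
      have hsub : {e | (a, e) ∈ R} ⊆ E := fun e he => (hle _ _ he).2
      have := hE.eq _ (cen_of_ba (t := t) (hN a) hE.sub hsub (fun c hc d hd => ht c d hc hd))
        (hl a ha)
      exact hn ⟨ha, fun e he => this he⟩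
  · obtain ⟨v, w, hvw⟩ := exists_linked A
    have P : ∀ n : ℕ, ∃ (J : Type) (_ : Finite J), ∀ ρ : Set (J → α), Sub A ρ →
        (∀ r ∈ ρ, ∀ j, r j ∈ D) →
        (∀ i, ∃ r ∈ ρ, ∀ j, j ≠ i → r j ∈ {d | d ∈ D ∧ ∀ e ∈ E, (d, e) ∈ R}) →
        ∃ r ∈ ρ, ∀ j, r j ∈ {d | d ∈ D ∧ ∀ e ∈ E, (d, e) ∈ R} ∨ n < {e | (r j, e) ∈ R}.ncard := by
      intro n
      induction n with
      | zero =>
        refine ⟨Unit, inferInstance, fun ρ _ hρD hw => ?_⟩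
        obtain ⟨r, hr, _⟩ := hw ()
        exact ⟨r, hr, fun j => Or.inr ((Set.ncard_pos (Set.toFinite _)).mpr (hl _ (hρD r hr j)))⟩
      | succ n ih =>
        obtain ⟨J, hJ, ih⟩ := ih
        refine ⟨Fin 3 × J, inferInstance, fun ρ hρ hρD hw => ?_⟩
        have step : ∀ a : Fin 3, ∃ r ∈ ρ,
            (∀ p : Fin 3 × J, p.1 ≠ a → r p ∈ {d | d ∈ D ∧ ∀ e ∈ E, (d, e) ∈ R}) ∧
            ∀ j, r (a, j) ∈ {d | d ∈ D ∧ ∀ e ∈ E, (d, e) ∈ R} ∨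
              n < {e | (r (a, j), e) ∈ R}.ncard := by
          intro a
          obtain ⟨_, ⟨r, hr, rfl⟩, h3⟩ := ih ((fun (r : Fin 3 × J → α) j => r (a, j)) ''
            {r | r ∈ ρ ∧ ∀ p : Fin 3 × J, p.1 ≠ a → r p ∈ {d | d ∈ D ∧ ∀ e ∈ E, (d, e) ∈ R}})
            (Sub.image (by fun_prop) (Sub.and hρ (Sub.all fun p => Sub.all fun _ =>
              Sub.pre (by fun_prop) hC)))
            (by rintro _ ⟨r, hr, rfl⟩ j; exact hρD r hr.1 _)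
            (fun i => by
              obtain ⟨r, hr, h4⟩ := hw (a, i)
              exact ⟨_, ⟨r, ⟨hr, fun p hp => h4 p (fun e => hp (by rw [e]))⟩, rfl⟩,
                fun j hj => h4 _ (fun e => hj (Prod.mk.inj e).2)⟩)
          exact ⟨r, hr.1, hr.2, h3⟩
        choose r hr h1 h2 using step
        refine ⟨op v r, hρ 3 v r hr, fun ⟨a, j⟩ => ?_⟩
        rw [op_apply]
        by_cases hc : r a (a, j) ∈ {d | d ∈ D ∧ ∀ e ∈ E, (d, e) ∈ R}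
        · left
          refine hC 3 v _ (fun b => ?_)
          by_cases hb : b = a
          · rw [hb]; exact hc
          · exact h1 b (a, j) (Ne.symm hb)
        · right
          have hlt := (h2 a j).resolve_left hc
          have hD0 := hρD _ (hr a) (a, j)
          obtain ⟨x, hx, hxa, hxn⟩ := hE.not_win (hN (r a (a, j))) (fun e he => (hle _ _ he).2)
            (hl _ hD0) (fun h => hc ⟨hD0, fun e he => h he⟩) hvw a
          have hrel : ∀ y : Fin 3 → β, (∀ b, y b ∈ E) → (r a (a, j), y a) ∈ R →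
              (op v (fun b => r b (a, j)), op v y) ∈ R := by
            intro y hy hya
            refine hR 3 v (fun b => (r b (a, j), y b)) (fun b => ?_)
            by_cases hb : b = a
            · rw [hb]; exact hya
            · exact (h1 b (a, j) (Ne.symm hb)).2 _ (hy b)
          have hsub : insert (op v x) {e | (r a (a, j), e) ∈ R} ⊆
              {e | (op v (fun b => r b (a, j)), e) ∈ R} := by
            rintro e (rfl | he)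
            · exact hrel x hx hxa
            · have := hrel (fun _ => e) (fun _ => (hle _ _ he).2) he
              rwa [idem] at this
          have := Set.ncard_le_ncard hsub (Set.toFinite _)
          rw [Set.ncard_insert_of_notMem hxn (Set.toFinite _)] at this
          omega
    obtain ⟨J, hJ, h⟩ := P (Nat.card β)
    refine ⟨J, hJ, fun ρ hρ hρD hw => ?_⟩
    obtain ⟨r, hr, h3⟩ := h ρ hρ hρD hw
    refine ⟨r, hr, fun j => (h3 j).resolve_right (not_lt.mpr ?_)⟩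
    rw [← Set.ncard_univ]
    exact Set.ncard_le_ncard (Set.subset_univ _) (Set.toFinite _)

theorem full_of_center [Finite β] {R : Set (α × β)} {D : Set α} {E : Set β} (hR : Sub A R)
    (hD : CF A D) (hE : CF A E) (hle : ∀ a b, (a, b) ∈ R → a ∈ D ∧ b ∈ E)
    (hl : ∀ a ∈ D, ∃ b, (a, b) ∈ R) {d : α} (hd : d ∈ D) (hc : ∀ e ∈ E, (d, e) ∈ R) :
    ∀ a ∈ D, ∀ e ∈ E, (a, e) ∈ R := fun _ ha =>
  (hD.eq _ (cen_center hR hD.sub hE hle hl) ⟨d, hd, hc⟩ ha).2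

theorem full_of_square [Finite α] [Finite β] {R : Set (α × β)} {D : Set α} {E : Set β}
    (hR : Sub A R) (hD : CF A D) (hE : CF A E) (hsd : SD R D E)
    (hsq : ∀ a ∈ D, ∀ b ∈ D, ∃ e, (a, e) ∈ R ∧ (b, e) ∈ R) : ∀ a ∈ D, ∀ e ∈ E, (a, e) ∈ R := by
  classical
  have Q : ∀ F : Finset α, (∀ z ∈ F, z ∈ D) →
      ∀ a ∈ D, ∀ b ∈ D, ∃ e, (a, e) ∈ R ∧ (b, e) ∈ R ∧ ∀ z ∈ F, (z, e) ∈ R := by
    intro F
    induction F using Finset.induction_on with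
    | empty =>
      intro _ a ha b hb
      obtain ⟨e, h1, h2⟩ := hsq a ha b hb
      exact ⟨e, h1, h2, by simp⟩
    | insert a1 F _ ih =>
      intro hF
      have ha1 : a1 ∈ D := hF a1 (by simp)
      have ih' := ih (fun z hz => hF z (by simp [hz]))
      have k : ∀ y ∈ D, ∃ e, (y, e) ∈ R ∧ ∀ z ∈ insert a1 F, (z, e) ∈ R := by
        intro y hy
        obtain ⟨e, h1, h2, h3⟩ := ih' a1 ha1 y hy
        refine ⟨e, h2, fun z hz => ?_⟩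
        rcases Finset.mem_insert.mp hz with rfl | hz
        · exact h1
        · exact h3 z hz
      have := full_of_center (A := A)
        (R := {p : α × α | ∃ e, (p.1, e) ∈ R ∧ (p.2, e) ∈ R ∧ ∀ z ∈ insert a1 F, (z, e) ∈ R})
        (Sub.ex (Sub.and (Sub.pre (by fun_prop) hR) (Sub.and (Sub.pre (by fun_prop) hR)
          (Sub.all fun z => Sub.all fun _ => Sub.pre (by fun_prop) hR)))) hD hD
        (fun a b ⟨e, h1, h2, _⟩ => ⟨(hsd.le _ _ h1).1, (hsd.le _ _ h2).1⟩)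
        (fun y hy => by obtain ⟨e, h1, h2⟩ := k y hy; exact ⟨y, e, h1, h1, h2⟩) ha1
        (fun y hy => by obtain ⟨e, h1, h2⟩ := k y hy; exact ⟨e, h2 a1 (by simp), h1, h2⟩)
      intro a ha b hb
      exact this a ha b hb
  intro a ha e he
  obtain ⟨e0, h1, _, h3⟩ := Q (Set.toFinite D).toFinset (by simp) a ha a ha
  exact full_of_center hR.rinv hE hD hsd.inv.le hsd.inv.left (hsd.le _ _ h1).2
    (fun d hd => h3 d (by simpa using hd)) e he a ha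

/-- The absorption theorem. -/
theorem absorption [Finite α] [Finite β] {R : Set (α × β)} {D : Set α} {E : Set β}
    (hR : Sub A R) (hD : CF A D) (hE : CF A E) (hsd : SD R D E) :
    (∀ a ∈ D, ∀ e ∈ E, (a, e) ∈ R) ∨ ∃ θ, Cong A θ D ∧ (¬ ∀ a ∈ D, ∀ b ∈ D, (a, b) ∈ θ) ∧
      ∀ a b e, (a, e) ∈ R → (b, e) ∈ R → (a, b) ∈ θ := by
  by_cases hsq : ∀ a ∈ D, ∀ b ∈ D, ∃ e, (a, e) ∈ R ∧ (b, e) ∈ R
  · exact Or.inl (full_of_square hR hD hE hsd hsq)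
  right
  let P : Set (Set (α × α)) := {S | Sub A S ∧ (∀ a b, (a, b) ∈ S → a ∈ D ∧ b ∈ D) ∧
    (∀ a b, (a, b) ∈ S → (b, a) ∈ S) ∧ (¬ ∀ a ∈ D, ∀ b ∈ D, (a, b) ∈ S) ∧
    ∀ a b e, (a, e) ∈ R → (b, e) ∈ R → (a, b) ∈ S}
  have hne : P.Nonempty := ⟨rcomp R (rinv R), hR.rcomp hR.rinv,
    fun a b ⟨e, h1, h2⟩ => ⟨(hsd.le _ _ h1).1, (hsd.le _ _ h2).1⟩,
    fun a b ⟨e, h1, h2⟩ => ⟨e, h2, h1⟩, hsq, fun a b e h1 h2 => ⟨e, h1, h2⟩⟩
  obtain ⟨S, ⟨h1, h2, h3, h4, h5⟩, hmax⟩ := Set.exists_max_image P Set.ncard (Set.toFinite P) hne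
  have hrefl : ∀ a ∈ D, (a, a) ∈ S := fun a ha => by
    obtain ⟨e, he⟩ := hsd.left a ha; exact h5 a a e he he
  have hsub : S ⊆ rcomp S S := fun p hp => ⟨p.2, hp, hrefl _ (h2 _ _ hp).2⟩
  have hP : rcomp S S ∈ P := by
    refine ⟨h1.rcomp h1, fun a b ⟨e, k1, k2⟩ => ⟨(h2 _ _ k1).1, (h2 _ _ k2).2⟩,
      fun a b ⟨e, k1, k2⟩ => ⟨e, h3 _ _ k2, h3 _ _ k1⟩, fun hfull => h4 ?_,
      fun a b e k1 k2 => hsub (h5 a b e k1 k2)⟩
    refine full_of_square h1 hD hD ⟨h2, fun a ha => ⟨a, hrefl a ha⟩, fun a ha => ⟨a, hrefl a ha⟩⟩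
      (fun a ha b hb => ?_)
    obtain ⟨e, k1, k2⟩ := hfull a ha b hb
    exact ⟨e, k1, h3 _ _ k2⟩
  have heq := Set.eq_of_subset_of_ncard_le hsub (hmax _ hP) (Set.toFinite _)
  refine ⟨S, ⟨h1, h2, hrefl, h3, fun a b c k1 k2 => ?_⟩, h4, h5⟩
  rw [heq]; exact ⟨b, k1, k2⟩

theorem CF.image [Finite α] {f : α → β} (hf : Hom A f) {D : Set α} (h : CF A D) :
    CF A (f '' D) := by
  refine ⟨h.sub.image hf, fun C hC ⟨_, hc⟩ => ?_⟩
  obtain ⟨a, ha, rfl⟩ := hC.le hc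
  have := h.eq _ (Cen.pre hf h.sub hC (fun g hg => ⟨g, hg, rfl⟩)) ⟨a, ha, hc⟩
  rintro _ ⟨b, hb, rfl⟩
  exact (this hb).2

theorem CF.prod [Finite α] [Finite β] {D : Set α} {E : Set β} (hD : CF A D) (hE : CF A E) :
    CF A (D ×ˢ E) := by
  refine ⟨hD.sub.prod hE.sub, fun C hC ⟨c, hc⟩ => ?_⟩
  have h1 : Cen A ((fun p : α × β => p.1) '' C) D := by
    have := hC.image (f := fun p : α × β => p.1) (by fun_prop)
    rwa [show (fun p : α × β => p.1) '' (D ×ˢ E) = D from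
      Set.fst_image_prod D ⟨_, (hC.le hc).2⟩] at this
  rintro ⟨a, b⟩ ⟨ha, hb⟩
  obtain ⟨⟨a', e⟩, he, rfl⟩ := hD.eq _ h1 ⟨_, c, hc, rfl⟩ ha
  exact (hE.eq _ (Cen.pre (f := fun y : β => (a', y)) (by fun_prop) hE.sub hC
    (fun g hg => ⟨ha, hg⟩)) ⟨e, (hC.le he).2, he⟩ hb).2

theorem exists_mc [Finite α] {C0 D : Set α} (h : Cen A C0 D) (hne : C0.Nonempty) :
    ∃ C, C ⊆ C0 ∧ Cen A C D ∧ C.Nonempty ∧ CF A C := by
  obtain ⟨C, ⟨h1, h2, h3⟩, hmin⟩ := Set.exists_min_image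
    {C | C ⊆ C0 ∧ Cen A C D ∧ C.Nonempty} Set.ncard (Set.toFinite _) ⟨C0, le_rfl, h, hne⟩
  refine ⟨C, h1, h2, h3, h2.subC, fun C' hC' hne' => ?_⟩
  exact (Set.eq_of_subset_of_ncard_le hC'.le
    (hmin C' ⟨hC'.le.trans h1, hC'.trans h2, hne'⟩) (Set.toFinite _)).ge

theorem loop_aux [Finite α] (n : ℕ) : ∀ (E : Set α) (T T' : Set (α × α)), E.ncard = n → Sub A E →
    E.Nonempty → (∀ a b, (a, b) ∈ T → a ∈ E ∧ b ∈ E) → (∀ a ∈ E, (a, a) ∈ T) → Cen A T' T →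
    (∀ a ∈ E, ∃ b, (a, b) ∈ T') → (∀ b ∈ E, ∃ a, (a, b) ∈ T') → ∃ a, (a, a) ∈ T' := by
  induction n using Nat.strong_induction_on with
  | _ n ih =>
  intro E T T' hn hE hne hTE hrefl hc hl hr
  obtain ⟨C, hCE, hC, ⟨c, hcC⟩, hCF⟩ := exists_mc (Cen.refl hE) hne
  have c1 : Cen A {g | g ∈ T ∧ g.1 ∈ C} T :=
    Cen.pre (by fun_prop) hc.subD hC (fun g hg => (hTE _ _ hg).1)
  have c2 : Cen A {g | g ∈ T ∧ g.2 ∈ C} T :=
    Cen.pre (by fun_prop) hc.subD hC (fun g hg => (hTE _ _ hg).2)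
  let F : Fin 3 → Set (α × α) := ![T', {g | g ∈ T ∧ g.1 ∈ C}, {g | g ∈ T ∧ g.2 ∈ C}]
  have hF : ∀ i, Cen A (F i) T := fun i => by fin_cases i; exacts [hc, c1, c2]
  obtain ⟨b1, hb1⟩ := hl c (hCE hcC)
  obtain ⟨a1, ha1⟩ := hr c (hCE hcC)
  have hcc := hrefl c (hCE hcC)
  obtain ⟨g, -, hg⟩ := helly hF hc.subD ⟨_, hcc⟩ (fun i j => by
    fin_cases i <;> fin_cases j
    · exact ⟨_, hb1, hb1⟩
    · exact ⟨_, hb1, hc.le hb1, hcC⟩
    · exact ⟨_, ha1, hc.le ha1, hcC⟩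
    · exact ⟨_, ⟨hc.le hb1, hcC⟩, hb1⟩
    · exact ⟨(c, c), ⟨hcc, hcC⟩, hcc, hcC⟩
    · exact ⟨(c, c), ⟨hcc, hcC⟩, hcc, hcC⟩
    · exact ⟨_, ⟨hc.le ha1, hcC⟩, ha1⟩
    · exact ⟨(c, c), ⟨hcc, hcC⟩, hcc, hcC⟩
    · exact ⟨(c, c), ⟨hcc, hcC⟩, hcc, hcC⟩)
  have g0 : g ∈ T' := hg 0
  have g1 : g.1 ∈ C := (hg 1).2
  have g2 : g.2 ∈ C := (hg 2).2
  have c3 := (hc.inter c1).inter c2
  have hT1 : (fun p : α × α => p.1) '' T = E := by
    ext a; exact ⟨fun ⟨p, hp, e⟩ => e ▸ (hTE _ _ hp).1, fun ha => ⟨_, hrefl a ha, rfl⟩⟩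
  have hT2 : (fun p : α × α => p.2) '' T = E := by
    ext a; exact ⟨fun ⟨p, hp, e⟩ => e ▸ (hTE _ _ hp).2, fun ha => ⟨_, hrefl a ha, rfl⟩⟩
  have l1 : ∀ a ∈ C, ∃ b ∈ C, (a, b) ∈ T' := by
    have := c3.image (f := fun p : α × α => p.1) (by fun_prop)
    rw [hT1] at this
    have h2 := hCF.eq _ (this.of_le hC.subC hCE (by rintro _ ⟨p, hp, rfl⟩; exact hp.1.2.2))
      ⟨_, g, ⟨⟨g0, hc.le g0, g1⟩, hc.le g0, g2⟩, rfl⟩
    intro a ha
    obtain ⟨p, hp, rfl⟩ := h2 ha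
    exact ⟨p.2, hp.2.2, hp.1.1⟩
  have l2 : ∀ b ∈ C, ∃ a ∈ C, (a, b) ∈ T' := by
    have := c3.image (f := fun p : α × α => p.2) (by fun_prop)
    rw [hT2] at this
    have h2 := hCF.eq _ (this.of_le hC.subC hCE (by rintro _ ⟨p, hp, rfl⟩; exact hp.2.2))
      ⟨_, g, ⟨⟨g0, hc.le g0, g1⟩, hc.le g0, g2⟩, rfl⟩
    intro a ha
    obtain ⟨p, hp, rfl⟩ := h2 ha
    exact ⟨p.1, hp.1.2.2, hp.1.1⟩
  have hs : Sub A (T ∩ C ×ˢ C) := hc.subD.inter (hC.subC.prod hC.subC)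
  rcases absorption hs hCF hCF ⟨fun a b h => h.2, fun a ha => ⟨a, hrefl a (hCE ha), ha, ha⟩,
    fun a ha => ⟨a, hrefl a (hCE ha), ha, ha⟩⟩ with hfull | ⟨θ, hθ, hprop, hlink⟩
  · have h1 : Cen A (C ×ˢ C ∩ T') (C ×ˢ C) := hc.restrict (hC.subC.prod hC.subC)
      (fun p hp => (hfull _ hp.1 _ hp.2).1)
    exact ⟨c, ((hCF.prod hCF).eq _ h1 ⟨g, ⟨g1, g2⟩, g0⟩ (show (c, c) ∈ C ×ˢ C from ⟨hcC, hcC⟩)).2⟩
  · push Not at hprop
    obtain ⟨a, ha, b, hb, hab⟩ := hprop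
    have hTθ : ∀ x y, x ∈ C → y ∈ C → (x, y) ∈ T → (x, y) ∈ θ := fun x y hx hy hxy =>
      hlink x y y ⟨hxy, hx, hy⟩ ⟨hrefl y (hCE hy), hy, hy⟩
    let K : Set α := {y | (a, y) ∈ θ}
    have hK : Sub A K := Sub.pre (by fun_prop) hθ.sub
    have hKC : K ⊆ C := fun y hy => (hθ.le _ _ hy).2
    have hlt : K.ncard < n := by
      rw [← hn]
      refine Set.ncard_lt_ncard ⟨hKC.trans hCE, fun h => hab (h (hCE hb))⟩ (Set.toFinite _)
    obtain ⟨x, hx⟩ := ih _ hlt K (T ∩ K ×ˢ K) (T ∩ K ×ˢ K ∩ T') rfl hK ⟨a, hθ.refl a ha⟩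
      (fun x y h => h.2) (fun x hx => ⟨hrefl x (hCE (hKC hx)), hx, hx⟩)
      (hc.restrict (hc.subD.inter (hK.prod hK)) (fun _ h => h.1))
      (fun x hx => by
        obtain ⟨y, hy, hxy⟩ := l1 x (hKC hx)
        exact ⟨y, ⟨hc.le hxy, hx, hθ.trans _ _ _ hx (hTθ x y (hKC hx) hy (hc.le hxy))⟩, hxy⟩)
      (fun y hy => by
        obtain ⟨x, hx, hxy⟩ := l2 y (hKC hy)
        exact ⟨x, ⟨hc.le hxy, hθ.trans _ _ _ hy (hθ.symm _ _ (hTθ x y hx (hKC hy) (hc.le hxy))),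
          hy⟩, hxy⟩)
    exact ⟨x, hx.2⟩

/-- A central subrelation of a reflexive relation that is subdirect on a centre-free set is
reflexive. -/
theorem loop_cf [Finite α] {E : Set α} (hE : CF A E) {T T' : Set (α × α)}
    (hrefl : ∀ a ∈ E, (a, a) ∈ T) (hc : Cen A T' T) (hl : ∀ a ∈ E, ∃ b ∈ E, (a, b) ∈ T')
    (hr : ∀ b ∈ E, ∃ a ∈ E, (a, b) ∈ T') : ∀ a ∈ E, (a, a) ∈ T' := by
  intro a ha
  obtain ⟨x, hx⟩ := loop_aux (A := A) _ E (T ∩ E ×ˢ E) (T ∩ E ×ˢ E ∩ T') rfl hE.sub ⟨a, ha⟩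
    (fun x y h => h.2) (fun x hx => ⟨hrefl x hx, hx, hx⟩)
    (hc.restrict (hc.subD.inter (hE.sub.prod hE.sub)) (fun _ h => h.1))
    (fun x hx => by obtain ⟨y, hy, h⟩ := hl x hx; exact ⟨y, ⟨hc.le h, hx, hy⟩, h⟩)
    (fun y hy => by obtain ⟨x, hx, h⟩ := hr y hy; exact ⟨x, ⟨hc.le h, hx, hy⟩, h⟩)
  exact (hE.eq _ (Cen.pre (f := fun y : α => (y, y)) (by fun_prop) hE.sub hc hrefl)
    ⟨x, hx.1.2.1, hx.2⟩ ha).2

end

end Pool.Agent.H218Z.BW
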