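import Mathlib

set_option autoImplicit false

namespace Pool.Agent.H218Z.BW

/-- A clone of operations on `X`. -/
structure Clone (X : Type) where
  mem : ∀ k : ℕ, Set ((Fin k → X) → X)
  proj_mem : ∀ (k : ℕ) (i : Fin k), (fun x : Fin k → X => x i) ∈ mem k
  comp_mem : ∀ (k m : ℕ) (f : (Fin k → X) → X) (g : Fin k → (Fin m → X) → X),
    f ∈ mem k → (∀ i, g i ∈ mem m) → (fun x : Fin m → X => f (fun i => g i x)) ∈ mem m

variable {X : Type}

abbrev Clone.Op (A : Clone X) (k : ℕ) : Type := {f : (Fin k → X) → X // f ∈ A.mem k}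

def Clone.proj (A : Clone X) {k : ℕ} (i : Fin k) : A.Op k := ⟨fun x => x i, A.proj_mem k i⟩

def Clone.comp (A : Clone X) {k m : ℕ} (f : A.Op k) (g : Fin k → A.Op m) : A.Op m :=
  ⟨fun x => f.1 (fun i => (g i).1 x), A.comp_mem k m f.1 (fun i => (g i).1) f.2 (fun i => (g i).2)⟩

/-- An algebra in the variety of the clone `A`. -/
class Alg (A : Clone X) (α : Type) where
  op : ∀ {k : ℕ}, A.Op k → (Fin k → α) → α
  op_proj : ∀ {k : ℕ} (i : Fin k) (x : Fin k → α), op (A.proj i) x = x i
  op_comp : ∀ {k m : ℕ} (f : A.Op k) (g : Fin k → A.Op m) (x : Fin m → α),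
    op (A.comp f g) x = op f (fun i => op (g i) x)

open Alg

instance algSelf (A : Clone X) : Alg A X where
  op t x := t.1 x
  op_proj _ _ := rfl
  op_comp _ _ _ := rfl

instance algProd (A : Clone X) (α β : Type) [Alg A α] [Alg A β] : Alg A (α × β) where
  op t x := (op t (fun i => (x i).1), op t (fun i => (x i).2))
  op_proj i x := by simp [op_proj]
  op_comp f g x := by simp [op_comp]

instance algPi (A : Clone X) (J α : Type) [Alg A α] : Alg A (J → α) where
  op t x := fun j => op t (fun i => x i j)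
  op_proj i x := by funext j; simp [op_proj]
  op_comp f g x := by funext j; simp [op_comp]

/-- Linked idempotent weak near-unanimity operations of arities three and four. -/
structure Linked {α : Type} (v : (Fin 3 → α) → α) (w : (Fin 4 → α) → α) : Prop where
  vi : ∀ a, v ![a, a, a] = a
  wi : ∀ a, w ![a, a, a, a] = a
  v12 : ∀ x y, v ![y, x, x] = v ![x, y, x]
  v23 : ∀ x y, v ![x, y, x] = v ![x, x, y]
  w12 : ∀ x y, w ![y, x, x, x] = w ![x, y, x, x]
  w23 : ∀ x y, w ![x, y, x, x] = w ![x, x, y, x]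
  w34 : ∀ x y, w ![x, x, y, x] = w ![x, x, x, y]
  vw : ∀ x y, v ![y, x, x] = w ![y, x, x, x]

def BWc (A : Clone X) : Prop := ∃ v ∈ A.mem 3, ∃ w ∈ A.mem 4, Linked v w

/-- Minimal bounded width clones. -/
class MinBW (A : Clone X) : Prop where
  bw : BWc A
  min : ∀ F : Clone X, (∀ k, F.mem k ⊆ A.mem k) → BWc F → ∀ k, A.mem k ⊆ F.mem k

variable {A : Clone X} {α β γ δ : Type}

theorem op_fst [Alg A α] [Alg A β] {k : ℕ} (t : A.Op k) (x : Fin k → α × β) :
    (op t x).1 = op t (fun i => (x i).1) := rfl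

theorem op_snd [Alg A α] [Alg A β] {k : ℕ} (t : A.Op k) (x : Fin k → α × β) :
    (op t x).2 = op t (fun i => (x i).2) := rfl

theorem op_apply {J : Type} [Alg A α] {k : ℕ} (t : A.Op k) (x : Fin k → J → α) (j : J) :
    (op t x) j = op t (fun i => x i j) := rfl

/-- Identities of the clone hold in all its algebras. -/
theorem transfer [Alg A α] {k k' m : ℕ} (t : A.Op k) (t' : A.Op k') (σ : Fin k → Fin m)
    (σ' : Fin k' → Fin m) (h : ∀ x : Fin m → X, t.1 (fun i => x (σ i)) = t'.1 (fun i => x (σ' i)))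
    (y : Fin m → α) : op t (fun i => y (σ i)) = op t' (fun i => y (σ' i)) := by
  have e : A.comp t (fun i => A.proj (σ i)) = A.comp t' (fun i => A.proj (σ' i)) := by
    apply Subtype.ext; funext x; exact h x
  have h1 := op_comp t (fun i => A.proj (σ i)) y
  have h2 := op_comp t' (fun i => A.proj (σ' i)) y
  simp only [op_proj] at h1 h2
  rw [← h1, ← h2, e]

theorem idem_self [hA : MinBW A] {k : ℕ} (t : A.Op k) (a : X) : t.1 (fun _ => a) = a := by
  let F : Clone X :=
    { mem := fun k => {f | f ∈ A.mem k ∧ ∀ a, f (fun _ => a) = a}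
      proj_mem := fun k i => ⟨A.proj_mem k i, fun _ => rfl⟩
      comp_mem := fun k m f g hf hg => ⟨A.comp_mem k m f g hf.1 (fun i => (hg i).1), fun a => by
        simp only [fun i => (hg i).2 a]; exact hf.2 a⟩ }
  obtain ⟨v, hv, w, hw, hl⟩ := hA.bw
  have hF : BWc F := by
    refine ⟨v, ⟨hv, fun a => ?_⟩, w, ⟨hw, fun a => ?_⟩, hl⟩
    · have := hl.vi a
      rwa [show (![a, a, a] : Fin 3 → X) = fun _ => a from by
        funext i; fin_cases i <;> rfl] at this
    · have := hl.wi a
      rwa [show (![a, a, a, a] : Fin 4 → X) = fun _ => a from by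
        funext i; fin_cases i <;> rfl] at this
  exact (hA.min F (fun k f hf => hf.1) hF k t.2).2 a

theorem idem [MinBW A] [Alg A α] {k : ℕ} (t : A.Op k) (a : α) : op t (fun _ => a) = a := by
  have := transfer (α := α) t (A.proj (0 : Fin 1)) (fun _ => (0 : Fin 1)) id
    (fun x => idem_self t (x 0)) (fun _ => a)
  simpa [op_proj] using this

theorem Linked.transfer [Alg A α] {v : A.Op 3} {w : A.Op 4} (h : Linked v.1 w.1) :
    Linked (α := α) (op v) (op w) := by
  have e3 : ∀ {Y : Type} (z : Fin 2 → Y) (a b c : Fin 2),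
      (fun i => z (![a, b, c] i)) = ![z a, z b, z c] := by
    intro Y z a b c; funext i; fin_cases i <;> rfl
  have e4 : ∀ {Y : Type} (z : Fin 2 → Y) (a b c d : Fin 2),
      (fun i => z (![a, b, c, d] i)) = ![z a, z b, z c, z d] := by
    intro Y z a b c d; funext i; fin_cases i <;> rfl
  constructor
  · intro a
    have := BW.transfer (α := α) v (A.proj (0 : Fin 2)) ![0, 0, 0] id
      (fun x => by rw [e3]; exact h.vi _) ![a, a]
    rw [e3] at this; simpa [op_proj] using this
  · intro a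
    have := BW.transfer (α := α) w (A.proj (0 : Fin 2)) ![0, 0, 0, 0] id
      (fun x => by rw [e4]; exact h.wi _) ![a, a]
    rw [e4] at this; simpa [op_proj] using this
  · intro x y
    have := BW.transfer (α := α) v v ![1, 0, 0] ![0, 1, 0]
      (fun x => by rw [e3, e3]; exact h.v12 _ _) ![x, y]
    rw [e3, e3] at this; simpa using this
  · intro x y
    have := BW.transfer (α := α) v v ![0, 1, 0] ![0, 0, 1]
      (fun x => by rw [e3, e3]; exact h.v23 _ _) ![x, y]
    rw [e3, e3] at this; simpa using this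
  · intro x y
    have := BW.transfer (α := α) w w ![1, 0, 0, 0] ![0, 1, 0, 0]
      (fun x => by rw [e4, e4]; exact h.w12 _ _) ![x, y]
    rw [e4, e4] at this; simpa using this
  · intro x y
    have := BW.transfer (α := α) w w ![0, 1, 0, 0] ![0, 0, 1, 0]
      (fun x => by rw [e4, e4]; exact h.w23 _ _) ![x, y]
    rw [e4, e4] at this; simpa using this
  · intro x y
    have := BW.transfer (α := α) w w ![0, 0, 1, 0] ![0, 0, 0, 1]
      (fun x => by rw [e4, e4]; exact h.w34 _ _) ![x, y]
    rw [e4, e4] at this; simpa using this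
  · intro x y
    have := BW.transfer (α := α) v w ![1, 0, 0] ![1, 0, 0, 0]
      (fun x => by rw [e3, e4]; exact h.vw _ _) ![x, y]
    rw [e3, e4] at this; simpa using this

theorem exists_linked (A : Clone X) [hA : MinBW A] :
    ∃ (v : A.Op 3) (w : A.Op 4), Linked v.1 w.1 := by
  obtain ⟨v, hv, w, hw, hl⟩ := hA.bw
  exact ⟨⟨v, hv⟩, ⟨w, hw⟩, hl⟩

/-- Subuniverses. -/
def Sub (A : Clone X) {α : Type} [Alg A α] (S : Set α) : Prop :=
  ∀ (k : ℕ) (t : A.Op k) (x : Fin k → α), (∀ i, x i ∈ S) → op t x ∈ S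

/-- Homomorphisms. -/
@[fun_prop]
def Hom (A : Clone X) {α β : Type} [Alg A α] [Alg A β] (f : α → β) : Prop :=
  ∀ (k : ℕ) (t : A.Op k) (x : Fin k → α), f (op t x) = op t (fun i => f (x i))

section hom
variable [Alg A α] [Alg A β] [Alg A γ] [Alg A δ]

@[fun_prop] theorem Hom.id' : Hom A (fun x : α => x) := fun _ _ _ => rfl

@[fun_prop] theorem Hom.const [MinBW A] (b : β) : Hom A (fun _ : α => b) :=
  fun _ t _ => (idem t b).symm

@[fun_prop] theorem Hom.comp' {f : β → γ} {g : α → β} (hf : Hom A f) (hg : Hom A g) :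
    Hom A (fun x => f (g x)) := fun k t x => by
  beta_reduce; rw [hg, hf]

@[fun_prop] theorem Hom.fst {f : α → β × γ} (hf : Hom A f) : Hom A (fun x => (f x).1) :=
  fun k t x => by beta_reduce; rw [hf]; rfl

@[fun_prop] theorem Hom.snd {f : α → β × γ} (hf : Hom A f) : Hom A (fun x => (f x).2) :=
  fun k t x => by beta_reduce; rw [hf]; rfl

@[fun_prop] theorem Hom.pair {f : α → β} {g : α → γ} (hf : Hom A f) (hg : Hom A g) :
    Hom A (fun x => (f x, g x)) := fun k t x => by
  beta_reduce; rw [hf, hg]; rfl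

@[fun_prop] theorem Hom.apply {J : Type} (j : J) : Hom A (fun x : J → α => x j) :=
  fun _ _ _ => rfl

@[fun_prop] theorem Hom.pi {J : Type} {f : α → J → β} (hf : ∀ j, Hom A (fun x => f x j)) :
    Hom A (fun x j => f x j) := fun k t x => by
  funext j; exact hf j k t x

theorem Sub.univ : Sub A (Set.univ : Set α) := fun _ _ _ _ => trivial

theorem Sub.pre {f : α → β} (hf : Hom A f) {S : Set β} (hS : Sub A S) :
    Sub A {a | f a ∈ S} := fun k t x hx => by
  show f (op t x) ∈ S
  rw [hf]; exact hS k t _ hx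

theorem Sub.image {f : α → β} (hf : Hom A f) {S : Set α} (hS : Sub A S) :
    Sub A (f '' S) := fun k t x hx => by
  choose y hy hxy using hx
  refine ⟨op t y, hS k t y hy, ?_⟩
  rw [hf]; congr 1; funext i; exact hxy i

theorem Sub.and {p q : α → Prop} (hp : Sub A {a | p a}) (hq : Sub A {a | q a}) :
    Sub A {a | p a ∧ q a} := fun k t x hx =>
  ⟨hp k t x (fun i => (hx i).1), hq k t x (fun i => (hx i).2)⟩

theorem Sub.inter {S T : Set α} (hS : Sub A S) (hT : Sub A T) : Sub A (S ∩ T) :=
  Sub.and (p := fun a => a ∈ S) (q := fun a => a ∈ T) hS hT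

theorem Sub.all {J : Sort*} {p : J → α → Prop} (hp : ∀ j, Sub A {a | p j a}) :
    Sub A {a | ∀ j, p j a} := fun k t x hx j => hp j k t x (fun i => hx i j)

theorem Sub.ex {p : α → β → Prop} (hp : Sub A {z : α × β | p z.1 z.2}) :
    Sub A {a | ∃ b, p a b} := fun k t x hx => by
  choose y hy using hx
  exact ⟨op t y, hp k t (fun i => (x i, y i)) hy⟩

theorem Sub.eq {f g : α → β} (hf : Hom A f) (hg : Hom A g) : Sub A {a | f a = g a} :=
  fun k t x hx => by
    show f (op t x) = g (op t x)
    rw [hf, hg]; congr 1; funext i; exact hx i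

theorem Sub.prod {S : Set α} {T : Set β} (hS : Sub A S) (hT : Sub A T) : Sub A (S ×ˢ T) :=
  Sub.and (Sub.pre (f := fun z : α × β => z.1) (by fun_prop) hS)
    (Sub.pre (f := fun z : α × β => z.2) (by fun_prop) hT)

/-- Generated subuniverse. -/
def Sg (A : Clone X) {α : Type} [Alg A α] (S : Set α) : Set α :=
  {a | ∀ T : Set α, Sub A T → S ⊆ T → a ∈ T}

theorem Sub.sg (S : Set α) : Sub A (Sg A S) :=
  fun k t x hx T hT hS => hT k t x (fun i => hx i T hT hS)

theorem subset_sg (S : Set α) : S ⊆ Sg A S := fun _ ha _ _ hS => hS ha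

theorem sg_le {S T : Set α} (hT : Sub A T) (h : S ⊆ T) : Sg A S ⊆ T := fun _ ha => ha T hT h

/-- The minimality principle: a set closed under one linked pair is a subuniverse. -/
theorem sub_of_linked [hA : MinBW A] {v : A.Op 3} {w : A.Op 4} (hl : Linked v.1 w.1) {S : Set α}
    (hv : ∀ x : Fin 3 → α, (∀ i, x i ∈ S) → op v x ∈ S)
    (hw : ∀ x : Fin 4 → α, (∀ i, x i ∈ S) → op w x ∈ S) : Sub A S := by
  let F : Clone X :=
    { mem := fun k => {f | ∃ h : f ∈ A.mem k, ∀ x : Fin k → α, (∀ i, x i ∈ S) →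
        op (⟨f, h⟩ : A.Op k) x ∈ S}
      proj_mem := fun k i => ⟨A.proj_mem k i, fun x hx => by
        have := op_proj (A := A) i x
        unfold Clone.proj at this
        rw [this]; exact hx i⟩
      comp_mem := fun k m f g hf hg => by
        obtain ⟨hf1, hf2⟩ := hf
        choose hg1 hg2 using hg
        refine ⟨A.comp_mem k m f g hf1 hg1, fun x hx => ?_⟩
        have := op_comp (A := A) ⟨f, hf1⟩ (fun i => ⟨g i, hg1 i⟩) x
        unfold Clone.comp at this
        rw [this]
        exact hf2 _ (fun i => hg2 i x hx) }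
  have hF : BWc F := ⟨v.1, ⟨v.2, hv⟩, w.1, ⟨w.2, hw⟩, hl⟩
  intro k t x hx
  obtain ⟨_, h⟩ := hA.min F (fun k f hf => hf.1) hF k t.2
  exact h x hx

end hom

end Pool.Agent.H218Z.BW
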