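import Pool.Agent.H218Z.BW.Central

set_option autoImplicit false
set_option linter.unusedSectionVars false

namespace Pool.Agent.H218Z.BW

open Alg

variable {X : Type} {A : Clone X} {α β γ δ : Type}

/-- Composition of a binary term with two terms. -/
def c2 {m : ℕ} (t : A.Op 2) (a b : A.Op m) : A.Op m := A.comp t ![a, b]

theorem op_c2 [Alg A α] {m : ℕ} (t : A.Op 2) (a b : A.Op m) (x : Fin m → α) :
    op (c2 t a b) x = op t ![op a x, op b x] := by
  unfold c2; rw [op_comp]; congr 1; funext i; fin_cases i <;> rfl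

def c3 {m : ℕ} (t : A.Op 3) (a b c : A.Op m) : A.Op m := A.comp t ![a, b, c]

theorem op_c3 [Alg A α] {m : ℕ} (t : A.Op 3) (a b c : A.Op m) (x : Fin m → α) :
    op (c3 t a b c) x = op t ![op a x, op b x, op c x] := by
  unfold c3; rw [op_comp]; congr 1; funext i; fin_cases i <;> rfl

def c4 {m : ℕ} (t : A.Op 4) (a b c d : A.Op m) : A.Op m := A.comp t ![a, b, c, d]

theorem op_c4 [Alg A α] {m : ℕ} (t : A.Op 4) (a b c d : A.Op m) (x : Fin m → α) :
    op (c4 t a b c d) x = op t ![op a x, op b x, op c x, op d x] := by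
  unfold c4; rw [op_comp]; congr 1; funext i; fin_cases i <;> rfl

def iter (t : A.Op 2) : ℕ → A.Op 2
  | 0 => A.proj 1
  | n + 1 => c2 t (A.proj 0) (iter t n)

theorem op_iter [Alg A α] (t : A.Op 2) (n : ℕ) (x y : α) :
    op (iter t n) ![x, y] = (fun z => op t ![x, z])^[n] y := by
  induction n with
  | zero => simp [iter, op_proj]
  | succ n ih => rw [iter, op_c2, ih, Function.iterate_succ_apply', op_proj]; rfl

theorem exists_idem_pow {M : Type} [Monoid M] [Finite M] (a : M) :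
    ∃ N, 0 < N ∧ a ^ N * a ^ N = a ^ N := by
  obtain ⟨i, j, hij, he⟩ := Finite.exists_ne_map_eq_of_infinite (fun n : ℕ => a ^ n)
  wlog hlt : i < j generalizing i j
  · exact this j i hij.symm he.symm (by omega)
  have h1 : ∀ c n, i ≤ n → a ^ (n + c * (j - i)) = a ^ n := by
    intro c
    induction c with
    | zero => simp
    | succ c ih =>
      intro n hn
      have e : n + (c + 1) * (j - i) = (n - i + c * (j - i)) + j := by
        rw [Nat.succ_mul]; omega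
      have e2 : (n - i + c * (j - i)) + i = n + c * (j - i) := by omega
      rw [e, pow_add, ← he, ← pow_add, e2, ih n hn]
  refine ⟨(i + 1) * (j - i), Nat.mul_pos (by omega) (by omega), ?_⟩
  rw [← pow_add]
  apply h1
  have : 1 ≤ j - i := by omega
  nlinarith

theorem exists_iter [Finite X] (t : A.Op 2) : ∃ N, 0 < N ∧
    ∀ x y : X, op (iter t N) ![x, op (iter t N) ![x, y]] = op (iter t N) ![x, y] := by
  have : Finite (Function.End X) := inferInstanceAs (Finite (X → X))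
  obtain ⟨N, hN, he⟩ := exists_idem_pow
    (M := X → Function.End X) (fun x => (fun z => op t ![x, z] : X → X))
  refine ⟨N, hN, fun x y => ?_⟩
  have h := congrFun (congrFun he x) y
  rw [op_iter, op_iter]
  have e : ∀ f : Function.End X, ∀ z, (f ^ N) z = (f : X → X)^[N] z := fun f z => rfl
  simp only [Pi.mul_apply, Pi.pow_apply] at h
  rw [← e, ← e]
  exact h

section
variable [Alg A α] [Alg A β] [Alg A γ] [MinBW A]

theorem idem2 (t : A.Op 2) (a : α) : op t ![a, a] = a := by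
  rw [show (![a, a] : Fin 2 → α) = fun _ => a from by funext i; fin_cases i <;> rfl]
  exact idem t a

theorem Sub.op2 {S : Set α} (hS : Sub A S) (t : A.Op 2) {a b : α} (ha : a ∈ S) (hb : b ∈ S) :
    op t ![a, b] ∈ S := hS 2 t _ (fun i => by fin_cases i; exacts [ha, hb])

theorem Sub.op3 {S : Set α} (hS : Sub A S) (t : A.Op 3) {a b c : α} (ha : a ∈ S) (hb : b ∈ S)
    (hc : c ∈ S) : op t ![a, b, c] ∈ S := hS 3 t _ (fun i => by fin_cases i; exacts [ha, hb, hc])

theorem Sub.op4 {S : Set α} (hS : Sub A S) (t : A.Op 4) {a b c d : α} (ha : a ∈ S) (hb : b ∈ S)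
    (hc : c ∈ S) (hd : d ∈ S) : op t ![a, b, c, d] ∈ S :=
  hS 4 t _ (fun i => by fin_cases i; exacts [ha, hb, hc, hd])

/-- Binary absorption. -/
def BA (t : A.Op 2) (C D : Set α) : Prop :=
  ∀ c ∈ C, ∀ d ∈ D, op t ![c, d] ∈ C ∧ op t ![d, c] ∈ C

theorem BA.iter {t : A.Op 2} {C D : Set α} (hD : Sub A D) (hle : C ⊆ D) (h : BA t C D) {N : ℕ}
    (hN : 0 < N) : BA (iter t N) C D := by
  intro c hc d hd
  constructor
  · obtain ⟨n, rfl⟩ : ∃ n, N = n + 1 := ⟨N - 1, by omega⟩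
    rw [BW.iter, op_c2, op_proj]
    exact (h c hc _ (hD.op2 _ (hle hc) hd)).1
  · rw [op_iter]
    clear hN
    induction N with
    | zero => exact hc
    | succ n ih => rw [Function.iterate_succ_apply']; exact (h _ ih d hd).2

theorem exists_psl [Finite X] {t : A.Op 2} {C D : Set α} (hD : Sub A D) (hle : C ⊆ D)
    (h : BA t C D) : ∃ s : A.Op 2, BA s C D ∧
      (∀ x y : X, op s ![x, op s ![x, y]] = op s ![x, y]) ∧
      (∀ x y : X, op s ![op s ![x, y], x] = op s ![x, y]) := by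
  obtain ⟨N, hN, h1⟩ := exists_iter t
  have b1 := h.iter hD hle hN
  set t1 := iter t N
  let u : A.Op 2 := c2 t1 (A.proj 0) (c2 t1 (A.proj 1) (A.proj 0))
  have hu : ∀ {Y : Type} [Alg A Y] (x y : Y), op u ![x, y] = op t1 ![x, op t1 ![y, x]] := by
    intro Y _ x y
    simp only [u, op_c2, op_proj]; rfl
  have b2 : BA u C D := by
    intro c hc d hd
    rw [hu, hu]
    exact ⟨(b1 c hc _ (hD.op2 _ hd (hle hc))).1, (b1 _ (b1 c hc d hd).1 d hd).2⟩
  obtain ⟨M, hM, h2⟩ := exists_iter u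
  refine ⟨iter u M, b2.iter hD hle hM, h2, fun x y => ?_⟩
  obtain ⟨n, rfl⟩ : ∃ n, M = n + 1 := ⟨M - 1, by omega⟩
  set z := op (iter u (n + 1)) ![x, y] with hz
  have e1 : op t1 ![x, z] = z := by
    have : z = op u ![x, (fun z => op u ![x, z])^[n] y] := by
      rw [hz, op_iter u, Function.iterate_succ_apply']
    rw [this, hu, h1]
  have e2 : op u ![z, x] = z := by rw [hu, e1, idem2]
  rw [op_iter u (n + 1) z x, Function.iterate_succ_apply, e2]
  exact Function.iterate_fixed (idem2 u z) n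

theorem cen_of_ba [Finite X] {t : A.Op 2} {C D : Set α} (hC : Sub A C) (hD : Sub A D)
    (hle : C ⊆ D) (h : BA t C D) : Cen A C D := by
  obtain ⟨s, hs, s1, s2⟩ := exists_psl hD hle h
  obtain ⟨v, w, hl⟩ := exists_linked A
  let p := fun {m : ℕ} (i : Fin m) => A.proj i
  let h3 : Fin 3 → Fin 3 → Fin 3 → A.Op 3 := fun i j k =>
    c2 s (c2 s (p i) (p j)) (c2 s (p i) (p k))
  let h4 : Fin 4 → Fin 4 → Fin 4 → Fin 4 → A.Op 4 := fun i j k l =>
    c2 s (c2 s (c2 s (p i) (p j)) (c2 s (p i) (p k))) (c2 s (p i) (p l))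
  let v' : A.Op 3 := c3 v (h3 0 1 2) (h3 1 2 0) (h3 2 0 1)
  let w' : A.Op 4 := c4 w (h4 0 1 2 3) (h4 1 2 3 0) (h4 2 3 0 1) (h4 3 0 1 2)
  have hv' : ∀ {Y : Type} [Alg A Y] (x : Fin 3 → Y), op v' x =
      op v ![op s ![op s ![x 0, x 1], op s ![x 0, x 2]], op s ![op s ![x 1, x 2], op s ![x 1, x 0]],
        op s ![op s ![x 2, x 0], op s ![x 2, x 1]]] := by
    intro Y _ x
    simp only [v', h3, p, op_c3, op_c2, op_proj]
  have hw' : ∀ {Y : Type} [Alg A Y] (x : Fin 4 → Y), op w' x =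
      op w ![op s ![op s ![op s ![x 0, x 1], op s ![x 0, x 2]], op s ![x 0, x 3]],
        op s ![op s ![op s ![x 1, x 2], op s ![x 1, x 3]], op s ![x 1, x 0]],
        op s ![op s ![op s ![x 2, x 3], op s ![x 2, x 0]], op s ![x 2, x 1]],
        op s ![op s ![op s ![x 3, x 0], op s ![x 3, x 1]], op s ![x 3, x 2]]] := by
    intro Y _ x
    simp only [w', h4, p, op_c4, op_c2, op_proj]
  have hlX : Linked (α := X) (op v) (op w) := hl
  have hl' : Linked (α := X) (op v') (op w') := by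
    constructor <;> intros <;> simp [hv', hw', idem2, s1, s2, hlX.vi, hlX.wi]
    · exact hlX.v12 _ _
    · exact hlX.v23 _ _
    · exact hlX.w12 _ _
    · exact hlX.w23 _ _
    · exact hlX.w34 _ _
    · exact hlX.vw _ _
  have k : ∀ a ∈ D, ∀ b ∈ D, (a ∈ C ∨ b ∈ C) → op s ![a, b] ∈ C := by
    rintro a ha b hb (h1 | h1)
    · exact (hs a h1 b hb).1
    · exact (hs b h1 a ha).2
  have k3 : ∀ a ∈ D, ∀ b ∈ D, ∀ c ∈ D, (a ∈ C ∨ b ∈ C ∨ c ∈ C) →
      op s ![op s ![a, b], op s ![a, c]] ∈ C := by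
    intro a ha b hb c hc h1
    apply k _ (hD.op2 _ ha hb) _ (hD.op2 _ ha hc)
    rcases h1 with h1 | h1 | h1
    · exact Or.inl (k _ ha _ hb (Or.inl h1))
    · exact Or.inl (k _ ha _ hb (Or.inr h1))
    · exact Or.inr (k _ ha _ hc (Or.inr h1))
  have k4 : ∀ a ∈ D, ∀ b ∈ D, ∀ c ∈ D, ∀ d ∈ D, (a ∈ C ∨ b ∈ C ∨ c ∈ C ∨ d ∈ C) →
      op s ![op s ![op s ![a, b], op s ![a, c]], op s ![a, d]] ∈ C := by
    intro a ha b hb c hc d hd h1
    apply k _ (hD.op2 _ (hD.op2 _ ha hb) (hD.op2 _ ha hc)) _ (hD.op2 _ ha hd)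
    rcases h1 with h1 | h1 | h1 | h1
    · exact Or.inl (k3 _ ha _ hb _ hc (Or.inl h1))
    · exact Or.inl (k3 _ ha _ hb _ hc (Or.inr (Or.inl h1)))
    · exact Or.inl (k3 _ ha _ hb _ hc (Or.inr (Or.inr h1)))
    · exact Or.inr (k _ ha _ hd (Or.inr h1))
  have kv : ∀ x : Fin 3 → α, (∀ i, x i ∈ D) → x 0 ∈ C → op v' x ∈ C := by
    intro x hx h0
    rw [hv']
    exact hC.op3 _ (k3 _ (hx _) _ (hx _) _ (hx _) (by tauto)) (k3 _ (hx _) _ (hx _) _ (hx _) (by tauto))
      (k3 _ (hx _) _ (hx _) _ (hx _) (by tauto))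
  have kw : ∀ x : Fin 4 → α, (∀ i, x i ∈ D) → x 0 ∈ C → op w' x ∈ C := by
    intro x hx h0
    rw [hw']
    exact hC.op4 _ (k4 _ (hx _) _ (hx _) _ (hx _) _ (hx _) (by tauto))
      (k4 _ (hx _) _ (hx _) _ (hx _) _ (hx _) (by tauto))
      (k4 _ (hx _) _ (hx _) _ (hx _) _ (hx _) (by tauto))
      (k4 _ (hx _) _ (hx _) _ (hx _) _ (hx _) (by tauto))
  have hS : Sub A {p : α × α | (p.1 ∈ D ∧ p.2 ∈ D) ∧ (p.1 ∈ C ∨ p.2 ∈ C)} := by
    refine sub_of_linked (v := v') (w := w') hl' (fun x hx => ⟨⟨?_, ?_⟩, ?_⟩)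
      (fun x hx => ⟨⟨?_, ?_⟩, ?_⟩)
    · exact hD _ _ _ (fun i => (hx i).1.1)
    · exact hD _ _ _ (fun i => (hx i).1.2)
    · rcases (hx 0).2 with h0 | h0
      · exact Or.inl (kv _ (fun i => (hx i).1.1) h0)
      · exact Or.inr (kv _ (fun i => (hx i).1.2) h0)
    · exact hD _ _ _ (fun i => (hx i).1.1)
    · exact hD _ _ _ (fun i => (hx i).1.2)
    · rcases (hx 0).2 with h0 | h0
      · exact Or.inl (kw _ (fun i => (hx i).1.1) h0)
      · exact Or.inr (kw _ (fun i => (hx i).1.2) h0)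
  refine ⟨hC, hD, hle, fun a ha hn => ⟨_, hS, fun c hc => ⟨⟨⟨ha, hle hc⟩, Or.inr hc⟩,
    ⟨⟨hle hc, ha⟩, Or.inl hc⟩⟩, fun h => by rcases h.2 with h | h <;> exact hn h⟩,
    Fin 2, inferInstance, fun R hR hRD hw => ?_⟩
  obtain ⟨r0, hr0, h0⟩ := hw 0
  obtain ⟨r1, hr1, h1⟩ := hw 1
  refine ⟨op t ![r0, r1], hR.op2 t hr0 hr1, fun j => ?_⟩
  have e : op t ![r0, r1] j = op t ![r0 j, r1 j] := by
    rw [op_apply]; congr 1; funext i; fin_cases i <;> rfl
  rw [e]
  fin_cases j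
  · exact (h _ (h1 0 (by simp)) _ (hRD _ hr0 _)).2
  · exact (h _ (h0 1 (by simp)) _ (hRD _ hr1 _)).1

/-- If one argument position of the ternary operation is winning for `C`, then `C` is binary
absorbing. -/
theorem ba_of_win {v : A.Op 3} {w : A.Op 4} (hl : Linked (α := α) (op v) (op w)) {C D : Set α}
    (hle : C ⊆ D) (i : Fin 3)
    (h : ∀ x : Fin 3 → α, (∀ j, x j ∈ D) → x i ∈ C → op v x ∈ C) :
    BA (c3 v (A.proj 1) (A.proj 0) (A.proj 0)) C D := by
  intro c hc d hd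
  simp only [op_c3, op_proj, Matrix.cons_val_zero, Matrix.cons_val_one]
  have hcD := hle hc
  fin_cases i
  · refine ⟨?_, h _ (fun j => by fin_cases j <;> assumption) hc⟩
    rw [hl.v12]; exact h _ (fun j => by fin_cases j <;> assumption) hc
  · refine ⟨h _ (fun j => by fin_cases j <;> assumption) hc, ?_⟩
    rw [hl.v12]; exact h _ (fun j => by fin_cases j <;> assumption) hc
  · refine ⟨h _ (fun j => by fin_cases j <;> assumption) hc, ?_⟩
    rw [hl.v12, hl.v23]; exact h _ (fun j => by fin_cases j <;> assumption) hc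

theorem cen_of_cross [Finite X] {C D : Set α} (hC : Sub A C) (hD : Sub A D) (hle : C ⊆ D)
    (hS : Sub A {p : α × α | (p.1 ∈ D ∧ p.2 ∈ D) ∧ (p.1 ∈ C ∨ p.2 ∈ C)}) : Cen A C D := by
  obtain ⟨v, w, hl⟩ := exists_linked A
  by_cases hwin : ∃ i : Fin 3, ∀ x : Fin 3 → α, (∀ j, x j ∈ D) → x i ∈ C → op v x ∈ C
  · obtain ⟨i, hi⟩ := hwin
    exact cen_of_ba hC hD hle (ba_of_win hl.transfer hle i hi)
  · push Not at hwin
    have habs : ∀ (i : Fin 3) (y : Fin 3 → α), (∀ j, y j ∈ D) → (∀ j, j ≠ i → y j ∈ C) →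
        op v y ∈ C := by
      intro i y hy hyC
      obtain ⟨x, hx, hxi, hn⟩ := hwin i
      have := hS 3 v (fun j => (x j, y j)) (fun j => ⟨⟨hx j, hy j⟩, by
        by_cases hj : j = i
        · left; rw [hj]; exact hxi
        · right; exact hyC j hj⟩)
      rcases this.2 with h | h
      · exact absurd h hn
      · exact h
    refine ⟨hC, hD, hle, fun a ha hn => ⟨_, hS, fun c hc => ⟨⟨⟨ha, hle hc⟩, Or.inr hc⟩,
      ⟨⟨hle hc, ha⟩, Or.inl hc⟩⟩, fun h => by rcases h.2 with h | h <;> exact hn h⟩,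
      Fin 3, inferInstance, fun R hR hRD hw => ?_⟩
    choose r hr h0 using hw
    refine ⟨op v r, hR 3 v r hr, fun j => ?_⟩
    rw [op_apply]
    exact habs j _ (fun i => hRD _ (hr i) j) (fun i hi => h0 i j hi.symm)

end

end Pool.Agent.H218Z.BW
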