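import Pool.Agent.H218Z.BW.Basic

set_option autoImplicit false

namespace Pool.Agent.H218Z.BW

open Alg

variable {X : Type} {A : Clone X} {α β γ δ : Type}

/-- No `C`-essential relation on `D` with coordinates indexed by `J`. -/
def NoEss (A : Clone X) {α : Type} [Alg A α] (J : Type) (C D : Set α) : Prop :=
  ∀ R : Set (J → α), Sub A R → (∀ r ∈ R, ∀ j, r j ∈ D) →
    (∀ i, ∃ r ∈ R, ∀ j, j ≠ i → r j ∈ C) → ∃ r ∈ R, ∀ j, r j ∈ C

/-- Central subuniverses in the sense of Zhuk. -/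
structure Cen (A : Clone X) {α : Type} [Alg A α] (C D : Set α) : Prop where
  subC : Sub A C
  subD : Sub A D
  le : C ⊆ D
  z : ∀ a ∈ D, a ∉ C → ∃ S : Set (α × α), Sub A S ∧ (∀ c ∈ C, (a, c) ∈ S ∧ (c, a) ∈ S) ∧ (a, a) ∉ S
  abs : ∃ (J : Type) (_ : Finite J), NoEss A J C D

section
variable [Alg A α] [Alg A β] [Alg A γ]

theorem Cen.refl {D : Set α} (hD : Sub A D) : Cen A D D :=
  ⟨hD, hD, le_rfl, fun _ ha hn => absurd ha hn, Unit, inferInstance, fun _ _ hR hw => by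
    obtain ⟨r, hr, _⟩ := hw ()
    exact ⟨r, hr, hR r hr⟩⟩

theorem Cen.pre {f : β → α} (hf : Hom A f) {G : Set β} (hG : Sub A G) {C D : Set α}
    (h : Cen A C D) (hGD : ∀ g ∈ G, f g ∈ D) : Cen A {g | g ∈ G ∧ f g ∈ C} G := by
  refine ⟨Sub.and hG (Sub.pre hf h.subC), hG, fun g hg => hg.1, fun a ha hn => ?_, ?_⟩
  · obtain ⟨S, hS, h1, h2⟩ := h.z (f a) (hGD a ha) (fun hc => hn ⟨ha, hc⟩)
    exact ⟨{p | (f p.1, f p.2) ∈ S}, Sub.pre (by fun_prop) hS, fun c hc => h1 (f c) hc.2, h2⟩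
  · obtain ⟨J, hJ, hN⟩ := h.abs
    refine ⟨J, hJ, fun R hR hRG hw => ?_⟩
    obtain ⟨_, ⟨r, hr, rfl⟩, h3⟩ := hN ((fun (r : J → β) j => f (r j)) '' R)
      (Sub.image (by fun_prop) hR) (by rintro _ ⟨r, hr, rfl⟩ j; exact hGD _ (hRG r hr j))
      (fun i => by
        obtain ⟨r, hr, h4⟩ := hw i
        exact ⟨_, ⟨r, hr, rfl⟩, fun j hj => (h4 j hj).2⟩)
    exact ⟨r, hr, fun j => ⟨hRG r hr j, h3 j⟩⟩

/-- Restriction to an intermediate subuniverse. -/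
theorem Cen.restrict {C D G : Set α} (h : Cen A C D) (hG : Sub A G) (hGD : G ⊆ D) :
    Cen A (G ∩ C) G := Cen.pre (f := fun x => x) (by fun_prop) hG h hGD

theorem Cen.of_le {C D G : Set α} (h : Cen A C D) (hG : Sub A G) (hGD : G ⊆ D) (hCG : C ⊆ G) :
    Cen A C G := by
  have := h.restrict hG hGD
  rwa [Set.inter_eq_right.mpr hCG] at this

variable [MinBW A]

theorem Cen.zstar [Finite α] {C D B : Set α} (h : Cen A C D) (hB : Sub A B) (hBD : B ⊆ D)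
    (hne : B.Nonempty) (hdis : ∀ b ∈ B, b ∉ C) :
    ∃ b ∈ B, ∃ S : Set (α × α), Sub A S ∧ (∀ p ∈ S, p.1 ∈ D ∧ p.2 ∈ D) ∧
      (∀ c ∈ C, (b, c) ∈ S ∧ (c, b) ∈ S) ∧ ∀ p ∈ S, ¬ (p.1 ∈ B ∧ p.2 ∈ B) := by
  obtain ⟨b, hb, hmin⟩ := Set.exists_min_image B (fun b => (Sg A (insert b C)).ncard)
    (Set.toFinite B) hne
  let S : Set (α × α) := Sg A {p | (p.1 = b ∧ p.2 ∈ C) ∨ (p.1 ∈ C ∧ p.2 = b)}
  have hgen : ∀ c ∈ C, (b, c) ∈ S ∧ (c, b) ∈ S := fun c hc =>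
    ⟨subset_sg _ (Or.inl ⟨rfl, hc⟩), subset_sg _ (Or.inr ⟨hc, rfl⟩)⟩
  have hprod : ∀ T : Set α, Sub A T → b ∈ T → C ⊆ T → ∀ p ∈ S, p.1 ∈ T ∧ p.2 ∈ T := by
    intro T hT hbT hCT p hp
    refine sg_le (hT.prod hT) ?_ hp
    rintro ⟨x, y⟩ (⟨rfl, h2⟩ | ⟨h1, rfl⟩)
    · exact ⟨hbT, hCT h2⟩
    · exact ⟨hCT h1, hbT⟩
  have hback : ∀ b' ∈ B, b' ∈ Sg A (insert b C) → ∀ T : Set α, Sub A T → b' ∈ T → C ⊆ T → b ∈ T := by
    intro b' hb' hmem T hT hb'T hCT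
    have h1 : Sg A (insert b' C) ⊆ Sg A (insert b C) :=
      sg_le (Sub.sg _) (Set.insert_subset hmem (fun c hc => subset_sg _ (Or.inr hc)))
    have h2 := Set.eq_of_subset_of_ncard_le h1 (hmin b' hb') (Set.toFinite _)
    have h3 : b ∈ Sg A (insert b' C) := by rw [h2]; exact subset_sg _ (Or.inl rfl)
    exact sg_le hT (Set.insert_subset hb'T hCT) h3
  have hS0 := hprod (Sg A (insert b C)) (Sub.sg _) (subset_sg _ (Or.inl rfl))
    (fun c hc => subset_sg _ (Or.inr hc))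
  refine ⟨b, hb, S, Sub.sg _, hprod D h.subD (hBD hb) h.le, hgen, ?_⟩
  rintro ⟨b1, b2⟩ hp ⟨h1, h2⟩
  have hU : b ∈ {x | ∃ y, y ∈ B ∧ (x, y) ∈ S} := by
    refine hback b1 h1 (hS0 _ hp).1 _ ?_ ⟨b2, h2, hp⟩ (fun c hc => ⟨b, hb, (hgen c hc).2⟩)
    exact Sub.ex (Sub.and (Sub.pre (f := fun z : α × α => z.2) (by fun_prop) hB)
      (Sub.pre (f := fun z : α × α => (z.1, z.2)) (by fun_prop) (Sub.sg _)))
  obtain ⟨b3, h3, hp3⟩ := hU
  have hV : b ∈ {y | (b, y) ∈ S} :=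
    hback b3 h3 (hS0 _ hp3).2 _ (Sub.pre (by fun_prop) (Sub.sg _)) hp3 (fun c hc => (hgen c hc).1)
  obtain ⟨S0, hS0s, hS01, hS02⟩ := h.z b (hBD hb) (hdis b hb)
  refine hS02 (sg_le hS0s ?_ hV)
  rintro ⟨x, y⟩ (⟨rfl, h2⟩ | ⟨h1, rfl⟩)
  · exact (hS01 _ h2).1
  · exact (hS01 _ h1).2

theorem Cen.image [Finite α] {f : α → β} (hf : Hom A f) {C D : Set α} (h : Cen A C D) :
    Cen A (f '' C) (f '' D) := by
  refine ⟨h.subC.image hf, h.subD.image hf, Set.image_mono h.le, ?_, ?_⟩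
  · rintro _ ⟨a, ha, rfl⟩ hn
    obtain ⟨b, hb, S, hS, hSD, h1, h2⟩ := h.zstar (B := {x | x ∈ D ∧ f x = f a})
      (Sub.and h.subD (Sub.eq hf (by fun_prop))) (fun x hx => hx.1) ⟨a, ha, rfl⟩
      (fun b hb hc => hn ⟨b, hc, hb.2⟩)
    refine ⟨(fun p : α × α => (f p.1, f p.2)) '' S, hS.image (by fun_prop), ?_, ?_⟩
    · rintro _ ⟨c, hc, rfl⟩
      exact ⟨⟨(b, c), (h1 c hc).1, by simp [hb.2]⟩, ⟨(c, b), (h1 c hc).2, by simp [hb.2]⟩⟩
    · rintro ⟨p, hp, he⟩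
      simp only [Prod.mk.injEq] at he
      exact h2 p hp ⟨⟨(hSD p hp).1, he.1⟩, ⟨(hSD p hp).2, he.2⟩⟩
  · obtain ⟨J, hJ, hN⟩ := h.abs
    refine ⟨J, hJ, fun R hR hRD hw => ?_⟩
    obtain ⟨r, hr, h3⟩ := hN {r | (∀ j, r j ∈ D) ∧ (fun j => f (r j)) ∈ R}
      (Sub.and (Sub.all fun j => Sub.pre (by fun_prop) h.subD) (Sub.pre (by fun_prop) hR))
      (fun r hr => hr.1) (fun i => by
        obtain ⟨r, hr, h4⟩ := hw i
        have : ∀ j, ∃ x, x ∈ D ∧ f x = r j ∧ (j ≠ i → x ∈ C) := by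
          intro j
          by_cases hj : j = i
          · obtain ⟨x, hx, he⟩ := hRD r hr j
            exact ⟨x, hx, he, fun h => absurd hj h⟩
          · obtain ⟨x, hx, he⟩ := h4 j hj
            exact ⟨x, h.le hx, he, fun _ => hx⟩
        choose x hx1 hx2 hx3 using this
        refine ⟨x, ⟨hx1, ?_⟩, hx3⟩
        rwa [show (fun j => f (x j)) = r from funext hx2])
    exact ⟨_, hr.2, fun j => ⟨r j, h3 j, rfl⟩⟩

/-- An essential relation for a family of subsets. -/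
def Ess (A : Clone X) {α : Type} [Alg A α] (G : Set α) {I : Type} (C : I → Set α) (n : ℕ) : Prop :=
  ∃ (J : Type) (_ : Finite J) (l : J → I) (R : Set (J → α)), Nat.card J = n ∧ Sub A R ∧
    (∀ r ∈ R, ∀ j, r j ∈ G) ∧ (∀ i, ∃ r ∈ R, ∀ j, j ≠ i → r j ∈ C (l j)) ∧
    ¬ ∃ r ∈ R, ∀ j, r j ∈ C (l j)

theorem Ess.double [Finite α] {G : Set α} {I : Type} {C : I → Set α} (hC : ∀ i, Cen A (C i) G)
    {n : ℕ} (hn : 1 ≤ n) (h : Ess A G C n) : Ess A G C (2 * (n - 1)) := by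
  classical
  obtain ⟨J, hJ, l, R, hcard, hR, hRG, hw, hno⟩ := h
  obtain ⟨j0⟩ : Nonempty J := (Nat.card_pos_iff.mp (by omega)).1
  obtain ⟨b, ⟨rb, hrb, hrb1, hrb2⟩, S, hS, _, h1, h2⟩ := (hC (l j0)).zstar
    (B := {x | ∃ r, r ∈ R ∧ (∀ j, j ≠ j0 → r j ∈ C (l j)) ∧ r j0 = x})
    (Sub.ex (Sub.and (Sub.pre (f := fun z : α × (J → α) => z.2) (by fun_prop) hR)
      (Sub.and (Sub.all fun j => Sub.all fun _ =>
        Sub.pre (f := fun z : α × (J → α) => z.2 j) (by fun_prop) (hC (l j)).subC)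
        (Sub.eq (by fun_prop) (by fun_prop)))))
    (by rintro _ ⟨r, hr, _, rfl⟩; exact hRG r hr j0)
    (by obtain ⟨r, hr, h3⟩ := hw j0; exact ⟨_, r, hr, h3, rfl⟩)
    (by
      rintro _ ⟨r, hr, h3, rfl⟩ hc
      refine hno ⟨r, hr, fun j => ?_⟩
      by_cases hj : j = j0
      · rw [hj]; exact hc
      · exact h3 j hj)
  refine ⟨{j // j ≠ j0} ⊕ {j // j ≠ j0}, inferInstance,
    Sum.elim (fun j => l j.1) (fun j => l j.1),
    {r | ∃ r1, ∃ r2, r1 ∈ R ∧ r2 ∈ R ∧ (r1 j0, r2 j0) ∈ S ∧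
      (∀ j : {j // j ≠ j0}, r (Sum.inl j) = r1 j.1) ∧
      (∀ j : {j // j ≠ j0}, r (Sum.inr j) = r2 j.1)}, ?_, ?_, ?_, ?_, ?_⟩
  · have := Fintype.ofFinite J
    rw [Nat.card_sum, Nat.card_eq_fintype_card, Fintype.card_subtype_compl,
      Fintype.card_subtype_eq, ← Nat.card_eq_fintype_card, hcard]
    omega
  · refine Sub.ex (Sub.ex (Sub.and (Sub.pre (by fun_prop) hR) (Sub.and (Sub.pre (by fun_prop) hR)
      (Sub.and (Sub.pre (by fun_prop) hS) (Sub.and (Sub.all fun j => Sub.eq (by fun_prop) (by fun_prop))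
      (Sub.all fun j => Sub.eq (by fun_prop) (by fun_prop)))))))
  · rintro r ⟨r1, r2, hr1, hr2, _, e1, e2⟩ (j | j)
    · rw [e1]; exact hRG _ hr1 _
    · rw [e2]; exact hRG _ hr2 _
  · rintro (i | i)
    · obtain ⟨r, hr, h3⟩ := hw i.1
      refine ⟨Sum.elim (fun j => r j.1) (fun j => rb j.1), ⟨r, rb, hr, hrb, ?_, fun _ => rfl,
        fun _ => rfl⟩, ?_⟩
      · rw [hrb2]; exact (h1 _ (h3 j0 i.2.symm)).2
      · rintro (j | j) hj
        · exact h3 j.1 (fun e => hj (by rw [Subtype.ext e]))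
        · exact hrb1 j.1 j.2
    · obtain ⟨r, hr, h3⟩ := hw i.1
      refine ⟨Sum.elim (fun j => rb j.1) (fun j => r j.1), ⟨rb, r, hrb, hr, ?_, fun _ => rfl,
        fun _ => rfl⟩, ?_⟩
      · rw [hrb2]; exact (h1 _ (h3 j0 i.2.symm)).1
      · rintro (j | j) hj
        · exact hrb1 j.1 j.2
        · exact h3 j.1 (fun e => hj (by rw [Subtype.ext e]))
  · rintro ⟨r, ⟨r1, r2, hr1, hr2, hs, e1, e2⟩, hall⟩
    refine h2 _ hs ⟨⟨r1, hr1, fun j hj => ?_, rfl⟩, ⟨r2, hr2, fun j hj => ?_, rfl⟩⟩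
    · have := hall (Sum.inl ⟨j, hj⟩); rwa [e1] at this
    · have := hall (Sum.inr ⟨j, hj⟩); rwa [e2] at this

theorem not_ess [Finite α] {G : Set α} {I : Type} [Finite I] {C : I → Set α}
    (hC : ∀ i, Cen A (C i) G) {n : ℕ} (hn : 3 ≤ n) : ¬ Ess A G C n := by
  classical
  intro h
  have big : ∀ N : ℕ, ∃ m, N + 3 ≤ m ∧ Ess A G C m := by
    intro N
    induction N with
    | zero => exact ⟨n, by omega, h⟩
    | succ N ih =>
      obtain ⟨m, hm, he⟩ := ih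
      exact ⟨2 * (m - 1), by omega, he.double hC (by omega)⟩
  choose K hK hN using fun i => (hC i).abs
  have := Fintype.ofFinite I
  let k : ℕ := Finset.univ.sup (fun i => Nat.card (K i))
  obtain ⟨m, hm, J, hJ, l, R, hcard, hR, hRG, hw, hno⟩ := big (Fintype.card I * k)
  have := Fintype.ofFinite J
  obtain ⟨i, hi⟩ := Fintype.exists_lt_card_fiber_of_mul_lt_card l (n := k)
    (by rw [← Nat.card_eq_fintype_card (α := J), hcard]; omega)
  have := hK i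
  have := Fintype.ofFinite (K i)
  obtain ⟨e⟩ : Nonempty (K i ↪ {j // l j = i}) := by
    apply Function.Embedding.nonempty_of_card_le
    rw [Fintype.card_subtype, ← Nat.card_eq_fintype_card]
    exact le_trans (Finset.le_sup (f := fun i => Nat.card (K i)) (Finset.mem_univ i)) hi.le
  obtain ⟨_, ⟨r, ⟨hr, hr1⟩, rfl⟩, hr2⟩ := hN i
    ((fun (r : J → α) (x : K i) => r (e x).1) ''
      {r | r ∈ R ∧ ∀ j, (∀ x, (e x).1 ≠ j) → r j ∈ C (l j)})
    (Sub.image (by fun_prop) (Sub.and hR (Sub.all fun j => Sub.all fun _ =>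
      Sub.pre (by fun_prop) (hC (l j)).subC)))
    (by rintro _ ⟨r, hr, rfl⟩ x; exact hRG r hr.1 _)
    (fun x => by
      obtain ⟨r, hr, h3⟩ := hw (e x).1
      refine ⟨_, ⟨r, ⟨hr, fun j hj => h3 j (hj x).symm⟩, rfl⟩, fun y hy => ?_⟩
      have := h3 (e y).1 (fun h => hy (e.injective (Subtype.ext h)))
      rwa [(e y).2] at this)
  refine hno ⟨r, hr, fun j => ?_⟩
  by_cases hj : ∃ x, (e x).1 = j
  · obtain ⟨x, rfl⟩ := hj
    rw [(e x).2]; exact hr2 x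
  · exact hr1 j (fun x hx => hj ⟨x, hx⟩)

/-- Central subuniverses have the 2-Helly property. -/
theorem helly [Finite α] {G : Set α} {I : Type} [Finite I] {C : I → Set α}
    (hC : ∀ i, Cen A (C i) G) (hG : Sub A G) (hne : G.Nonempty)
    (hp : ∀ i j, ∃ g, g ∈ C i ∧ g ∈ C j) : ∃ g ∈ G, ∀ i, g ∈ C i := by
  classical
  have key : ∀ (n : ℕ) (s : Finset I), s.card = n → ∃ g ∈ G, ∀ i ∈ s, g ∈ C i := by
    intro n
    induction n using Nat.strong_induction_on with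
    | _ n ih =>
      intro s hs
      by_cases h2 : n ≤ 2
      · rcases s.eq_empty_or_nonempty with rfl | ⟨i, hi⟩
        · obtain ⟨g, hg⟩ := hne; exact ⟨g, hg, by simp⟩
        · rcases (s.erase i).eq_empty_or_nonempty with he | ⟨j, hj⟩
          · obtain ⟨g, hg, _⟩ := hp i i
            refine ⟨g, (hC i).le hg, fun x hx => ?_⟩
            by_cases hxi : x = i
            · rw [hxi]; exact hg
            · have : x ∈ s.erase i := Finset.mem_erase.mpr ⟨hxi, hx⟩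
              rw [he] at this; simp at this
          · obtain ⟨g, hg, hg'⟩ := hp i j
            refine ⟨g, (hC i).le hg, fun x hx => ?_⟩
            by_cases hxi : x = i
            · rw [hxi]; exact hg
            · have h1 : (s.erase i).card ≤ 1 := by rw [Finset.card_erase_of_mem hi]; omega
              rw [Finset.card_le_one.mp h1 x (Finset.mem_erase.mpr ⟨hxi, hx⟩) j hj]
              exact hg'
      · by_contra hno
        refine not_ess hC (n := n) (by omega) ⟨s, inferInstance, fun j => j.1,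
          {r | ∃ g, g ∈ G ∧ ∀ j, r j = g}, by simp [hs], ?_, ?_, ?_, ?_⟩
        · exact Sub.ex (Sub.and (Sub.pre (by fun_prop) hG)
            (Sub.all fun j => Sub.eq (by fun_prop) (by fun_prop)))
        · rintro r ⟨g, hg, e⟩ j; rw [e]; exact hg
        · intro i
          obtain ⟨g, hg, h3⟩ := ih (n - 1) (by omega) (s.erase i.1)
            (by rw [Finset.card_erase_of_mem i.2, hs])
          exact ⟨fun _ => g, ⟨g, hg, fun _ => rfl⟩, fun j hj =>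
            h3 j.1 (Finset.mem_erase.mpr ⟨fun e => hj (Subtype.ext e), j.2⟩)⟩
        · rintro ⟨r, ⟨g, hg, e⟩, h3⟩
          exact hno ⟨g, hg, fun i hi => by have := h3 ⟨i, hi⟩; rwa [e] at this⟩
  have := Fintype.ofFinite I
  obtain ⟨g, hg, h⟩ := key _ Finset.univ rfl
  exact ⟨g, hg, fun i => h i (Finset.mem_univ i)⟩

theorem third {J : Type} [Fintype J] (hJ : 3 ≤ Fintype.card J) (i j : J) :
    ∃ k, k ≠ i ∧ k ≠ j := by
  classical
  by_contra h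
  push Not at h
  have : (Finset.univ : Finset J) ⊆ {i, j} := by
    intro k _
    by_cases hk : k = i
    · simp [hk]
    · simp [h k hk]
  have h1 := Finset.card_le_card this
  have h2 : ({i, j} : Finset J).card ≤ 2 := Finset.card_le_two
  rw [Finset.card_univ] at h1
  omega

theorem Cen.iInter [Finite α] {D : Set α} (hD : Sub A D) {I : Type} [Finite I] {C : I → Set α}
    (hC : ∀ i, Cen A (C i) D) : Cen A {a | a ∈ D ∧ ∀ i, a ∈ C i} D := by
  refine ⟨Sub.and hD (Sub.all fun i => (hC i).subC), hD, fun a ha => ha.1, fun a ha hn => ?_,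
    Fin 3, inferInstance, fun R hR hRD hw => ?_⟩
  · obtain ⟨i, hi⟩ : ∃ i, a ∉ C i := by
      by_contra h; push Not at h; exact hn ⟨ha, h⟩
    obtain ⟨S, hS, h1, h2⟩ := (hC i).z a ha hi
    exact ⟨S, hS, fun c hc => h1 c (hc.2 i), h2⟩
  · obtain ⟨g, hg, h⟩ := helly (A := A) (G := R) (I := Fin 3 × I)
      (C := fun p => {r | r ∈ R ∧ r p.1 ∈ C p.2})
      (fun p => Cen.pre (by fun_prop) hR (hC p.2) (fun r hr => hRD r hr p.1)) hR
      (by obtain ⟨r, hr, _⟩ := hw 0; exact ⟨r, hr⟩)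
      (fun p q => by
        obtain ⟨k, hk1, hk2⟩ := third (J := Fin 3) (by simp) p.1 q.1
        obtain ⟨r, hr, h3⟩ := hw k
        exact ⟨r, ⟨hr, (h3 _ hk1.symm).2 _⟩, ⟨hr, (h3 _ hk2.symm).2 _⟩⟩)
    exact ⟨g, hg, fun j => ⟨hRD g hg j, fun i => (h (j, i)).2⟩⟩

theorem Cen.inter [Finite α] {C C' D : Set α} (h : Cen A C D) (h' : Cen A C' D) :
    Cen A (C ∩ C') D := by
  have := Cen.iInter h.subD (I := Bool) (C := fun b => cond b C C')
    (fun b => by cases b; exacts [h', h])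
  convert this using 1
  ext a
  constructor
  · rintro ⟨h1, h2⟩
    exact ⟨h.le h1, fun b => by cases b; exacts [h2, h1]⟩
  · rintro ⟨_, h2⟩
    exact ⟨h2 true, h2 false⟩

theorem Cen.trans [Finite α] {C D E : Set α} (h : Cen A C D) (h' : Cen A D E) : Cen A C E := by
  refine ⟨h.subC, h'.subD, h.le.trans h'.le, fun a ha hn => ?_,
    Fin 3 × Fin 3, inferInstance, fun R hR hRE hw => ?_⟩
  · by_cases haD : a ∈ D
    · exact h.z a haD hn
    · obtain ⟨S, hS, h1, h2⟩ := h'.z a ha haD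
      exact ⟨S, hS, fun c hc => h1 c (h.le hc), h2⟩
  · have step : ∀ i : Fin 3, ∃ r ∈ R, (∀ j, r j ∈ D) ∧ ∀ j, j.1 ≠ i → r j ∈ C := by
      intro i
      have hs : Sub A {r | r ∈ R ∧ ∀ j : Fin 3 × Fin 3, j.1 ≠ i → r j ∈ C} :=
        Sub.and hR (Sub.all fun j => Sub.all fun _ => Sub.pre (by fun_prop) h.subC)
      obtain ⟨g, hg, h3⟩ := helly (A := A) (I := Fin 3)
        (G := {r | r ∈ R ∧ ∀ j : Fin 3 × Fin 3, j.1 ≠ i → r j ∈ C})
        (C := fun k => {r | (r ∈ R ∧ ∀ j : Fin 3 × Fin 3, j.1 ≠ i → r j ∈ C) ∧ r (i, k) ∈ D})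
        (fun k => Cen.pre (by fun_prop) hs h' (fun r hr => hRE r hr.1 _)) hs
        (by
          obtain ⟨r, hr, h4⟩ := hw (i, 0)
          exact ⟨r, hr, fun j hj => h4 j (fun e => hj (by rw [e]))⟩)
        (fun p q => by
          obtain ⟨k, hk1, hk2⟩ := third (J := Fin 3) (by simp) p q
          obtain ⟨r, hr, h4⟩ := hw (i, k)
          have h5 : ∀ j : Fin 3 × Fin 3, j.1 ≠ i → r j ∈ C :=
            fun j hj => h4 j (fun e => hj (by rw [e]))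
          exact ⟨r, ⟨⟨hr, h5⟩, h.le (h4 _ (fun e => hk1 (Prod.mk.inj e).2.symm))⟩,
            ⟨⟨hr, h5⟩, h.le (h4 _ (fun e => hk2 (Prod.mk.inj e).2.symm))⟩⟩)
      refine ⟨g, hg.1, fun j => ?_, hg.2⟩
      by_cases hj : j.1 = i
      · have := (h3 j.2).2; rwa [← hj] at this
      · exact h.le (hg.2 j hj)
    have hs : Sub A {r | r ∈ R ∧ ∀ j : Fin 3 × Fin 3, r j ∈ D} :=
      Sub.and hR (Sub.all fun j => Sub.pre (by fun_prop) h.subD)
    obtain ⟨g, hg, h3⟩ := helly (A := A) (I := Fin 3 × Fin 3)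
      (G := {r | r ∈ R ∧ ∀ j : Fin 3 × Fin 3, r j ∈ D})
      (C := fun k => {r | (r ∈ R ∧ ∀ j : Fin 3 × Fin 3, r j ∈ D) ∧ r k ∈ C})
      (fun k => Cen.pre (by fun_prop) hs h (fun r hr => hr.2 _)) hs
      (by obtain ⟨r, hr, h4, _⟩ := step 0; exact ⟨r, hr, h4⟩)
      (fun p q => by
        obtain ⟨k, hk1, hk2⟩ := third (J := Fin 3) (by simp) p.1 q.1
        obtain ⟨r, hr, h4, h5⟩ := step k
        exact ⟨r, ⟨⟨hr, h4⟩, h5 _ hk1.symm⟩, ⟨⟨hr, h4⟩, h5 _ hk2.symm⟩⟩)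
    exact ⟨g, hg.1, fun j => (h3 j).2⟩

end

end Pool.Agent.H218Z.BW
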