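import Pool.Agent.H218Z.BW.MixedC

set_option autoImplicit false
set_option linter.unusedSectionVars false

namespace Pool.Agent.H218Z.BW

open Alg

variable {X : Type} {𝒜 : Bool → Clone X} {N : ℕ}

def ar : Bool → ℕ
  | true => 0
  | false => 1

abbrev Gad (N : ℕ) : Type := Σ b : Bool, {f : Fin (ar b + 3) → Fin N // StrictMono f}

abbrev Var (X : Type) (N : ℕ) : Type :=
  (Fin N × X × X) ⊕ (Σ γ : Gad N, (Fin (ar γ.1 + 3) → X))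

def InSc (γ : Gad N) (z : Var X N) (a : Fin (ar γ.1 + 3) → X) : Prop :=
  z = Sum.inr ⟨γ, a⟩ ∨
    ∃ j x y, z = Sum.inl (γ.2.1 j, x, y) ∧ a = Function.update (fun _ => x) j y

def gens : Var X N → Set X
  | .inl (_, x, y) => {x, y}
  | .inr ⟨_, a⟩ => Set.range a

def Dom (𝒜 : Bool → Clone X) (z : Var X N) : Set X := Sg (𝒜 true) (gens z)

def Rel (𝒜 : Bool → Clone X) (κ : Gad N × Bool) : Set (Var X N → X) :=
  {σ | (∀ z, σ z ∈ Dom 𝒜 z) ∧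
    ∃ t : (𝒜 κ.2).Op (ar κ.1.1 + 3), ∀ z a, InSc κ.1 z a → σ z = t.1 a}

def Good (i0 : Fin N) : Var X N → Set X → Prop
  | .inl (l, x, y), S => S = {if l = i0 then y else x}
  | .inr ⟨γ, a⟩, S => (∃ j, γ.2.1 j = i0 ∧ S = {a j}) ∨
      ((∀ j, γ.2.1 j ≠ i0) ∧ ∃ j1, S = a '' {j | j ≠ j1})

def Wn {m : ℕ} (C : Set X) (a : Fin (m + 3) → X) : Prop :=
  (a 0 ∈ C ∧ ∃ j, j ≠ 0 ∧ a j ∈ C) ∨ ∀ j, j ≠ 0 → a j ∈ C

def Win (C D0 : Set X) : Var X N → Prop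
  | .inl _ => False
  | .inr ⟨_, a⟩ => (∀ j, a j ∈ D0) ∧ Wn C a

theorem third' {m : ℕ} (i j : Fin (m + 3)) : ∃ k, k ≠ i ∧ k ≠ j := third (by simp) i j

theorem InSc.unique {γ : Gad N} {z : Var X N} {a a' : Fin (ar γ.1 + 3) → X} (h : InSc γ z a)
    (h' : InSc γ z a') : a = a' := by
  rcases h with rfl | ⟨j, x, y, rfl, rfl⟩ <;> rcases h' with h' | ⟨j', x', y', h', rfl⟩
  · simpa using h'
  · simp at h'
  · simp at h'
  · simp only [Sum.inl.injEq, Prod.mk.injEq] at h'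
    obtain ⟨h1, rfl, rfl⟩ := h'
    rw [γ.2.2.injective h1]

theorem InSc.gens_eq {γ : Gad N} {z : Var X N} {a : Fin (ar γ.1 + 3) → X} (h : InSc γ z a) :
    gens z = Set.range a := by
  rcases h with rfl | ⟨j, x, y, rfl, rfl⟩
  · rfl
  · ext c
    simp only [gens, Set.mem_insert_iff, Set.mem_singleton_iff, Set.mem_range]
    constructor
    · rintro (rfl | rfl)
      · obtain ⟨k, hk, _⟩ := third' j j
        exact ⟨k, by rw [Function.update_of_ne hk]⟩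
      · exact ⟨j, by simp⟩
    · rintro ⟨k, rfl⟩
      by_cases hk : k = j
      · right; rw [hk]; simp
      · left; rw [Function.update_of_ne hk]

theorem gens_ne (z : Var X N) : (gens z).Nonempty := by
  rcases z with ⟨l, x, y⟩ | ⟨γ, a⟩
  · exact ⟨x, Or.inl rfl⟩
  · exact ⟨a 0, 0, rfl⟩

theorem good_ex (i0 : Fin N) (z : Var X N) : ∃ S, Good i0 z S := by
  rcases z with ⟨l, x, y⟩ | ⟨γ, a⟩
  · exact ⟨_, rfl⟩
  · by_cases h : ∃ j, γ.2.1 j = i0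
    · obtain ⟨j, hj⟩ := h; exact ⟨_, Or.inl ⟨j, hj, rfl⟩⟩
    · push Not at h; exact ⟨_, Or.inr ⟨h, 0, rfl⟩⟩

theorem Good.ne {i0 : Fin N} {z : Var X N} {S : Set X} (h : Good i0 z S) : S.Nonempty := by
  rcases z with ⟨l, x, y⟩ | ⟨γ, a⟩
  · rw [show S = _ from h]; exact Set.singleton_nonempty _
  · rcases h with ⟨j, _, rfl⟩ | ⟨_, j1, rfl⟩
    · exact Set.singleton_nonempty _
    · obtain ⟨k, hk, _⟩ := third' j1 j1
      exact ⟨_, k, hk, rfl⟩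

theorem Good.sub {i0 : Fin N} {z : Var X N} {S : Set X} (h : Good i0 z S) : S ⊆ gens z := by
  rcases z with ⟨l, x, y⟩ | ⟨γ, a⟩
  · rw [show S = _ from h]
    rintro _ rfl
    split_ifs
    · exact Or.inr rfl
    · exact Or.inl rfl
  · rcases h with ⟨j, _, rfl⟩ | ⟨_, j1, rfl⟩
    · rintro _ rfl; exact ⟨j, rfl⟩
    · rintro _ ⟨k, _, rfl⟩; exact ⟨k, rfl⟩

theorem good_in {i0 : Fin N} {γ : Gad N} {j0 : Fin (ar γ.1 + 3)} (h0 : γ.2.1 j0 = i0)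
    {z : Var X N} {a : Fin (ar γ.1 + 3) → X} (h : InSc γ z a) (S : Set X) :
    Good i0 z S ↔ S = {a j0} := by
  rcases h with rfl | ⟨j, x, y, rfl, rfl⟩
  · constructor
    · rintro (⟨j, hj, rfl⟩ | ⟨h1, _⟩)
      · rw [γ.2.2.injective (hj.trans h0.symm)]
      · exact absurd h0 (h1 j0)
    · rintro rfl; exact Or.inl ⟨j0, h0, rfl⟩
  · show S = _ ↔ _
    by_cases hj : j0 = j
    · subst hj; simp [h0]
    · rw [if_neg (fun e => hj (γ.2.2.injective (h0.trans e.symm))), Function.update_of_ne hj]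

theorem good_out1 {i0 : Fin N} {γ : Gad N} (h0 : ∀ j, γ.2.1 j ≠ i0) {z : Var X N}
    {a : Fin (ar γ.1 + 3) → X} (h : InSc γ z a) {S : Set X} (hS : Good i0 z S) :
    ∃ j1, ∀ j, j ≠ j1 → a j ∈ S := by
  rcases h with rfl | ⟨j, x, y, rfl, rfl⟩
  · rcases hS with ⟨j, hj, _⟩ | ⟨_, j1, rfl⟩
    · exact absurd hj (h0 j)
    · exact ⟨j1, fun j hj => ⟨j, hj, rfl⟩⟩
  · refine ⟨j, fun k hk => ?_⟩
    rw [show S = _ from hS, if_neg (h0 j), Function.update_of_ne hk]; rfl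

theorem good_out2 {i0 : Fin N} {γ : Gad N} (h0 : ∀ j, γ.2.1 j ≠ i0) {z : Var X N}
    {a : Fin (ar γ.1 + 3) → X} (h : InSc γ z a) (j1 : Fin (ar γ.1 + 3)) :
    ∃ S, Good i0 z S ∧ ∀ b ∈ S, ∃ j, j ≠ j1 ∧ b = a j := by
  rcases h with rfl | ⟨j, x, y, rfl, rfl⟩
  · exact ⟨_, Or.inr ⟨h0, j1, rfl⟩, fun b ⟨j, hj, e⟩ => ⟨j, hj, e.symm⟩⟩
  · refine ⟨_, rfl, fun b hb => ?_⟩
    obtain ⟨k, hk1, hk2⟩ := third' j1 j
    rw [if_neg (h0 j)] at hb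
    exact ⟨k, hk1, by rw [Function.update_of_ne hk2]; exact hb⟩

theorem Wn.two {m : ℕ} {C : Set X} {a : Fin (m + 3) → X} (h : Wn C a) (j1 : Fin (m + 3)) :
    ∃ j, j ≠ j1 ∧ a j ∈ C := by
  rcases h with ⟨h0, j, hj, h1⟩ | h
  · by_cases e : j1 = 0
    · exact ⟨j, by rw [e]; exact hj, h1⟩
    · exact ⟨0, Ne.symm e, h0⟩
  · obtain ⟨k, hk1, hk2⟩ := third' j1 0
    exact ⟨k, hk1, h k hk2⟩

theorem win_choose {C : Set X} {γ γ' : Gad N} {a : Fin (ar γ.1 + 3) → X}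
    {a' : Fin (ar γ'.1 + 3) → X} (h : Wn C a) (h' : Wn C a') :
    (∃ j, a j ∈ C ∧ ∀ j', γ'.2.1 j' = γ.2.1 j → a' j' ∈ C) ∨
    (∃ j', a' j' ∈ C ∧ ∀ j, γ.2.1 j = γ'.2.1 j' → a j ∈ C) := by
  have key : ∀ {γ γ' : Gad N} {a : Fin (ar γ.1 + 3) → X} {a' : Fin (ar γ'.1 + 3) → X},
      Wn C a → (∀ j, j ≠ 0 → a' j ∈ C) →
      ∃ j, a j ∈ C ∧ ∀ j', γ'.2.1 j' = γ.2.1 j → a' j' ∈ C := by
    intro γ γ' a a' h h'
    by_cases e : ∃ j1, γ.2.1 j1 = γ'.2.1 0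
    · obtain ⟨j1, e⟩ := e
      obtain ⟨j, hj, hC⟩ := h.two j1
      refine ⟨j, hC, fun j' e' => h' j' ?_⟩
      rintro rfl
      exact hj (γ.2.2.injective (e'.symm.trans e.symm))
    · obtain ⟨j, _, hC⟩ := h.two 0
      refine ⟨j, hC, fun j' e' => h' j' ?_⟩
      rintro rfl
      exact e ⟨j, e'.symm⟩
  rcases h' with ⟨h0', k'⟩ | h'
  · rcases h with ⟨h0, k⟩ | h
    · rcases le_total (γ.2.1 0) (γ'.2.1 0) with hle | hle
      · refine Or.inl ⟨0, h0, fun j' e => ?_⟩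
        have : j' ≤ 0 := γ'.2.2.le_iff_le.mp (by rw [e]; exact hle)
        rw [le_antisymm this (Fin.zero_le _)]; exact h0'
      · refine Or.inr ⟨0, h0', fun j e => ?_⟩
        have : j ≤ 0 := γ.2.2.le_iff_le.mp (by rw [e]; exact hle)
        rw [le_antisymm this (Fin.zero_le _)]; exact h0
    · exact Or.inr (key (Or.inl ⟨h0', k'⟩) h)
  · exact Or.inl (key h h')

variable [∀ b, MinBW (𝒜 b)] [Finite X]

theorem sub_dom (hc : Common 𝒜) (b : Bool) (z : Var X N) : Sub (𝒜 b) (Dom 𝒜 z) :=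
  sub1_of_sub2 (hc.sub2 true b) (Sub.sg _)

theorem mem_dom (hc : Common 𝒜) (b : Bool) {γ : Gad N} {z : Var X N} {a : Fin (ar γ.1 + 3) → X}
    (h : InSc γ z a) (x : X) : x ∈ Dom 𝒜 z ↔ ∃ t : (𝒜 b).Op (ar γ.1 + 3), t.1 a = x := by
  constructor
  · intro hx
    refine sg_le (A := 𝒜 true) (T := {x | ∃ t : (𝒜 b).Op (ar γ.1 + 3), t.1 a = x})
      (sub1_of_sub2 (hc.sub2 b true) ?_) ?_ hx
    · intro k s y hy
      choose t ht using hy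
      exact ⟨(𝒜 b).comp s t, by rw [← show (fun i => (t i).1 a) = y from funext ht]; rfl⟩
    · rw [h.gens_eq]
      rintro _ ⟨j, rfl⟩
      exact ⟨(𝒜 b).proj j, rfl⟩
  · rintro ⟨t, rfl⟩
    exact sub_dom hc b z _ t a (fun j => subset_sg _ (by rw [h.gens_eq]; exact ⟨j, rfl⟩))

theorem rel_ext (hc : Common 𝒜) (κ : Gad N × Bool) (t : (𝒜 κ.2).Op (ar κ.1.1 + 3)) :
    ∃ σ ∈ Rel 𝒜 κ, ∀ z a, InSc κ.1 z a → σ z = t.1 a := by
  classical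
  choose d hd using fun z : Var X N => gens_ne z
  have key : ∀ z a, InSc κ.1 z a →
      (if h : ∃ a, InSc κ.1 z a then t.1 h.choose else d z) = t.1 a := by
    intro z a h
    rw [dif_pos ⟨a, h⟩]
    exact congrArg t.1 ((Exists.choose_spec (⟨a, h⟩ : ∃ a, InSc κ.1 z a)).unique h)
  refine ⟨fun z => if h : ∃ a, InSc κ.1 z a then t.1 h.choose else d z, ⟨fun z => ?_, t, key⟩, key⟩
  beta_reduce
  by_cases h : ∃ a, InSc κ.1 z a
  · obtain ⟨a, ha⟩ := h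
    rw [key z a ha]
    exact (mem_dom hc κ.2 ha _).mpr ⟨t, rfl⟩
  · rw [dif_neg h]; exact subset_sg _ (hd z)

theorem rel_update {κ : Gad N × Bool} {σ : Var X N → X} (h : σ ∈ Rel 𝒜 κ) {z : Var X N}
    [DecidableEq (Var X N)] (hz : ¬ ∃ a, InSc κ.1 z a) {b : X} (hb : b ∈ Dom 𝒜 z) :
    Function.update σ z b ∈ Rel 𝒜 κ := by
  obtain ⟨h1, t, h2⟩ := h
  refine ⟨fun w => ?_, t, fun w a ha => ?_⟩
  · by_cases e : w = z
    · subst e; rw [Function.update_self]; exact hb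
    · rw [Function.update_of_ne e]; exact h1 w
  · have e : w ≠ z := by rintro rfl; exact hz ⟨a, ha⟩
    rw [Function.update_of_ne e]; exact h2 w a ha

theorem kk_arc (hc : Common 𝒜) :
    Arc 𝒜 (fun κ : Gad N × Bool => κ.2) (Dom 𝒜) (Rel 𝒜) := by
  classical
  refine ⟨fun κ k s x hx => ⟨fun z => sub_dom hc κ.2 z k s _ (fun i => (hx i).1 z), ?_⟩,
    fun κ r hr => hr.1, fun κ z b hb => ?_, fun z => (gens_ne z).mono (subset_sg _)⟩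
  · choose t ht using fun i => (hx i).2
    refine ⟨(𝒜 κ.2).comp s t, fun z a ha => ?_⟩
    show s.1 (fun i => x i z) = s.1 (fun i => (t i).1 a)
    exact congrArg s.1 (funext fun i => ht i z a ha)
  · by_cases h : ∃ a, InSc κ.1 z a
    · obtain ⟨a, ha⟩ := h
      obtain ⟨t, rfl⟩ := (mem_dom hc κ.2 ha b).mp hb
      obtain ⟨σ, h1, h2⟩ := rel_ext hc κ t
      exact ⟨σ, h1, h2 z a ha⟩
    · obtain ⟨σ, h1, _⟩ := rel_ext hc κ ((𝒜 κ.2).proj 0)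
      exact ⟨_, rel_update h1 h hb, by simp⟩

theorem good_path (hc : Common 𝒜) (i0 : Fin N) {z z' : Var X N} (p : Path (Gad N × Bool) z z') :
    ∀ S, Good i0 z S → ∃ S', Good i0 z' S' ∧ ∀ b' ∈ S', ∃ b ∈ S, (b, b') ∈ p.rel (Rel 𝒜) := by
  classical
  induction p with
  | comp p q ihp ihq =>
    intro S hS
    obtain ⟨S1, h1, k1⟩ := ihp S hS
    obtain ⟨S2, h2, k2⟩ := ihq S1 h1
    refine ⟨S2, h2, fun c hc => ?_⟩
    obtain ⟨b, hb, m2⟩ := k2 c hc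
    obtain ⟨a, ha, m1⟩ := k1 b hb
    exact ⟨a, ha, b, m1, m2⟩
  | step κ z z' =>
    intro S hS
    have arc := kk_arc (N := N) hc
    by_cases e : z = z'
    · subst e
      refine ⟨S, hS, fun b hb => ⟨b, hb, ?_⟩⟩
      obtain ⟨σ, h1, h2⟩ := arc.onto κ z b (subset_sg _ (hS.sub hb))
      exact ⟨σ, h1, by simp [h2]⟩
    by_cases h' : ∃ a', InSc κ.1 z' a'
    swap
    · obtain ⟨S', hS'⟩ := good_ex i0 z'
      obtain ⟨b, hb⟩ := hS.ne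
      refine ⟨S', hS', fun b' hb' => ⟨b, hb, ?_⟩⟩
      obtain ⟨σ, h1, h2⟩ := arc.onto κ z b (subset_sg _ (hS.sub hb))
      exact ⟨_, rel_update h1 h' (subset_sg _ (hS'.sub hb')), by simp [Function.update_of_ne e, h2]⟩
    by_cases h : ∃ a, InSc κ.1 z a
    swap
    · obtain ⟨S', hS'⟩ := good_ex i0 z'
      obtain ⟨b, hb⟩ := hS.ne
      refine ⟨S', hS', fun b' hb' => ⟨b, hb, ?_⟩⟩
      obtain ⟨σ, h1, h2⟩ := arc.onto κ z' b' (subset_sg _ (hS'.sub hb'))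
      exact ⟨_, rel_update h1 h (subset_sg _ (hS.sub hb)),
        by simp [Function.update_of_ne (Ne.symm e), h2]⟩
    obtain ⟨a, ha⟩ := h
    obtain ⟨a', ha'⟩ := h'
    have pr : ∀ j, (a j, a' j) ∈ (Path.step κ z z').rel (Rel 𝒜) := by
      intro j
      obtain ⟨σ, h1, h2⟩ := rel_ext hc κ ((𝒜 κ.2).proj j)
      exact ⟨σ, h1, Prod.ext (h2 z a ha) (h2 z' a' ha')⟩
    by_cases h0 : ∃ j0, κ.1.2.1 j0 = i0
    · obtain ⟨j0, h0⟩ := h0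
      refine ⟨_, (good_in h0 ha' _).mpr rfl, ?_⟩
      rintro _ rfl
      exact ⟨a j0, by rw [(good_in h0 ha _).mp hS]; rfl, pr j0⟩
    · push Not at h0
      obtain ⟨j1, h1⟩ := good_out1 h0 ha hS
      obtain ⟨S', hS', h2⟩ := good_out2 h0 ha' j1
      refine ⟨S', hS', fun b' hb' => ?_⟩
      obtain ⟨j, hj, rfl⟩ := h2 b' hb'
      exact ⟨a j, h1 j hj, pr j⟩

theorem Path.nonempty {V K : Type} {y z : V} (p : Path K y z) : Nonempty K := by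
  induction p with
  | step κ _ _ => exact ⟨κ⟩
  | comp _ _ ih _ => exact ih

theorem kk_cyc (hc : Common 𝒜) (hN : 2 ≤ N) : Cyc (Dom (N := N) 𝒜) (Rel 𝒜) := by
  intro z p
  have hs : Sub (𝒜 true) {a | (a, a) ∈ p.rel (Rel 𝒜)} := by
    have : Nonempty (Gad N × Bool) := p.nonempty
    have : Nonempty (Var X N) := ⟨z⟩
    exact Sub.pre (by fun_prop) ((kk_arc hc).subRel hc true p)
  refine sg_le hs (fun a ha => ?_)
  have : ∃ i0, ∀ S, Good i0 z S ↔ S = {a} := by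
    rcases z with ⟨l, x, y⟩ | ⟨γ, c⟩
    · rcases ha with rfl | rfl
      · have : Nontrivial (Fin N) := Fin.nontrivial_iff_two_le.mpr hN
        obtain ⟨i0, hi⟩ := exists_ne l
        exact ⟨i0, fun S => by simp [Good, hi.symm]⟩
      · exact ⟨l, fun S => by simp [Good]⟩
    · obtain ⟨j, rfl⟩ := ha
      exact ⟨_, good_in rfl (Or.inl rfl)⟩
  obtain ⟨i0, hi⟩ := this
  obtain ⟨S', h1, h2⟩ := good_path hc i0 p _ ((hi _).mpr rfl)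
  obtain ⟨b, hb, h3⟩ := h2 a (by rw [(hi _).mp h1]; rfl)
  rw [show b = a from hb] at h3
  exact h3

theorem pp_dir (hc : Common 𝒜) {C : Set X} {γ γ' : Gad N} {a : Fin (ar γ.1 + 3) → X}
    {a' : Fin (ar γ'.1 + 3) → X} (h' : Wn C a') {j : Fin (ar γ.1 + 3)}
    (h2 : ∀ j', γ'.2.1 j' = γ.2.1 j → a' j' ∈ C)
    (p : Path (Gad N × Bool) (Sum.inr ⟨γ, a⟩ : Var X N) (Sum.inr ⟨γ', a'⟩)) :
    ∃ b' ∈ C, (a j, b') ∈ p.rel (Rel 𝒜) := by
  obtain ⟨S', h3, h4⟩ := good_path hc (γ.2.1 j) p {a j} (Or.inl ⟨j, rfl, rfl⟩)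
  have : ∃ b' ∈ S', b' ∈ C := by
    rcases h3 with ⟨j', e, rfl⟩ | ⟨_, j1, rfl⟩
    · exact ⟨_, rfl, h2 j' e⟩
    · obtain ⟨k, hk, hC⟩ := h'.two j1
      exact ⟨_, ⟨k, hk, rfl⟩, hC⟩
  obtain ⟨b', k1, k2⟩ := this
  obtain ⟨b, hb, k3⟩ := h4 b' k1
  rw [show b = a j from hb] at k3
  exact ⟨b', k2, k3⟩

theorem kk_pp (hc : Common 𝒜) (C D0 : Set X) :
    PP (Rel (N := N) 𝒜) (fun z => {x | x ∈ Dom 𝒜 z ∧ (Win C D0 z → x ∈ C)}) := by
  intro z z' p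
  have sd := (kk_arc hc).sd p
  have ne : ∀ z : Var X N, ∃ x ∈ Dom 𝒜 z, (Win C D0 z → x ∈ C) := by
    intro z
    by_cases h : Win C D0 z
    · rcases z with _ | ⟨γ, a⟩
      · exact h.elim
      · obtain ⟨j, _, hj⟩ := h.2.two 0
        exact ⟨a j, subset_sg _ ⟨j, rfl⟩, fun _ => hj⟩
    · obtain ⟨x, hx⟩ := gens_ne z
      exact ⟨x, subset_sg _ hx, fun h' => absurd h' h⟩
  by_cases h' : Win C D0 z'
  swap
  · obtain ⟨x, h1, h2⟩ := ne z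
    obtain ⟨b, hb⟩ := sd.left x h1
    exact ⟨x, ⟨h1, h2⟩, b, ⟨(sd.le _ _ hb).2, fun h => absurd h h'⟩, hb⟩
  by_cases h : Win C D0 z
  swap
  · obtain ⟨x, h1, h2⟩ := ne z'
    obtain ⟨b, hb⟩ := sd.right x h1
    exact ⟨b, ⟨(sd.le _ _ hb).1, fun h' => absurd h' h⟩, x, ⟨h1, h2⟩, hb⟩
  rcases z with _ | ⟨γ, a⟩
  · exact h.elim
  rcases z' with _ | ⟨γ', a'⟩
  · exact h'.elim
  rcases win_choose h.2 h'.2 with ⟨j, h1, h2⟩ | ⟨j, h1, h2⟩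
  · obtain ⟨b', k1, k2⟩ := pp_dir hc h'.2 h2 p
    exact ⟨_, ⟨(sd.le _ _ k2).1, fun _ => h1⟩, b', ⟨(sd.le _ _ k2).2, fun _ => k1⟩, k2⟩
  · obtain ⟨b', k1, k2⟩ := pp_dir hc h.2 h2 p.rev
    have k3 := (p.rel_rev _ _ _).mp k2
    exact ⟨b', ⟨(sd.le _ _ k3).1, fun _ => k1⟩, _, ⟨(sd.le _ _ k3).2, fun _ => h1⟩, k3⟩

end Pool.Agent.H218Z.BW
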