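import Pool.Agent.H218Z.BW.KK

set_option autoImplicit false
set_option linter.unusedSectionVars false

namespace Pool.Agent.H218Z.BW

open Alg

variable {X : Type}

theorem kk {𝒜 : Bool → Clone X} [∀ b, MinBW (𝒜 b)] [Finite X] [Nonempty X] (hc : Common 𝒜)
    {C D0 : Set X} (hC : Cen (𝒜 true) C D0) :
    ∃ (v : (Fin 3 → X) → X) (w : (Fin 4 → X) → X), (∀ b, v ∈ (𝒜 b).mem 3) ∧
      (∀ b, w ∈ (𝒜 b).mem 4) ∧ Linked v w ∧
      (∀ a : Fin 3 → X, (∀ j, a j ∈ D0) → Wn (m := 0) C a → v a ∈ C) ∧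
      (∀ a : Fin 4 → X, (∀ j, a j ∈ D0) → Wn (m := 1) C a → w a ∈ C) := by
  classical
  have := Fintype.ofFinite X
  obtain ⟨x0⟩ := ‹Nonempty X›
  have hpos : 0 < Fintype.card (X × X → X) := Fintype.card_pos
  obtain ⟨N, hN⟩ : ∃ N, N = Fintype.card (X × X → X) * 3 + 1 := ⟨_, rfl⟩
  have : Nonempty (Gad N × Bool) := ⟨(⟨true, Fin.castLE (show 3 ≤ N by omega),
    Fin.strictMono_castLE _⟩, true)⟩
  have : Nonempty (Var X N) := ⟨Sum.inl (⟨0, by omega⟩, x0, x0)⟩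
  obtain ⟨σ, h1, h2⟩ := mixed_solution hc _ _ _ rfl (kk_arc (N := N) hc) (kk_cyc hc (by omega))
    (fun z => {x | x ∈ Dom 𝒜 z ∧ (Win C D0 z → x ∈ C)}) (fun z => by
      by_cases h : Win C D0 z
      · have hle : Dom 𝒜 z ⊆ D0 := by
          rcases z with _ | ⟨γ, a⟩
          · exact h.elim
          · exact sg_le hC.subD (by rintro _ ⟨j, rfl⟩; exact h.1 j)
        have := hC.restrict (sub_dom hc true z) hle
        convert this using 1
        ext x; simp [h]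
      · have := Cen.refl (sub_dom hc true z)
        convert this using 1
        ext x; simp [h]) (kk_pp hc C D0)
  obtain ⟨u0, hu0⟩ := Fintype.exists_lt_card_fiber_of_mul_lt_card
    (fun (l : Fin N) (p : X × X) => σ (Sum.inl (l, p.1, p.2))) (n := 3) (by simp only [Fintype.card_fin]; omega)
  have gad : ∀ b : Bool, ∃ t : (Fin (ar b + 3) → X) → X, (∀ c, t ∈ (𝒜 c).mem (ar b + 3)) ∧
      (∀ j x y a, (∀ i, a i = if i = j then y else x) → t a = u0 (x, y)) ∧
      ∀ a, (∀ j, a j ∈ D0) → Wn C a → t a ∈ C := by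
    intro b
    have hk : ar b + 3 ≤ (Finset.univ.filter fun l : Fin N =>
        (fun p : X × X => σ (Sum.inl (l, p.1, p.2))) = u0).card := by
      cases b
      · exact hu0
      · exact le_trans (by simp [ar]) hu0
    let e := Finset.orderEmbOfCardLe _ hk
    let γ : Gad N := ⟨b, e, e.strictMono⟩
    refine ⟨fun a => σ (Sum.inr ⟨γ, a⟩), fun c => ?_, fun j x y a ha => ?_, fun a ha hw =>
      (h2 (Sum.inr ⟨γ, a⟩)).2 ⟨ha, hw⟩⟩
    · obtain ⟨_, t, ht⟩ := h1 (γ, c)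
      rw [show (fun a => σ (Sum.inr ⟨γ, a⟩)) = t.1 from funext fun a => ht _ a (Or.inl rfl)]
      exact t.2
    · obtain ⟨_, t, ht⟩ := h1 (γ, true)
      obtain rfl : a = Function.update (fun _ => x) j y := by
        funext i; rw [ha, Function.update_apply]
      have k1 := ht _ _ (Or.inl (rfl : (Sum.inr ⟨γ, Function.update (fun _ => x) j y⟩ : Var X N) = _))
      have k2 := ht _ _ (Or.inr ⟨j, x, y, rfl, rfl⟩)
      have k3 := (Finset.mem_filter.mp (Finset.orderEmbOfCardLe_mem _ hk j)).2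
      exact k1.trans (k2.symm.trans (congrFun k3 (x, y)))
  obtain ⟨v, v1, v2, v3⟩ := gad true
  obtain ⟨w, w1, w2, w3⟩ := gad false
  have ev : ∀ (j : Fin 3) (x y : X) (a : Fin 3 → X), (∀ i, a i = if i = j then y else x) →
      v a = u0 (x, y) := v2
  have ew : ∀ (j : Fin 4) (x y : X) (a : Fin 4 → X), (∀ i, a i = if i = j then y else x) →
      w a = u0 (x, y) := w2
  have a0 : ∀ x y, v ![y, x, x] = u0 (x, y) := fun x y => ev 0 x y _ (fun i => by fin_cases i <;> rfl)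
  have a1 : ∀ x y, v ![x, y, x] = u0 (x, y) := fun x y => ev 1 x y _ (fun i => by fin_cases i <;> rfl)
  have a2 : ∀ x y, v ![x, x, y] = u0 (x, y) := fun x y => ev 2 x y _ (fun i => by fin_cases i <;> rfl)
  have b0 : ∀ x y, w ![y, x, x, x] = u0 (x, y) :=
    fun x y => ew 0 x y _ (fun i => by fin_cases i <;> rfl)
  have b1 : ∀ x y, w ![x, y, x, x] = u0 (x, y) :=
    fun x y => ew 1 x y _ (fun i => by fin_cases i <;> rfl)
  have b2 : ∀ x y, w ![x, x, y, x] = u0 (x, y) :=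
    fun x y => ew 2 x y _ (fun i => by fin_cases i <;> rfl)
  have b3 : ∀ x y, w ![x, x, x, y] = u0 (x, y) :=
    fun x y => ew 3 x y _ (fun i => by fin_cases i <;> rfl)
  have hi : ∀ x, u0 (x, x) = x := fun x => by
    rw [← ev 0 x x (fun _ => x) (fun i => by simp)]
    exact idem_self (A := 𝒜 true) ⟨v, v1 true⟩ x
  exact ⟨v, w, v1, w1, ⟨fun a => (a0 a a).trans (hi a), fun a => (b0 a a).trans (hi a),
    fun x y => (a0 x y).trans (a1 x y).symm, fun x y => (a1 x y).trans (a2 x y).symm,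
    fun x y => (b0 x y).trans (b1 x y).symm, fun x y => (b1 x y).trans (b2 x y).symm,
    fun x y => (b2 x y).trans (b3 x y).symm, fun x y => (a0 x y).trans (b0 x y).symm⟩, v3, w3⟩

theorem wn_or {m : ℕ} {C : Set X} (a a' : Fin (m + 3) → X) (h : ∀ j, a j ∈ C ∨ a' j ∈ C) :
    Wn C a ∨ Wn C a' := by
  by_cases h1 : ∀ j, j ≠ 0 → a j ∈ C
  · exact Or.inl (Or.inr h1)
  by_cases h2 : ∀ j, j ≠ 0 → a' j ∈ C
  · exact Or.inr (Or.inr h2)
  push Not at h1 h2
  obtain ⟨j1, k1, m1⟩ := h1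
  obtain ⟨j2, k2, m2⟩ := h2
  rcases h 0 with h0 | h0
  · exact Or.inl (Or.inl ⟨h0, j2, k2, (h j2).resolve_right m2⟩)
  · exact Or.inr (Or.inl ⟨h0, j1, k1, (h j1).resolve_left m1⟩)

/-- In a minimal bounded width clone a central subuniverse gives a closed cross. -/
theorem cross_of_cen {A : Clone X} [MinBW A] [Finite X] [Nonempty X] {C D : Set X}
    (h : Cen A C D) : Sub A {p : X × X | (p.1 ∈ D ∧ p.2 ∈ D) ∧ (p.1 ∈ C ∨ p.2 ∈ C)} := by
  obtain ⟨v, w, v1, w1, hl, v2, w2⟩ := kk (𝒜 := fun _ => A) ⟨fun _ _ _ h => h, fun _ _ _ _ h => h⟩ h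
  refine sub_of_linked (v := ⟨v, v1 true⟩) (w := ⟨w, w1 true⟩) hl (fun x hx => ⟨⟨?_, ?_⟩, ?_⟩)
    (fun x hx => ⟨⟨?_, ?_⟩, ?_⟩)
  · exact h.subD _ _ _ (fun i => (hx i).1.1)
  · exact h.subD _ _ _ (fun i => (hx i).1.2)
  · exact (wn_or (m := 0) (fun i => (x i).1) (fun i => (x i).2) (fun i => (hx i).2)).imp
      (v2 _ (fun i => (hx i).1.1)) (v2 _ (fun i => (hx i).1.2))
  · exact h.subD _ _ _ (fun i => (hx i).1.1)
  · exact h.subD _ _ _ (fun i => (hx i).1.2)
  · exact (wn_or (m := 1) (fun i => (x i).1) (fun i => (x i).2) (fun i => (hx i).2)).imp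
      (w2 _ (fun i => (hx i).1.1)) (w2 _ (fun i => (hx i).1.2))

/-- Minimal bounded width clones with the same binary invariants coincide. -/
theorem inv2_determines [Finite X] (A B : Clone X) [hA : MinBW A] [hB : MinBW B]
    (h : ∀ S : Set (X × X), Sub A S ↔ Sub B S) (k : ℕ) : A.mem k = B.mem k := by
  have hbw : ∃ v, v ∈ A.mem 3 ∧ v ∈ B.mem 3 ∧ ∃ w, w ∈ A.mem 4 ∧ w ∈ B.mem 4 ∧ Linked v w := by
    rcases isEmpty_or_nonempty X with he | hne
    · obtain ⟨v, hv, w, hw, hl⟩ := hA.bw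
      obtain ⟨v', hv', w', hw', _⟩ := hB.bw
      exact ⟨v, hv, by rw [Subsingleton.elim v v']; exact hv', w, hw,
        by rw [Subsingleton.elim w w']; exact hw', hl⟩
    · let 𝒜 : Bool → Clone X := fun b => cond b A B
      have : ∀ b, MinBW (𝒜 b) := fun b => by cases b; exacts [hB, hA]
      have s2 : ∀ (b b' : Bool) (S : Set (X × X)), Sub (𝒜 b) S → Sub (𝒜 b') S := by
        intro b b' S hS
        cases b <;> cases b'
        exacts [hS, (h S).mpr hS, (h S).mp hS, hS]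
      have hc : Common 𝒜 := ⟨s2, fun b b' C D hC => cen_of_cross (sub1_of_sub2 (s2 b b') hC.subC)
        (sub1_of_sub2 (s2 b b') hC.subD) hC.le (s2 b b' _ (cross_of_cen hC))⟩
      obtain ⟨v, w, v1, w1, hl, _⟩ := kk hc (Cen.refl Sub.univ)
      exact ⟨v, v1 true, v1 false, w, w1 true, w1 false, hl⟩
  obtain ⟨v, v1, v2, w, w1, w2, hl⟩ := hbw
  let F : Clone X :=
    { mem := fun k => A.mem k ∩ B.mem k
      proj_mem := fun k i => ⟨A.proj_mem k i, B.proj_mem k i⟩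
      comp_mem := fun k m f g hf hg => ⟨A.comp_mem k m f g hf.1 (fun i => (hg i).1),
        B.comp_mem k m f g hf.2 (fun i => (hg i).2)⟩ }
  have hF : BWc F := ⟨v, ⟨v1, v2⟩, w, ⟨w1, w2⟩, hl⟩
  exact Set.Subset.antisymm (fun f hf => (hA.min F (fun _ _ h => h.1) hF k hf).2)
    (fun f hf => (hB.min F (fun _ _ h => h.2) hF k hf).1)

end Pool.Agent.H218Z.BW
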