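import Pool.Agent.H218Z.BW.Simple

set_option autoImplicit false
set_option linter.unusedSectionVars false

namespace Pool.Agent.H218Z.BW

open Alg

variable {X : Type} {𝒜 : Bool → Clone X} {V K : Type}

/-- Two clones with the same binary invariants and the same central subuniverses. -/
structure Common (𝒜 : Bool → Clone X) : Prop where
  sub2 : ∀ (b b' : Bool) (S : Set (X × X)), Sub (𝒜 b) S → Sub (𝒜 b') S
  cen : ∀ (b b' : Bool) (C D : Set X), Cen (𝒜 b) C D → Cen (𝒜 b') C D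

theorem sub1_of_sub2 {A B : Clone X} (h : ∀ S : Set (X × X), Sub A S → Sub B S) {S : Set X}
    (hS : Sub A S) : Sub B S := by
  have := Sub.pre (A := B) (f := fun x : X => (x, x)) (by fun_prop) (h _ (hS.prod Sub.univ))
  simpa using this

theorem Common.cf (hc : Common 𝒜) {b : Bool} (b' : Bool) {D : Set X} (h : CF (𝒜 b) D) :
    CF (𝒜 b') D :=
  ⟨sub1_of_sub2 (hc.sub2 b b') h.sub, fun C hC hne => h.eq C (hc.cen _ _ _ _ hC) hne⟩

/-- Paths in an instance. -/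
inductive Path (K : Type) {V : Type} : V → V → Type
  | step (κ : K) (y z : V) : Path K y z
  | comp {y z w : V} : Path K y z → Path K z w → Path K y w

def Path.rel (R : K → Set (V → X)) : {y z : V} → Path K y z → Set (X × X)
  | _, _, .step κ y z => (fun r : V → X => (r y, r z)) '' R κ
  | _, _, .comp p q => rcomp (p.rel R) (q.rel R)

def Path.rev : {y z : V} → Path K y z → Path K z y
  | _, _, .step κ y z => .step κ z y
  | _, _, .comp p q => .comp q.rev p.rev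

theorem Path.rel_rev (R : K → Set (V → X)) {y z : V} (p : Path K y z) (a b : X) :
    (b, a) ∈ p.rev.rel R ↔ (a, b) ∈ p.rel R := by
  induction p generalizing a b with
  | step κ y z =>
    constructor <;>
    · rintro ⟨r, hr, e⟩
      obtain ⟨rfl, rfl⟩ := Prod.mk.inj e
      exact ⟨r, hr, rfl⟩
  | comp p q ihp ihq =>
    exact ⟨fun ⟨c, h1, h2⟩ => ⟨c, (ihp _ _).mp h2, (ihq _ _).mp h1⟩,
      fun ⟨c, h1, h2⟩ => ⟨c, (ihq _ _).mpr h2, (ihp _ _).mpr h1⟩⟩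

theorem Path.rel_mono {R R' : K → Set (V → X)} (h : ∀ κ, R' κ ⊆ R κ) {y z : V} (p : Path K y z) :
    p.rel R' ⊆ p.rel R := by
  induction p with
  | step κ y z => exact Set.image_mono (h κ)
  | comp p q ihp ihq => exact fun _ ⟨c, h1, h2⟩ => ⟨c, ihp h1, ihq h2⟩

/-- Arc-consistent mixed instances. -/
structure Arc (𝒜 : Bool → Clone X) (ι : K → Bool) (D : V → Set X) (R : K → Set (V → X)) : Prop where
  sub : ∀ κ, Sub (𝒜 (ι κ)) (R κ)
  le : ∀ κ, ∀ r ∈ R κ, ∀ y, r y ∈ D y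
  onto : ∀ κ y, ∀ a ∈ D y, ∃ r ∈ R κ, r y = a
  ne : ∀ y, (D y).Nonempty

def Cyc (D : V → Set X) (R : K → Set (V → X)) : Prop :=
  ∀ (y : V) (p : Path K y y), ∀ a ∈ D y, (a, a) ∈ p.rel R

def PP (R : K → Set (V → X)) (E : V → Set X) : Prop :=
  ∀ (w z : V) (p : Path K w z), ∃ a ∈ E w, ∃ b ∈ E z, (a, b) ∈ p.rel R

theorem sd_rel {D : V → Set X} {R : K → Set (V → X)} (le : ∀ κ, ∀ r ∈ R κ, ∀ y, r y ∈ D y)
    (onto : ∀ κ y, ∀ a ∈ D y, ∃ r ∈ R κ, r y = a) {y z : V} (p : Path K y z) :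
    SD (p.rel R) (D y) (D z) := by
  induction p with
  | step κ y z =>
    refine ⟨?_, fun a ha => ?_, fun a ha => ?_⟩
    · rintro a b ⟨r, hr, e⟩
      obtain ⟨rfl, rfl⟩ := Prod.mk.inj e
      exact ⟨le κ r hr y, le κ r hr z⟩
    · obtain ⟨r, hr, rfl⟩ := onto κ y a ha; exact ⟨_, r, hr, rfl⟩
    · obtain ⟨r, hr, rfl⟩ := onto κ z a ha; exact ⟨_, r, hr, rfl⟩
  | comp p q ihp ihq => exact ihp.comp ihq

variable {ι : K → Bool} {D : V → Set X} {R : K → Set (V → X)}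

theorem Arc.sd (h : Arc 𝒜 ι D R) {y z : V} (p : Path K y z) : SD (p.rel R) (D y) (D z) :=
  sd_rel h.le h.onto p

theorem Arc.image (h : Arc 𝒜 ι D R) (κ : K) (z : V) : (fun r : V → X => r z) '' R κ = D z := by
  ext a
  exact ⟨fun ⟨r, hr, e⟩ => e ▸ h.le κ r hr z, h.onto κ z a⟩

variable [∀ b, MinBW (𝒜 b)] [Finite X] [Finite V] [Finite K] [Nonempty K] [Nonempty V]

theorem Arc.neR (h : Arc 𝒜 ι D R) (κ : K) : (R κ).Nonempty := by
  obtain ⟨y⟩ := ‹Nonempty V›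
  obtain ⟨a, ha⟩ := h.ne y
  obtain ⟨r, hr, _⟩ := h.onto κ y a ha
  exact ⟨r, hr⟩

theorem Arc.subD (hc : Common 𝒜) (h : Arc 𝒜 ι D R) (b : Bool) (y : V) : Sub (𝒜 b) (D y) := by
  obtain ⟨κ⟩ := ‹Nonempty K›
  rw [← h.image κ y]
  exact sub1_of_sub2 (hc.sub2 _ b) ((h.sub κ).image (by fun_prop))

theorem Arc.subRel (hc : Common 𝒜) (h : Arc 𝒜 ι D R) (b : Bool) {y z : V} (p : Path K y z) :
    Sub (𝒜 b) (p.rel R) := by
  induction p with
  | step κ y z => exact hc.sub2 _ b _ ((h.sub κ).image (by fun_prop))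
  | comp p q ihp ihq => exact ihp.rcomp ihq

theorem Arc.pp (h : Arc 𝒜 ι D R) : PP R D := fun w z p => by
  obtain ⟨a, ha⟩ := h.ne w
  obtain ⟨b, hb⟩ := (h.sd p).left a ha
  exact ⟨a, ha, b, ((h.sd p).le _ _ hb).2, hb⟩

def Ch (𝒜 : Bool → Clone X) : Set (X × X) → Set (X × X) → Prop :=
  Relation.ReflTransGen (fun T' T => ∃ b, Cen (𝒜 b) T' T)

theorem Ch.le {T' T : Set (X × X)} (h : Ch 𝒜 T' T) : T' ⊆ T := by
  induction h with
  | refl => exact le_rfl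
  | tail _ h ih => obtain ⟨b, h⟩ := h; exact ih.trans h.le

theorem Ch.comp_right {T' T S : Set (X × X)} (h : Ch 𝒜 T' T) (hS : ∀ b, Sub (𝒜 b) S) :
    Ch 𝒜 (rcomp T' S) (rcomp T S) := by
  induction h with
  | refl => exact Relation.ReflTransGen.refl
  | tail _ h ih => obtain ⟨b, h⟩ := h; exact ih.tail ⟨b, h.comp_right (hS b)⟩

theorem Ch.comp_left {T' T S : Set (X × X)} (h : Ch 𝒜 T' T) (hS : ∀ b, Sub (𝒜 b) S) :
    Ch 𝒜 (rcomp S T') (rcomp S T) := by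
  induction h with
  | refl => exact Relation.ReflTransGen.refl
  | tail _ h ih => obtain ⟨b, h⟩ := h; exact ih.tail ⟨b, h.comp_left (hS b)⟩

theorem Ch.loop {T' T : Set (X × X)} (h : Ch 𝒜 T' T) {E : Set X} (hE : ∀ b, CF (𝒜 b) E)
    (hl : ∀ a ∈ E, ∃ b ∈ E, (a, b) ∈ T') (hr : ∀ b ∈ E, ∃ a ∈ E, (a, b) ∈ T')
    (hrefl : ∀ a ∈ E, (a, a) ∈ T) : ∀ a ∈ E, (a, a) ∈ T' := by
  induction h with
  | refl => exact hrefl
  | tail h1 h ih =>
    obtain ⟨b, h⟩ := h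
    have hle := Ch.le h1
    exact ih (loop_cf (hE b) hrefl h
      (fun a ha => (hl a ha).imp fun c hc => ⟨hc.1, hle hc.2⟩)
      (fun a ha => (hr a ha).imp fun c hc => ⟨hc.1, hle hc.2⟩))

theorem ch_rel (hc : Common 𝒜) {E : V → Set X} {R' : K → Set (V → X)} (h : Arc 𝒜 ι D R)
    (h' : Arc 𝒜 ι E R') (hcen : ∀ κ, Cen (𝒜 (ι κ)) (R' κ) (R κ)) {y z : V} (p : Path K y z) :
    Ch 𝒜 (p.rel R') (p.rel R) := by
  induction p with
  | step κ y z =>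
    exact Relation.ReflTransGen.single ⟨ι κ, (hcen κ).image (by fun_prop)⟩
  | comp p q ihp ihq =>
    exact Relation.ReflTransGen.trans (ihq.comp_left (fun b => h'.subRel hc b p))
      (ihp.comp_right (fun b => h.subRel hc b q))

theorem Arc.cen_box (hc : Common 𝒜) (h : Arc 𝒜 ι D R) {E : V → Set X}
    (hE : ∀ y, Cen (𝒜 true) (E y) (D y)) (κ : K) :
    Cen (𝒜 (ι κ)) {r | r ∈ R κ ∧ ∀ y, r y ∈ E y} (R κ) := by
  have := Cen.iInter (h.sub κ) (I := V) (C := fun y => {g | g ∈ R κ ∧ g y ∈ E y})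
    (fun y => Cen.pre (by fun_prop) (h.sub κ) (hc.cen _ _ _ _ (hE y)) (fun g hg => h.le κ g hg y))
  convert this using 1
  ext r
  exact ⟨fun hr => ⟨hr.1, fun y => ⟨hr.1, hr.2 y⟩⟩, fun hr => ⟨hr.1, fun y => (hr.2 y).2⟩⟩

theorem Arc.cen_proj (hc : Common 𝒜) (h : Arc 𝒜 ι D R) {κ : K} {S : Set (V → X)}
    (hS : Cen (𝒜 (ι κ)) S (R κ)) (z : V) (b : Bool) :
    Cen (𝒜 b) ((fun r : V → X => r z) '' S) (D z) := by
  have := hS.image (f := fun r : V → X => r z) (by fun_prop)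
  rw [h.image] at this
  exact hc.cen _ _ _ _ this

theorem Arc.hellyR (hc : Common 𝒜) (h : Arc 𝒜 ι D R) {E : V → Set X}
    (hE : ∀ y, Cen (𝒜 true) (E y) (D y)) (hpp : PP R E) (κ : K) (z : V) {G : Set X}
    (hG : Cen (𝒜 true) G (D z)) (hp : ∀ u, ∃ r ∈ R κ, r u ∈ E u ∧ r z ∈ G) :
    ∃ r ∈ R κ, (∀ y, r y ∈ E y) ∧ r z ∈ G := by
  let C : Option V → Set (V → X) := fun o => match o with
    | none => {g | g ∈ R κ ∧ g z ∈ G}
    | some y => {g | g ∈ R κ ∧ g y ∈ E y}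
  have hC : ∀ o, Cen (𝒜 (ι κ)) (C o) (R κ) := by
    rintro (_ | y)
    · exact Cen.pre (by fun_prop) (h.sub κ) (hc.cen _ _ _ _ hG) (fun g hg => h.le κ g hg z)
    · exact Cen.pre (by fun_prop) (h.sub κ) (hc.cen _ _ _ _ (hE y)) (fun g hg => h.le κ g hg y)
  obtain ⟨g, hg, h1⟩ := helly hC (h.sub κ) (h.neR κ) (by
    rintro (_ | y) (_ | y')
    · obtain ⟨r, hr, _, h2⟩ := hp z; exact ⟨r, ⟨hr, h2⟩, hr, h2⟩
    · obtain ⟨r, hr, h1, h2⟩ := hp y'; exact ⟨r, ⟨hr, h2⟩, hr, h1⟩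
    · obtain ⟨r, hr, h1, h2⟩ := hp y; exact ⟨r, ⟨hr, h1⟩, hr, h2⟩
    · obtain ⟨a, ha, b, hb, r, hr, e⟩ := hpp y y' (.step κ y y')
      obtain ⟨rfl, rfl⟩ := Prod.mk.inj e
      exact ⟨r, ⟨hr, ha⟩, hr, hb⟩)
  exact ⟨g, hg, fun y => (h1 (some y)).2, (h1 none).2⟩

theorem Arc.pp_next (hc : Common 𝒜) (h : Arc 𝒜 ι D R) {E : V → Set X}
    (hE : ∀ y, Cen (𝒜 true) (E y) (D y)) (hpp : PP R E) :
    PP R (fun z => {a | a ∈ D z ∧ ∀ κ, a ∈ (fun r : V → X => r z) ''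
      {r | r ∈ R κ ∧ ∀ y, r y ∈ E y}}) := by
  have hF : ∀ κ z, Cen (𝒜 true) ((fun r : V → X => r z) '' {r | r ∈ R κ ∧ ∀ y, r y ∈ E y}) (D z) :=
    fun κ z => h.cen_proj hc (h.cen_box hc hE κ) z true
  have s1 : ∀ (w z : V) (p : Path K w z) (κ : K), ∃ a ∈ E w,
      ∃ b ∈ (fun r : V → X => r z) '' {r | r ∈ R κ ∧ ∀ y, r y ∈ E y}, (a, b) ∈ p.rel R := by
    intro w z p κ
    obtain ⟨r, hr, h1, a, ha, h2⟩ := h.hellyR hc hE hpp κ z
      ((hE w).plus (h.subRel hc true p) (h.sd p)) (fun u => by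
        obtain ⟨a, ha, b, hb, c, h1, r, hr, e⟩ := hpp w u (.comp p (.step κ z u))
        obtain ⟨rfl, rfl⟩ := Prod.mk.inj e
        exact ⟨r, hr, hb, a, ha, h1⟩)
    exact ⟨a, ha, _, ⟨r, ⟨hr, h1⟩, rfl⟩, h2⟩
  have s2 : ∀ (w z : V) (p : Path K w z) (κ κ' : K),
      ∃ a ∈ (fun r : V → X => r w) '' {r | r ∈ R κ ∧ ∀ y, r y ∈ E y},
      ∃ b ∈ (fun r : V → X => r z) '' {r | r ∈ R κ' ∧ ∀ y, r y ∈ E y}, (a, b) ∈ p.rel R := by
    intro w z p κ κ'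
    obtain ⟨r, hr, h1, b, hb, h2⟩ := h.hellyR hc hE hpp κ w
      ((hF κ' z).plus (h.subRel hc true p).rinv (h.sd p).inv) (fun u => by
        obtain ⟨a, ha, b, hb, c, ⟨r, hr, e⟩, h1⟩ := s1 u z (.comp (.step κ u w) p) κ'
        obtain ⟨rfl, rfl⟩ := Prod.mk.inj e
        exact ⟨r, hr, ha, b, hb, h1⟩)
    exact ⟨_, ⟨r, ⟨hr, h1⟩, rfl⟩, b, hb, h2⟩
  have s3 : ∀ (w : V) (κ κ' : K),
      ∃ a ∈ (fun r : V → X => r w) '' {r | r ∈ R κ ∧ ∀ y, r y ∈ E y},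
        a ∈ (fun r : V → X => r w) '' {r | r ∈ R κ' ∧ ∀ y, r y ∈ E y} := by
    intro w κ κ'
    obtain ⟨a, ha, b, hb, r, hr, e⟩ := s2 w w (.step κ w w) κ κ'
    obtain ⟨rfl, e2⟩ := Prod.mk.inj e
    exact ⟨_, ha, by rw [e2]; exact hb⟩
  intro w z p
  have hsd := h.sd p
  have hs := h.subRel hc true p
  let C : K ⊕ K → Set (X × X) := Sum.elim
    (fun κ => {g | g ∈ p.rel R ∧ g.1 ∈ (fun r : V → X => r w) '' {r | r ∈ R κ ∧ ∀ y, r y ∈ E y}})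
    (fun κ => {g | g ∈ p.rel R ∧ g.2 ∈ (fun r : V → X => r z) '' {r | r ∈ R κ ∧ ∀ y, r y ∈ E y}})
  have hC : ∀ o, Cen (𝒜 true) (C o) (p.rel R) := by
    rintro (κ | κ)
    · exact Cen.pre (by fun_prop) hs (hF κ w) (fun g hg => (hsd.le _ _ hg).1)
    · exact Cen.pre (by fun_prop) hs (hF κ z) (fun g hg => (hsd.le _ _ hg).2)
  obtain ⟨g, hg, h1⟩ := helly hC hs (by obtain ⟨a, _, b, _, h⟩ := hpp w z p; exact ⟨_, h⟩) (by
    rintro (κ | κ) (κ' | κ')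
    · obtain ⟨a, h1, h2⟩ := s3 w κ κ'
      obtain ⟨b, hb⟩ := hsd.left a ((hF κ w).le h1)
      exact ⟨(a, b), ⟨hb, h1⟩, hb, h2⟩
    · obtain ⟨a, ha, b, hb, h1⟩ := s2 w z p κ κ'
      exact ⟨(a, b), ⟨h1, ha⟩, h1, hb⟩
    · obtain ⟨a, ha, b, hb, h1⟩ := s2 w z p κ' κ
      exact ⟨(a, b), ⟨h1, hb⟩, h1, ha⟩
    · obtain ⟨b, h1, h2⟩ := s3 z κ κ'
      obtain ⟨a, ha⟩ := hsd.right b ((hF κ z).le h1)
      exact ⟨(a, b), ⟨ha, h1⟩, ha, h2⟩)
  exact ⟨g.1, ⟨(hsd.le _ _ hg).1, fun κ => (h1 (Sum.inl κ)).2⟩, g.2,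
    ⟨(hsd.le _ _ hg).2, fun κ => (h1 (Sum.inr κ)).2⟩, hg⟩

/-- The central reduction step. -/
theorem stepA (hc : Common 𝒜) (h : Arc 𝒜 ι D R) (hcyc : Cyc D R) {U : V → Set X}
    (hU : ∀ y, Cen (𝒜 true) (U y) (D y)) (hpp : PP R U) :
    ∃ (E : V → Set X) (R' : K → Set (V → X)), Arc 𝒜 ι E R' ∧ Cyc E R' ∧ (∀ κ, R' κ ⊆ R κ) ∧
      (∀ y, E y ⊆ U y) ∧ ∀ κ, CF (𝒜 (ι κ)) (R' κ) := by
  classical
  obtain ⟨E, ⟨hE, hEU, hEpp⟩, hmin⟩ := Set.Finite.exists_minimal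
    (s := {E : V → Set X | (∀ y, Cen (𝒜 true) (E y) (D y)) ∧ (∀ y, E y ⊆ U y) ∧ PP R E})
    (Set.toFinite _) ⟨U, hU, fun _ => le_rfl, hpp⟩
  obtain ⟨κ0⟩ := ‹Nonempty K›
  have onto : ∀ κ y, ∀ a ∈ E y, ∃ r ∈ {r | r ∈ R κ ∧ ∀ y, r y ∈ E y}, r y = a := by
    have hle : (fun z => {a | a ∈ D z ∧ ∀ κ, a ∈ (fun r : V → X => r z) ''
        {r | r ∈ R κ ∧ ∀ y, r y ∈ E y}}) ≤ E := by
      intro z a ha
      obtain ⟨r, hr, rfl⟩ := ha.2 κ0
      exact hr.2 z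
    have := hmin ⟨fun z => Cen.iInter (h.subD hc true z)
      (fun κ => h.cen_proj hc (h.cen_box hc hE κ) z true), fun z => (hle z).trans (hEU z),
      h.pp_next hc hE hEpp⟩ hle
    intro κ y a ha
    exact (this y ha).2 κ
  have sdE := fun {y z : V} (p : Path K y z) =>
    sd_rel (D := E) (R := fun κ => {r | r ∈ R κ ∧ ∀ y, r y ∈ E y}) (fun κ r hr => hr.2) onto p
  have mono := fun {y z : V} (p : Path K y z) =>
    Path.rel_mono (R := R) (R' := fun κ => {r | r ∈ R κ ∧ ∀ y, r y ∈ E y}) (fun κ r hr => hr.1) p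
  have minE : ∀ y C, Cen (𝒜 true) C (D y) → C.Nonempty → C ⊆ E y → E y ⊆ C := by
    intro y C hC ⟨c, hcC⟩ hCE
    have hle : Function.update E y C ≤ E := by
      intro z
      by_cases hz : z = y
      · subst hz; rw [Function.update_self]; exact hCE
      · rw [Function.update_of_ne hz]
    have := hmin ⟨fun z => by
        by_cases hz : z = y
        · subst hz; rw [Function.update_self]; exact hC
        · rw [Function.update_of_ne hz]; exact hE z,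
      fun z => (hle z).trans (hEU z), fun w z p => by
        by_cases hw : w = y <;> by_cases hz : z = y
        · subst hw; subst hz
          rw [Function.update_self]
          exact ⟨c, hcC, c, hcC, hcyc _ p c (hC.le hcC)⟩
        · subst hw
          rw [Function.update_self, Function.update_of_ne hz]
          obtain ⟨b, hb⟩ := (sdE p).left c (hCE hcC)
          exact ⟨c, hcC, b, ((sdE p).le _ _ hb).2, mono p hb⟩
        · subst hz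
          rw [Function.update_self, Function.update_of_ne hw]
          obtain ⟨b, hb⟩ := (sdE p).right c (hCE hcC)
          exact ⟨b, ((sdE p).le _ _ hb).1, c, hcC, mono p hb⟩
        · rw [Function.update_of_ne hw, Function.update_of_ne hz]
          exact hEpp w z p⟩ hle y
    rwa [Function.update_self] at this
  have neE : ∀ y, (E y).Nonempty := fun y => by
    obtain ⟨a, ha, _⟩ := hEpp y y (.step κ0 y y); exact ⟨a, ha⟩
  have cfE : ∀ y b, CF (𝒜 b) (E y) := fun y b => hc.cf b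
    ⟨(hE y).subC, fun C hC hne => minE y C (hC.trans (hE y)) hne hC.le⟩
  have hR' : ∀ κ, ∃ S, S ⊆ {r | r ∈ R κ ∧ ∀ y, r y ∈ E y} ∧ Cen (𝒜 (ι κ)) S (R κ) ∧ S.Nonempty ∧
      CF (𝒜 (ι κ)) S := fun κ => exists_mc (h.cen_box hc hE κ) (by
        obtain ⟨y⟩ := ‹Nonempty V›
        obtain ⟨a, ha⟩ := neE y
        obtain ⟨r, hr, _⟩ := onto κ y a ha
        exact ⟨r, hr⟩)
  choose R' r1 r2 r3 r4 using hR'
  have arc : Arc 𝒜 ι E R' := ⟨fun κ => (r4 κ).sub, fun κ r hr => (r1 κ hr).2, fun κ y a ha =>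
    minE y _ (h.cen_proj hc (r2 κ) y true) ((r3 κ).image _)
      (by rintro _ ⟨r, hr, rfl⟩; exact (r1 κ hr).2 y) ha, neE⟩
  refine ⟨E, R', arc, fun y p => ?_, fun κ r hr => (r1 κ hr).1, hEU, r4⟩
  have sd := arc.sd p
  exact (ch_rel hc h arc r2 p).loop (cfE y)
    (fun a ha => (sd.left a ha).imp fun b hb => ⟨(sd.le _ _ hb).2, hb⟩)
    (fun a ha => (sd.right a ha).imp fun b hb => ⟨(sd.le _ _ hb).1, hb⟩)
    (fun a ha => hcyc y p a ((hE y).le ha))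

end Pool.Agent.H218Z.BW
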