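import Pool.Agent.H218Z.BW.MixedA

set_option autoImplicit false
set_option linter.unusedSectionVars false

namespace Pool.Agent.H218Z.BW

open Alg

variable {X : Type} {𝒜 : Bool → Clone X} {V K : Type}

def congSetoid {D0 : Set X} {θ : Set (X × X)} (hθ : Cong (𝒜 true) θ D0) : Setoid D0 where
  r a b := (a.1, b.1) ∈ θ
  iseqv := ⟨fun a => hθ.refl a.1 a.2, fun h => hθ.symm _ _ h, fun h h' => hθ.trans _ _ _ h h'⟩

theorem exists_quot [∀ b, MinBW (𝒜 b)] [Finite X] {D0 : Set X} {θ : Set (X × X)}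
    (hD : ∀ b, Sub (𝒜 b) D0) (hθ : ∀ b, Cong (𝒜 b) θ D0) :
    ∃ (P : Type) (_ : Finite P) (_ : ∀ b, Alg (𝒜 b) P) (Q : Set (P × X)),
      (∀ b, Sub (𝒜 b) Q) ∧ SD Q Set.univ D0 ∧
      ∀ s s' a a', (s, a) ∈ Q → (s', a') ∈ Q → (s = s' ↔ (a, a') ∈ θ) := by
  let S := congSetoid (hθ true)
  have key : ∀ (b : Bool) {k : ℕ} (t : (𝒜 b).Op k) (x y : Fin k → D0), (∀ i, S.r (x i) (y i)) →
      Quotient.mk S ⟨op t (fun i => (x i).1), hD b k t _ (fun i => (x i).2)⟩ =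
      Quotient.mk S ⟨op t (fun i => (y i).1), hD b k t _ (fun i => (y i).2)⟩ := by
    intro b k t x y h
    exact Quotient.sound ((hθ b).sub k t (fun i => ((x i).1, (y i).1)) h)
  let inst : ∀ b, Alg (𝒜 b) (Quotient S) := fun b =>
    { op := fun t x => Quotient.mk S ⟨op t (fun i => (x i).out.1), hD b _ t _ (fun i => (x i).out.2)⟩
      op_proj := fun i x => by
        simp only [op_proj]
        exact Quotient.out_eq _
      op_comp := fun f g x => by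
        simp only [op_comp]
        exact key b f (fun i => ⟨op (g i) (fun j => (x j).out.1), hD b _ _ _ (fun j => (x j).out.2)⟩)
          _ (fun i => S.iseqv.symm (Quotient.mk_out (s := S) _)) }
  refine ⟨Quotient S, inferInstance, inst, {p | ∃ h : p.2 ∈ D0, Quotient.mk S ⟨p.2, h⟩ = p.1},
    fun b k t x hx => ?_, ⟨fun s a ⟨h, _⟩ => ⟨trivial, h⟩, fun s _ => ⟨s.out.1, s.out.2, s.out_eq⟩,
      fun a ha => ⟨Quotient.mk S ⟨a, ha⟩, ha, rfl⟩⟩, ?_⟩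
  · choose h1 h2 using hx
    refine ⟨hD b k t _ h1, ?_⟩
    refine key b t (fun i => ⟨(x i).2, h1 i⟩) (fun i => (x i).1.out) (fun i => ?_)
    apply Quotient.exact (s := S)
    rw [h2 i, Quotient.out_eq]
  · rintro s s' a a' ⟨h, e1⟩ ⟨h', e2⟩
    have e1' : Quotient.mk S ⟨a, h⟩ = s := e1
    have e2' : Quotient.mk S ⟨a', h'⟩ = s' := e2
    rw [← e1', ← e2']
    exact ⟨fun e => Quotient.exact (s := S) e, fun e => Quotient.sound (s := S) e⟩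

theorem exists_simple [∀ b, MinBW (𝒜 b)] [Finite X] (hc : Common 𝒜) {D0 : Set X}
    (hD : ∀ b, CF (𝒜 b) D0) {a0 a1 : X} (h0 : a0 ∈ D0) (h1 : a1 ∈ D0) (hne : a0 ≠ a1) :
    ∃ (P : Type) (_ : Finite P) (_ : ∀ b, Alg (𝒜 b) P) (Q : Set (P × X)),
      (∀ b, Simp (𝒜 b) P) ∧ (∀ b, Sub (𝒜 b) Q) ∧ SD Q Set.univ D0 ∧
      (∀ s s' a, (s, a) ∈ Q → (s', a) ∈ Q → s = s') ∧ ¬ ∀ x y : P, x = y := by
  obtain ⟨θ, ⟨hθ, hprop⟩, hmax⟩ := Set.Finite.exists_maximal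
    (s := {θ : Set (X × X) | Cong (𝒜 true) θ D0 ∧ ¬ ∀ a ∈ D0, ∀ b ∈ D0, (a, b) ∈ θ})
    (Set.toFinite _) ⟨{p | p.1 ∈ D0 ∧ p.1 = p.2},
      ⟨Sub.and (Sub.pre (by fun_prop) (hD true).sub) (Sub.eq (by fun_prop) (by fun_prop)),
        fun a b h => ⟨h.1, (show a = b from h.2) ▸ h.1⟩, fun a ha => ⟨ha, rfl⟩,
        fun a b h => ⟨(show a = b from h.2) ▸ h.1, h.2.symm⟩,
        fun a b c h h' => ⟨h.1, h.2.trans h'.2⟩⟩, fun h => hne (h a0 h0 a1 h1).2⟩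
  have hθ' : ∀ b, Cong (𝒜 b) θ D0 := fun b =>
    ⟨hc.sub2 _ _ _ hθ.sub, hθ.le, hθ.refl, hθ.symm, hθ.trans⟩
  obtain ⟨P, hP, inst, Q, hQ, hsd, hiff⟩ := exists_quot (fun b => (hD b).sub) hθ'
  have fn : ∀ s s' a, (s, a) ∈ Q → (s', a) ∈ Q → s = s' := fun s s' a h h' =>
    (hiff _ _ _ _ h h').mpr (hθ.refl a (hsd.le _ _ h).2)
  refine ⟨P, hP, inst, Q, fun b => ⟨⟨Sub.univ, fun C hC ⟨c, hc⟩ s _ => ?_⟩, fun η hη => ?_⟩, hQ, hsd,
    fn, fun h => hprop fun a ha b hb => ?_⟩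
  · obtain ⟨a, ha⟩ := hsd.left c trivial
    obtain ⟨a', ha'⟩ := hsd.left s trivial
    obtain ⟨s', h1, h2⟩ := (hD b).eq _ (hC.plus (hQ b) hsd) ⟨a, c, hc, ha⟩ (hsd.le _ _ ha').2
    rw [fn _ _ _ ha' h2]; exact h1
  · let θ' : Set (X × X) := {p | ∃ s, ∃ s', (s, p.1) ∈ Q ∧ (s', p.2) ∈ Q ∧ (s, s') ∈ η}
    have c' : Cong (𝒜 true) θ' D0 := by
      refine ⟨hc.sub2 b _ _ (Sub.ex (Sub.ex (Sub.and (Sub.pre (by fun_prop) (hQ b))
        (Sub.and (Sub.pre (by fun_prop) (hQ b)) (Sub.pre (by fun_prop) hη.sub))))),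
        fun a a' ⟨s, s', h1, h2, _⟩ => ⟨(hsd.le _ _ h1).2, (hsd.le _ _ h2).2⟩,
        fun a ha => ?_, fun a a' ⟨s, s', h1, h2, h3⟩ => ⟨s', s, h2, h1, hη.symm _ _ h3⟩,
        fun a a' a'' ⟨s, s', h1, h2, h3⟩ ⟨u, u', h4, h5, h6⟩ => ⟨s, u', h1, h5, ?_⟩⟩
      · obtain ⟨s, hs⟩ := hsd.right a ha
        exact ⟨s, s, hs, hs, hη.refl s trivial⟩
      · exact hη.trans _ _ _ h3 (by rw [fn _ _ _ h2 h4]; exact h6)
    by_cases hfull : ∀ a ∈ D0, ∀ b ∈ D0, (a, b) ∈ θ'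
    · left
      intro s s'
      obtain ⟨a, ha⟩ := hsd.left s trivial
      obtain ⟨a', ha'⟩ := hsd.left s' trivial
      obtain ⟨u, u', h1, h2, h3⟩ := hfull a (hsd.le _ _ ha).2 a' (hsd.le _ _ ha').2
      rw [fn _ _ _ ha h1, fn _ _ _ ha' h2]; exact h3
    · right
      have hle : θ ≤ θ' := by
        rintro ⟨a, a'⟩ h
        obtain ⟨s, hs⟩ := hsd.right a (hθ.le _ _ h).1
        obtain ⟨s', hs'⟩ := hsd.right a' (hθ.le _ _ h).2
        exact ⟨s, s', hs, hs', by rw [(hiff _ _ _ _ hs hs').mpr h]; exact hη.refl _ trivial⟩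
      intro s s' h
      obtain ⟨a, ha⟩ := hsd.left s trivial
      obtain ⟨a', ha'⟩ := hsd.left s' trivial
      exact (hiff _ _ _ _ ha ha').mpr (hmax ⟨c', hfull⟩ hle ⟨s, s', ha, ha', h⟩)
  · obtain ⟨s, hs⟩ := hsd.right a ha
    obtain ⟨s', hs'⟩ := hsd.right b hb
    exact (hiff _ _ _ _ hs hs').mp (h _ _)

variable {ι : K → Bool} {D : V → Set X} {R : K → Set (V → X)}
variable [∀ b, MinBW (𝒜 b)] [Finite X] [Finite V] [Finite K] [Nonempty K] [Nonempty V]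

/-- The data of the second reduction step. -/
structure BData (𝒜 : Bool → Clone X) (ι : K → Bool) (D : V → Set X) (R : K → Set (V → X))
    (x0 : V) (P : Type) [∀ b, Alg (𝒜 b) P] (Q : Set (P × X)) : Prop where
  hc : Common 𝒜
  arc : Arc 𝒜 ι D R
  cyc : Cyc D R
  cf : ∀ y b, CF (𝒜 b) (D y)
  simp : ∀ b, Simp (𝒜 b) P
  subQ : ∀ b, Sub (𝒜 b) Q
  sdQ : SD Q Set.univ (D x0)
  nt : ¬ ∀ x y : P, x = y

def red (D : V → Set X) (R : K → Set (V → X)) (x0 : V) {P : Type} (Q : Set (P × X)) (s0 : P)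
    (y : V) : Set X :=
  {a | a ∈ D y ∧ ∀ p : Path K x0 y, (s0, a) ∈ rcomp Q (p.rel R)}

variable {x0 : V} {P : Type} [Finite P] [∀ b, Alg (𝒜 b) P] {Q : Set (P × X)}

theorem BData.subρ (h : BData 𝒜 ι D R x0 P Q) (b : Bool) {y : V} (p : Path K x0 y) :
    Sub (𝒜 b) (rcomp Q (p.rel R)) := (h.subQ b).rcomp (h.arc.subRel h.hc b p)

theorem BData.sdρ (h : BData 𝒜 ι D R x0 P Q) {y : V} (p : Path K x0 y) :
    SD (rcomp Q (p.rel R)) Set.univ (D y) := h.sdQ.comp (h.arc.sd p)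

theorem BData.key (h : BData 𝒜 ι D R x0 P Q) (s0 : P) (b : Bool) {γ : Type} [Alg (𝒜 b) γ]
    [Finite γ] {Gb G : Set γ} (hG : Cen (𝒜 b) G Gb) (hcf : CF (𝒜 b) G) {I : Type} [Finite I]
    (u : I → γ → X) (hu : ∀ i, Hom (𝒜 b) (u i)) (y : I → V)
    (hp : ∀ i k, ∃ p : Path K (y i) (y k), (fun g => (u i g, u k g)) '' Gb = p.rel R)
    {g0 : γ} (hg0 : g0 ∈ G) (i1 i2 : I) (h1 : u i1 g0 ∈ red D R x0 Q s0 (y i1))
    (h2 : u i2 g0 ∈ red D R x0 Q s0 (y i2)) :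
    ∃ g ∈ G, u i1 g = u i1 g0 ∧ u i2 g = u i2 g0 ∧ ∀ i, u i g ∈ red D R x0 Q s0 (y i) := by
  classical
  choose q hq using hp
  have huD : ∀ i, ∀ g ∈ G, u i g ∈ D (y i) := fun i g hg =>
    ((h.arc.sd (q i i)).le (u i g) (u i g) (by rw [← hq]; exact ⟨g, hG.le hg, rfl⟩)).1
  have hcen : ∀ i k, Cen (𝒜 b) ((fun g => (u i g, u k g)) '' G) ((q i k).rel R) := fun i k => by
    rw [← hq]; exact hG.image (Hom.pair (hu i) (hu k))
  have onto : ∀ i, ∀ a ∈ D (y i), ∃ g ∈ G, u i g = a := by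
    intro i a ha
    have c := (hcen i i).image (f := fun p : X × X => p.1) (by fun_prop)
    rw [show (fun p : X × X => p.1) '' ((q i i).rel R) = D (y i) from by
      ext x
      exact ⟨fun ⟨p, hp, e⟩ => e ▸ ((h.arc.sd _).le _ _ hp).1, fun hx =>
        ((h.arc.sd (q i i)).left x hx).elim fun z hz => ⟨_, hz, rfl⟩⟩] at c
    obtain ⟨_, ⟨g, hg, rfl⟩, e⟩ := (h.cf _ b).eq _ c ⟨_, _, ⟨g0, hg0, rfl⟩, rfl⟩ ha
    exact ⟨g, hg, e⟩
  have tot : ∀ i (p : Path K x0 (y i)), ∀ g ∈ G, ∃ s, (s, u i g) ∈ rcomp Q (p.rel R) :=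
    fun i p g hg => (h.sdρ p).right _ (huD i g hg)
  have sur : ∀ i (p : Path K x0 (y i)) (s : P), ∃ g ∈ G, (s, u i g) ∈ rcomp Q (p.rel R) := by
    intro i p s
    obtain ⟨a, ha⟩ := (h.sdρ p).left s trivial
    obtain ⟨g, hg, rfl⟩ := onto i a ((h.sdρ p).le _ _ ha).2
    exact ⟨g, hg, ha⟩
  have side : ∀ i (p : Path K x0 (y i)) (k : I), u k g0 ∈ red D R x0 Q s0 (y k) →
      (∀ s, ∀ a ∈ D (y k), ∃ g ∈ G, (s, u i g) ∈ rcomp Q (p.rel R) ∧ u k g = a) ∨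
      ∀ g ∈ G, u k g = u k g0 → (s0, u i g) ∈ rcomp Q (p.rel R) := by
    intro i p k hk
    rcases (h.simp b).dich (h.subρ b (.comp p (q i k))) (h.cf _ b) (h.sdρ _) with full | fn
    · left
      have c := (hcen i k).comp_left (h.subρ b p)
      have c' : Cen (𝒜 b) (rcomp (rcomp Q (p.rel R)) ((fun g => (u i g, u k g)) '' G))
          ((Set.univ : Set P) ×ˢ D (y k)) := by
        convert c using 1
        ext ⟨s, a⟩
        constructor
        · rintro ⟨_, ha⟩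
          obtain ⟨x, k1, z, k2, k3⟩ := full s a ha
          exact ⟨z, ⟨x, k1, k2⟩, k3⟩
        · rintro ⟨z, _, k3⟩
          exact ⟨trivial, ((h.arc.sd _).le _ _ k3).2⟩
      obtain ⟨s1, hs1⟩ := tot i p g0 hg0
      intro s a ha
      obtain ⟨z, k1, g, hg, e⟩ := ((h.simp b).cf.prod (h.cf _ b)).eq _ c'
        ⟨(s1, u k g0), u i g0, hs1, g0, hg0, rfl⟩ (show (s, a) ∈ _ from ⟨trivial, ha⟩)
      obtain ⟨rfl, e2⟩ := Prod.mk.inj e
      exact ⟨g, hg, k1, e2⟩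
    · right
      intro g hg e
      obtain ⟨s, x, k1, k2⟩ := tot i p g hg
      have k3 : (s, u k g) ∈ rcomp Q ((Path.comp p (q i k)).rel R) :=
        ⟨x, k1, u i g, k2, (hcen i k).le ⟨g, hg, rfl⟩⟩
      rw [e] at k3
      rw [← fn _ _ _ k3 (hk.2 _)]
      exact ⟨x, k1, k2⟩
  let J := Σ i : I, {S : Set (P × X) // ∃ p : Path K x0 (y i), S = rcomp Q (p.rel R)}
  have := Fintype.ofFinite J
  have hπ : Hom (𝒜 b) (fun g => (u i1 g, u i2 g)) := Hom.pair (hu i1) (hu i2)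
  obtain ⟨g, hg, e, hall⟩ := (h.simp b).multi (J := J)
    (fun j => {z : γ × P | (z.2, u j.1 z.1) ∈ j.2.1})
    (fun j => by
      obtain ⟨i, S, p, rfl⟩ := j
      have := hu i
      exact Sub.pre (by fun_prop) (h.subρ b p))
    hπ (hcf.image hπ) s0 (u i1 g0, u i2 g0) ⟨g0, hg0, rfl⟩ Finset.univ G hcf.sub
    (fun g hg => ⟨g, hg, rfl⟩) ⟨g0, hg0, rfl⟩
    (by rintro ⟨i, S, p, rfl⟩ _ g hg; exact tot i p g hg)
    (by
      rintro ⟨i, S, p, rfl⟩ _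
      have := hu i
      have := hu i1
      have := hu i2
      have hΛ : Sub (𝒜 b) {z : P × (X × X) | ∃ g, g ∈ G ∧ (z.1, u i g) ∈ rcomp Q (p.rel R) ∧
          (u i1 g, u i2 g) = z.2} :=
        Sub.ex (Sub.and (Sub.pre (by fun_prop) hcf.sub) (Sub.and
          (Sub.pre (by fun_prop) (h.subρ b p)) (Sub.eq (by fun_prop) (by fun_prop))))
      rcases (h.simp b).dich hΛ (hcf.image hπ) ⟨fun s d ⟨g, hg, _, e⟩ => ⟨trivial, g, hg, e⟩,
        fun s _ => by obtain ⟨g, hg, k⟩ := sur i p s; exact ⟨_, g, hg, k, rfl⟩,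
        by
          rintro _ ⟨g, hg, rfl⟩
          obtain ⟨s, hs⟩ := tot i p g hg
          exact ⟨s, g, hg, hs, rfl⟩⟩ with full | fn
      · right
        intro d hd s
        obtain ⟨g, hg, k1, k2⟩ := full s d hd
        exact ⟨g, hg, k2, k1⟩
      · left
        rcases side i p i1 h1 with f1 | good
        swap
        · exact fun g hg e => good g hg (Prod.mk.inj e).1
        rcases side i p i2 h2 with f2 | good
        swap
        · exact fun g hg e => good g hg (Prod.mk.inj e).2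
        exfalso
        obtain ⟨s1, hs1⟩ := tot i p g0 hg0
        refine h.nt ((h.simp b).noslice _ {z : X × X × P | (z.2.2, (z.1, z.2.1)) ∈
          {z : P × (X × X) | ∃ g, g ∈ G ∧ (z.1, u i g) ∈ rcomp Q (p.rel R) ∧
          (u i1 g, u i2 g) = z.2}} rfl (Sub.pre (by fun_prop) hΛ)
          ⟨(u i1 g0, u i2 g0, s1), g0, hg0, hs1, rfl⟩
          (fun a c s s' k1 k2 => fn s s' (a, c) k1 k2) ?_ ?_)
        · rintro a c s ⟨g, hg, _, e⟩ s'
          obtain ⟨rfl, _⟩ := Prod.mk.inj e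
          obtain ⟨g', hg', k1, k2⟩ := f1 s' _ (huD i1 g hg)
          exact ⟨u i2 g', g', hg', k1, by rw [k2]⟩
        · rintro a c s ⟨g, hg, _, e⟩ s'
          obtain ⟨_, rfl⟩ := Prod.mk.inj e
          obtain ⟨g', hg', k1, k2⟩ := f2 s' _ (huD i2 g hg)
          exact ⟨u i1 g', g', hg', k1, by rw [k2]⟩)
    (by
      rintro ⟨i, S, p, rfl⟩ _ ⟨k, S', p', rfl⟩ _
      right; right
      have hs : Sub (𝒜 b) (rcomp (rcomp (rcomp Q (p.rel R)) ((q i k).rel R))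
          (rinv (rcomp Q (p'.rel R)))) :=
        ((h.subρ b p).rcomp (h.arc.subRel h.hc b _)).rcomp (h.subρ b p').rinv
      have hsd := ((h.sdρ p).comp (h.arc.sd (q i k))).comp (h.sdρ p').inv
      rcases (h.simp b).dich hs (h.simp b).cf hsd with full | fn
      · right
        have c := ((hcen i k).comp_left (h.subρ b p)).comp_right (h.subρ b p').rinv
        rw [show rcomp (rcomp (rcomp Q (p.rel R)) ((q i k).rel R)) (rinv (rcomp Q (p'.rel R))) =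
          (Set.univ : Set P) ×ˢ (Set.univ : Set P) from by
            ext ⟨s, s'⟩; exact ⟨fun _ => ⟨trivial, trivial⟩, fun _ => full s s' trivial⟩] at c
        obtain ⟨s1, hs1⟩ := tot i p g0 hg0
        obtain ⟨s2, hs2⟩ := tot k p' g0 hg0
        intro s s'
        obtain ⟨c1, ⟨a1, k1, g, hg, e⟩, k2⟩ := ((h.simp b).cf.prod (h.simp b).cf).eq _ c
          ⟨(s1, s2), u k g0, ⟨u i g0, hs1, g0, hg0, rfl⟩, hs2⟩
          (show (s, s') ∈ _ from ⟨trivial, trivial⟩)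
        obtain ⟨rfl, rfl⟩ := Prod.mk.inj e
        exact ⟨g, hg, k1, k2⟩
      · left
        intro g hg s hs1
        obtain ⟨s', hs2⟩ := tot k p' g hg
        have k1 : (s, s') ∈ rcomp (rcomp (rcomp Q (p.rel R)) ((q i k).rel R))
            (rinv (rcomp Q (p'.rel R))) :=
          ⟨u k g, ⟨u i g, hs1, (hcen i k).le ⟨g, hg, rfl⟩⟩, hs2⟩
        have k2 : (s', s') ∈ rcomp (rcomp (rcomp Q (p.rel R)) ((q i k).rel R))
            (rinv (rcomp Q (p'.rel R))) := by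
          obtain ⟨a, ha⟩ := h.sdQ.left s' trivial
          obtain ⟨c1, ⟨a1, m1, m2⟩, m3⟩ := h.cyc x0 (.comp (.comp p (q i k)) p'.rev) a
            (h.sdQ.le _ _ ha).2
          exact ⟨c1, ⟨a1, ⟨a, ha, m1⟩, m2⟩, a, ha, (p'.rel_rev R _ _).mp m3⟩
        rw [fn _ _ _ k1 k2]
        exact hs2)
  obtain ⟨e1, e2⟩ := Prod.mk.inj e
  exact ⟨g, hg, e1, e2, fun i => ⟨huD i g hg, fun p => hall ⟨i, _, p, rfl⟩ (Finset.mem_univ _)⟩⟩

end Pool.Agent.H218Z.BW
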