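import Pool.Agent.H218Z.BW.MixedB

set_option autoImplicit false
set_option linter.unusedSectionVars false

namespace Pool.Agent.H218Z.BW

open Alg

variable {X : Type} {𝒜 : Bool → Clone X} {V K : Type}
variable {ι : K → Bool} {D : V → Set X} {R : K → Set (V → X)}
variable [∀ b, MinBW (𝒜 b)] [Finite X] [Finite V] [Finite K] [Nonempty K] [Nonempty V]
variable {x0 : V} {P : Type} [Finite P] [∀ b, Alg (𝒜 b) P] {Q : Set (P × X)}

theorem BData.sub_red (h : BData 𝒜 ι D R x0 P Q) (s0 : P) (b : Bool) (y : V) :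
    Sub (𝒜 b) (red D R x0 Q s0 y) :=
  Sub.and (h.cf y b).sub (Sub.all fun p => Sub.pre (by fun_prop) (h.subρ b p))

theorem BData.ext (h : BData 𝒜 ι D R x0 P Q) (s0 : P) (κ : K) (hcf : CF (𝒜 (ι κ)) (R κ))
    {r : V → X} (hr : r ∈ R κ) (y z : V) (hy : r y ∈ red D R x0 Q s0 y)
    (hz : r z ∈ red D R x0 Q s0 z) :
    ∃ r' ∈ {r | r ∈ R κ ∧ ∀ w, r w ∈ red D R x0 Q s0 w}, r' y = r y ∧ r' z = r z := by
  obtain ⟨g, hg, e1, e2, h3⟩ := h.key s0 (ι κ) (Cen.refl (h.arc.sub κ)) hcf (I := V)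
    (fun w r => r w) (fun w => by fun_prop) (fun w => w) (fun i k => ⟨.step κ i k, rfl⟩) hr y z hy hz
  exact ⟨g, ⟨hg, h3⟩, e1, e2⟩

theorem BData.mc_path (h : BData 𝒜 ι D R x0 P Q) (s0 : P) (hcf : ∀ κ, CF (𝒜 (ι κ)) (R κ))
    {y z : V} (p : Path K y z) : ∀ T : Set (X × X), Cen (𝒜 true) T (p.rel R) → CF (𝒜 true) T →
    ∀ a c, (a, c) ∈ T → a ∈ red D R x0 Q s0 y → c ∈ red D R x0 Q s0 z →
    (a, c) ∈ p.rel (fun κ => {r | r ∈ R κ ∧ ∀ w, r w ∈ red D R x0 Q s0 w}) := by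
  induction p with
  | step κ y z =>
    intro T hT _ a c hac ha hc
    obtain ⟨r, hr, e⟩ := hT.le hac
    obtain ⟨rfl, rfl⟩ := Prod.mk.inj e
    obtain ⟨r', hr', e1, e2⟩ := h.ext s0 κ (hcf κ) hr y z ha hc
    exact ⟨r', hr', Prod.ext e1 e2⟩
  | @comp y z w p q ihp ihq =>
    intro T hT hTcf a c hac ha hc
    obtain ⟨κ0⟩ := ‹Nonempty K›
    have sp := h.arc.sd p
    have sq := h.arc.sd q
    let Gb : Set (X × X × X) := {g | (g.1, g.2.1) ∈ p.rel R ∧ (g.2.1, g.2.2) ∈ q.rel R}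
    have hGb : Sub (𝒜 true) Gb := Sub.and (Sub.pre (by fun_prop) (h.arc.subRel h.hc true p))
      (Sub.pre (by fun_prop) (h.arc.subRel h.hc true q))
    have i01 : (fun g : X × X × X => (g.1, g.2.1)) '' Gb = p.rel R := by
      ext ⟨x1, x2⟩
      constructor
      · rintro ⟨g, hg, e⟩; rw [← e]; exact hg.1
      · intro hx
        obtain ⟨x3, h3⟩ := sq.left x2 (sp.le _ _ hx).2
        exact ⟨(x1, x2, x3), ⟨hx, h3⟩, rfl⟩
    have i12 : (fun g : X × X × X => (g.2.1, g.2.2)) '' Gb = q.rel R := by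
      ext ⟨x2, x3⟩
      constructor
      · rintro ⟨g, hg, e⟩; rw [← e]; exact hg.2
      · intro hx
        obtain ⟨x1, h1⟩ := sp.right x2 (sq.le _ _ hx).1
        exact ⟨(x1, x2, x3), ⟨h1, hx⟩, rfl⟩
    have i02 : (fun g : X × X × X => (g.1, g.2.2)) '' Gb = (p.comp q).rel R := by
      ext ⟨x1, x3⟩
      constructor
      · rintro ⟨g, hg, e⟩; rw [← e]; exact ⟨g.2.1, hg.1, hg.2⟩
      · rintro ⟨x2, h1, h2⟩
        exact ⟨(x1, x2, x3), ⟨h1, h2⟩, rfl⟩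
    have rv : ∀ {f f' : X × X × X → X} {y z : V} (p : Path K y z),
        (fun g => (f g, f' g)) '' Gb = p.rel R → (fun g => (f' g, f g)) '' Gb = p.rev.rel R := by
      intro f f' y z p hp
      ext ⟨x1, x2⟩
      rw [p.rel_rev, ← hp]
      constructor <;>
      · rintro ⟨g, hg, e⟩
        obtain ⟨rfl, rfl⟩ := Prod.mk.inj e
        exact ⟨g, hg, rfl⟩
    have dg : ∀ {f f' : X × X × X → X} {y z : V} (p : Path K y z),
        (fun g => (f g, f' g)) '' Gb = p.rel R →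
        (fun g => (f g, f g)) '' Gb = (Path.step κ0 y y).rel R := by
      intro f f' y z p hp
      ext ⟨x1, x2⟩
      constructor
      · rintro ⟨g, hg, e⟩
        obtain ⟨rfl, rfl⟩ := Prod.mk.inj e
        obtain ⟨r, hr, e⟩ := h.arc.onto κ0 y (f g)
          ((h.arc.sd p).le _ (f' g) (by rw [← hp]; exact ⟨g, hg, rfl⟩)).1
        exact ⟨r, hr, by simp [e]⟩
      · rintro ⟨r, hr, e⟩
        obtain ⟨rfl, rfl⟩ := Prod.mk.inj e
        obtain ⟨x, hx⟩ := (h.arc.sd p).left _ (h.arc.le κ0 r hr y)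
        rw [← hp] at hx
        obtain ⟨g, hg, e⟩ := hx
        exact ⟨g, hg, by simp [(Prod.mk.inj e).1]⟩
    obtain ⟨b0, k1, k2⟩ := hT.le hac
    obtain ⟨G, hG1, hG2, hG3, hG4⟩ := exists_mc
      (Cen.pre (f := fun g : X × X × X => (g.1, g.2.2)) (by fun_prop) hGb hT
        (fun g hg => ⟨g.2.1, hg.1, hg.2⟩)) ⟨(a, b0, c), ⟨k1, k2⟩, hac⟩
    have c02 := hG2.image (f := fun g : X × X × X => (g.1, g.2.2)) (by fun_prop)
    rw [i02] at c02
    obtain ⟨g0, hg0, e0⟩ := hTcf.eq _ (c02.of_le hT.subC hT.le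
      (by rintro _ ⟨g, hg, rfl⟩; exact (hG1 hg).2)) (hG3.image _) hac
    obtain ⟨e1, e2⟩ := Prod.mk.inj e0
    obtain ⟨g, hg, f1, f2, h3⟩ := h.key s0 true hG2 hG4 (I := Fin 3)
      ![fun g => g.1, fun g => g.2.1, fun g => g.2.2]
      (fun i => by fin_cases i <;> (simp only [Fin.zero_eta, Fin.mk_one, Fin.reduceFinMk,
        Matrix.cons_val_zero, Matrix.cons_val_one, Matrix.cons_val]; fun_prop))
      ![y, z, w] (fun i k => by
        fin_cases i <;> fin_cases k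
        · exact ⟨_, dg p i01⟩
        · exact ⟨_, i01⟩
        · exact ⟨_, i02⟩
        · exact ⟨_, rv p i01⟩
        · exact ⟨_, dg q i12⟩
        · exact ⟨_, i12⟩
        · exact ⟨_, rv _ i02⟩
        · exact ⟨_, rv q i12⟩
        · exact ⟨_, dg _ (rv q i12)⟩) hg0 0 2 (by rw [← e1] at ha; exact ha)
        (by rw [← e2] at hc; exact hc)
    have f1' : g.1 = a := f1.trans e1
    have f2' : g.2.2 = c := f2.trans e2
    have c01 := hG2.image (f := fun g : X × X × X => (g.1, g.2.1)) (by fun_prop)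
    have c12 := hG2.image (f := fun g : X × X × X => (g.2.1, g.2.2)) (by fun_prop)
    rw [i01] at c01
    rw [i12] at c12
    exact ⟨g.2.1, ihp _ c01 (hG4.image (by fun_prop)) a g.2.1 ⟨g, hg, by simp [f1']⟩ ha (h3 1),
      ihq _ c12 (hG4.image (by fun_prop)) g.2.1 c ⟨g, hg, by simp [f2']⟩ (h3 1) hc⟩

/-- The reduction along a maximal congruence. -/
theorem stepB (hc : Common 𝒜) (h : Arc 𝒜 ι D R) (hcyc : Cyc D R) (hcf : ∀ κ, CF (𝒜 (ι κ)) (R κ))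
    {x0 : V} {a0 a1 : X} (h0 : a0 ∈ D x0) (h1 : a1 ∈ D x0) (hne : a0 ≠ a1) :
    ∃ (E : V → Set X) (R' : K → Set (V → X)), Arc 𝒜 ι E R' ∧ Cyc E R' ∧ (∀ κ, R' κ ⊆ R κ) ∧
      (∀ y, E y ⊆ D y) ∧ ¬ D x0 ⊆ E x0 := by
  obtain ⟨κ0⟩ := ‹Nonempty K›
  have cfD : ∀ y b, CF (𝒜 b) (D y) := fun y b => by
    rw [← h.image κ0 y]; exact hc.cf b ((hcf κ0).image (by fun_prop))
  obtain ⟨P, hP, inst, Q, hS, hQ, hsd, fn, nt⟩ := exists_simple hc (cfD x0) h0 h1 hne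
  have hB : BData 𝒜 ι D R x0 P Q := ⟨hc, h, hcyc, cfD, hS, hQ, hsd, nt⟩
  obtain ⟨s0, hs0⟩ := hsd.right a0 h0
  have r0 : a0 ∈ red D R x0 Q s0 x0 := ⟨h0, fun p => ⟨a0, hs0, hcyc x0 p a0 h0⟩⟩
  have onto : ∀ κ y, ∀ a ∈ red D R x0 Q s0 y,
      ∃ r ∈ {r | r ∈ R κ ∧ ∀ w, r w ∈ red D R x0 Q s0 w}, r y = a := by
    intro κ y a ha
    obtain ⟨r, hr, rfl⟩ := h.onto κ y a ha.1
    obtain ⟨r', hr', e, _⟩ := hB.ext s0 κ (hcf κ) hr y y ha ha
    exact ⟨r', hr', e⟩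
  refine ⟨red D R x0 Q s0, fun κ => {r | r ∈ R κ ∧ ∀ w, r w ∈ red D R x0 Q s0 w},
    ⟨fun κ => Sub.and (h.sub κ) (Sub.all fun w => Sub.pre (by fun_prop) (hB.sub_red s0 _ w)),
      fun κ r hr => hr.2, onto, fun y => ?_⟩, fun y p a ha => ?_, fun κ r hr => hr.1,
    fun y a ha => ha.1, fun hle => nt ?_⟩
  · obtain ⟨r, hr, _⟩ := onto κ0 x0 a0 r0
    exact ⟨_, hr.2 y⟩
  · obtain ⟨T, -, hT, ⟨t, ht⟩, hTcf⟩ := exists_mc (Cen.refl (h.subRel hc true p))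
      ⟨_, hcyc y p a ha.1⟩
    have sd := h.sd p
    have c1 := hT.image (f := fun g : X × X => g.1) (by fun_prop)
    have c2 := hT.image (f := fun g : X × X => g.2) (by fun_prop)
    rw [show (fun g : X × X => g.1) '' p.rel R = D y from by
      ext x
      exact ⟨fun ⟨g, hg, e⟩ => e ▸ (sd.le _ _ hg).1, fun hx => ⟨_, hcyc y p x hx, rfl⟩⟩] at c1
    rw [show (fun g : X × X => g.2) '' p.rel R = D y from by
      ext x
      exact ⟨fun ⟨g, hg, e⟩ => e ▸ (sd.le _ _ hg).2, fun hx => ⟨_, hcyc y p x hx, rfl⟩⟩] at c2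
    refine hB.mc_path s0 hcf p T hT hTcf a a (loop_cf (cfD y true) (hcyc y p) hT
      (fun x hx => ?_) (fun x hx => ?_) a ha.1) ha ha
    · obtain ⟨g, hg, rfl⟩ := (cfD y true).eq _ c1 ⟨_, t, ht, rfl⟩ hx
      exact ⟨g.2, (sd.le _ _ (hT.le hg)).2, hg⟩
    · obtain ⟨g, hg, rfl⟩ := (cfD y true).eq _ c2 ⟨_, t, ht, rfl⟩ hx
      exact ⟨g.1, (sd.le _ _ (hT.le hg)).1, hg⟩
  · suffices k : ∀ s, s = s0 from fun x y => (k x).trans (k y).symm
    intro s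
    obtain ⟨a, ha⟩ := hsd.left s trivial
    obtain ⟨a', k1, r, _, e⟩ := (hle (hsd.le _ _ ha).2).2 (.step κ0 x0 x0)
    obtain ⟨e1, e2⟩ := Prod.mk.inj e
    have e3 : a' = a := e1.symm.trans e2
    rw [e3] at k1
    exact fn _ _ _ ha k1

/-- Cycle-consistent mixed instances have solutions inside any path-compatible central family. -/
theorem mixed_solution (hc : Common 𝒜) (n : ℕ) : ∀ (D : V → Set X) (R : K → Set (V → X)),
    {p : V × X | p.2 ∈ D p.1}.ncard = n → Arc 𝒜 ι D R → Cyc D R → ∀ U : V → Set X,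
    (∀ y, Cen (𝒜 true) (U y) (D y)) → PP R U → ∃ σ : V → X, (∀ κ, σ ∈ R κ) ∧ ∀ y, σ y ∈ U y := by
  induction n using Nat.strong_induction_on with
  | _ n ih =>
  intro D R hn h hcyc U hU hpp
  obtain ⟨E, R', arc, cyc, hR, hEU, hcf⟩ := stepA hc h hcyc hU hpp
  by_cases hs : ∀ y, ∀ a ∈ E y, ∀ b ∈ E y, a = b
  · choose σ hσ using arc.ne
    refine ⟨σ, fun κ => ?_, fun y => hEU y (hσ y)⟩
    obtain ⟨r, hr⟩ := arc.neR κ
    have : r = σ := funext fun y => hs y _ (arc.le κ r hr y) _ (hσ y)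
    rw [← this]; exact hR κ hr
  · push Not at hs
    obtain ⟨x0, a0, h0, a1, h1, hne⟩ := hs
    obtain ⟨E', R'', arc', cyc', hR', hE', hprop⟩ := stepB hc arc cyc hcf h0 h1 hne
    obtain ⟨a, ha, han⟩ := Set.not_subset.mp hprop
    obtain ⟨σ, k1, k2⟩ := ih {p : V × X | p.2 ∈ E' p.1}.ncard (by
      rw [← hn]
      refine Set.ncard_lt_ncard ⟨fun p hp => (hU _).le (hEU _ (hE' _ hp)), fun hle => han ?_⟩
        (Set.toFinite _)
      exact hle (show (x0, a) ∈ {p : V × X | p.2 ∈ D p.1} from (hU _).le (hEU _ ha)))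
      E' R'' rfl arc' cyc' E' (fun y => Cen.refl (arc'.subD hc true y)) arc'.pp
    exact ⟨σ, fun κ => hR κ (hR' κ (k1 κ)), fun y => hEU y (hE' y (k2 y))⟩

end Pool.Agent.H218Z.BW
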