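import Pool.Agent.H218Z.BW.Absorb

set_option autoImplicit false
set_option linter.unusedSectionVars false

namespace Pool.Agent.H218Z.BW

open Alg

variable {X : Type} {A : Clone X} {α β γ δ P : Type}

/-- Simple centre-free algebras. -/
structure Simp (A : Clone X) (P : Type) [Alg A P] : Prop where
  cf : CF A (Set.univ : Set P)
  simple : ∀ θ, Cong A θ (Set.univ : Set P) → (∀ a b, (a, b) ∈ θ) ∨ ∀ a b, (a, b) ∈ θ → a = b

section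
variable [Alg A α] [Alg A β] [Alg A γ] [Alg A P] [MinBW A] [Finite X] [Finite P]

theorem Simp.dich [Finite β] (hP : Simp A P) {R : Set (P × β)} {D : Set β} (hR : Sub A R)
    (hD : CF A D) (hsd : SD R Set.univ D) :
    (∀ s, ∀ d ∈ D, (s, d) ∈ R) ∨ ∀ s s' d, (s, d) ∈ R → (s', d) ∈ R → s = s' := by
  rcases absorption hR hP.cf hD hsd with h | ⟨θ, hθ, hprop, hlink⟩
  · exact Or.inl (fun s => h s trivial)
  · rcases hP.simple θ hθ with h | h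
    · exact absurd (fun a _ b _ => h a b) hprop
    · exact Or.inr (fun s s' d h1 h2 => h _ _ (hlink _ _ _ h1 h2))

theorem Sub.tri3 {S : Set (α × β × γ)} (hS : Sub A S) (v : A.Op 3) {a1 a2 a3 : α} {b1 b2 b3 : β}
    {c1 c2 c3 : γ} (h1 : (a1, b1, c1) ∈ S) (h2 : (a2, b2, c2) ∈ S) (h3 : (a3, b3, c3) ∈ S) :
    (op v ![a1, a2, a3], op v ![b1, b2, b3], op v ![c1, c2, c3]) ∈ S := by
  have := hS.op3 v h1 h2 h3
  convert this using 1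
  refine Prod.ext ?_ (Prod.ext ?_ ?_) <;>
    (show op v _ = op v _; congr 1; funext i; fin_cases i <;> rfl)

theorem Sub.tri4 {S : Set (α × β × γ)} (hS : Sub A S) (v : A.Op 4) {a1 a2 a3 a4 : α}
    {b1 b2 b3 b4 : β} {c1 c2 c3 c4 : γ} (h1 : (a1, b1, c1) ∈ S) (h2 : (a2, b2, c2) ∈ S)
    (h3 : (a3, b3, c3) ∈ S) (h4 : (a4, b4, c4) ∈ S) :
    (op v ![a1, a2, a3, a4], op v ![b1, b2, b3, b4], op v ![c1, c2, c3, c4]) ∈ S := by
  have := hS.op4 v h1 h2 h3 h4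
  convert this using 1
  refine Prod.ext ?_ (Prod.ext ?_ ?_) <;>
    (show op v _ = op v _; congr 1; funext i; fin_cases i <;> rfl)

/-- No nontrivial affine behaviour in the presence of a linked pair. -/
theorem aff {ρ : Set (α × β × P)} (hρ : Sub A ρ) {D1 : Set α} {D2 : Set β}
    (tot : ∀ a ∈ D1, ∀ b ∈ D2, ∃ s, (a, b, s) ∈ ρ)
    (le : ∀ a b s, (a, b, s) ∈ ρ → a ∈ D1 ∧ b ∈ D2)
    (s1 : ∀ a ∈ D1, ∀ s, ∃ b, (a, b, s) ∈ ρ) (s2 : ∀ b ∈ D2, ∀ s, ∃ a, (a, b, s) ∈ ρ)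
    (k1 : ∀ a a' b b' s s1 s2, (a, b, s) ∈ ρ → (a', b, s) ∈ ρ → (a, b', s1) ∈ ρ →
      (a', b', s2) ∈ ρ → s1 = s2)
    (k2 : ∀ a a' b b' s s1 s2, (a, b, s) ∈ ρ → (a, b', s) ∈ ρ → (a', b, s1) ∈ ρ →
      (a', b', s2) ∈ ρ → s1 = s2)
    {a0 : α} (ha0 : a0 ∈ D1) {b0 : β} (hb0 : b0 ∈ D2) : ∀ x y : P, x = y := by
  let S : Set (P × P × P) :=
    {p | ∃ a, ∃ b, (a, b0, p.1) ∈ ρ ∧ (a0, b, p.2.1) ∈ ρ ∧ (a, b, p.2.2) ∈ ρ}
  have hS : Sub A S := Sub.ex (Sub.ex (Sub.and (Sub.pre (by fun_prop) hρ)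
    (Sub.and (Sub.pre (by fun_prop) hρ) (Sub.pre (by fun_prop) hρ))))
  have fn : ∀ x y z z', (x, y, z) ∈ S → (x, y, z') ∈ S → z = z' := by
    rintro x y z z' ⟨a, b, h1, h2, h3⟩ ⟨a', b', h4, h5, h6⟩
    obtain ⟨z'', h7⟩ := tot a' (le _ _ _ h4).1 b (le _ _ _ h2).2
    exact (k1 _ _ _ _ _ _ _ h1 h4 h3 h7).trans (k2 _ _ _ _ _ _ _ h2 h5 h7 h6)
  have canc : ∀ x x' y z, (x, y, z) ∈ S → (x', y, z) ∈ S → x = x' := by
    rintro x x' y z ⟨a, b, h1, h2, h3⟩ ⟨a', b', h4, h5, h6⟩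
    obtain ⟨z'', h7⟩ := tot a' (le _ _ _ h4).1 b (le _ _ _ h2).2
    have := k2 _ _ _ _ _ _ _ h2 h5 h7 h6
    subst this
    exact k1 _ _ _ _ _ _ _ h3 h7 h1 h4
  obtain ⟨e, he⟩ := tot a0 ha0 b0 hb0
  have r1 : ∀ x, (x, e, x) ∈ S := fun x => by
    obtain ⟨a, ha⟩ := s2 b0 hb0 x; exact ⟨a, b0, ha, he, ha⟩
  have r2 : ∀ y, (e, y, y) ∈ S := fun y => by
    obtain ⟨b, hb⟩ := s1 a0 ha0 y; exact ⟨a0, b, he, hb, hb⟩
  obtain ⟨v, w, hl0⟩ := exists_linked A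
  have hl : Linked (α := P) (op v) (op w) := hl0.transfer
  suffices h : ∀ y, y = e from fun x y => (h x).trans (h y).symm
  intro y
  set ψ := op v ![y, e, e] with hψ
  have v2 : op v ![e, y, e] = ψ := (hl.v12 _ _).symm
  have v3 : op v ![e, e, y] = ψ := by rw [← hl.v23, v2]
  have w1 : op w ![y, e, e, e] = ψ := (hl.vw _ _).symm
  have w2 : op w ![e, y, e, e] = ψ := by rw [← hl.w12, w1]
  have w3 : op w ![e, e, y, e] = ψ := by rw [← hl.w23, w2]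
  have w4 : op w ![e, e, e, y] = ψ := by rw [← hl.w34, w3]
  have p1 := hS.tri3 v (r1 e) (r1 y) (r2 y)
  have p2 := hS.tri3 v (r1 y) (r2 y) (r2 y)
  have q1 := hS.tri4 w (r1 e) (r1 e) (r1 y) (r2 y)
  have q2 := hS.tri4 w (r1 e) (r1 y) (r2 y) (r2 y)
  have q3 := hS.tri4 w (r1 y) (r2 y) (r2 y) (r2 y)
  rw [v2, v3] at p1
  rw [← hψ, hl.vi] at p2
  rw [w3, w4] at q1
  rw [w2, ← fn _ _ _ _ p1 q1] at q2
  rw [w1, hl.wi, ← fn _ _ _ _ p2 q2] at q3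
  have e1 : ψ = e := canc _ _ _ _ q3 (r2 y)
  rw [e1] at p1 p2
  rw [fn _ _ _ _ p1 (r1 e)] at p2
  exact fn _ _ _ _ p2 (r1 e)

theorem Simp.b2 [Finite α] (hP : Simp A P) {ρ : Set (α × P × P)} (hρ : Sub A ρ) {D : Set α}
    (hD : CF A D) (le : ∀ a s s', (a, s, s') ∈ ρ → a ∈ D)
    (p12 : ∀ a ∈ D, ∀ s, ∃ s', (a, s, s') ∈ ρ) (p13 : ∀ a ∈ D, ∀ s', ∃ s, (a, s, s') ∈ ρ)
    (p23 : ∀ s s', ∃ a, (a, s, s') ∈ ρ) : ∀ a ∈ D, ∀ s s', (a, s, s') ∈ ρ := by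
  intro a ha s s'
  rcases hP.dich (R := {p : P × (α × P) | (p.2.1, p.1, p.2.2) ∈ ρ}) (Sub.pre (by fun_prop) hρ)
    (hD.prod hP.cf) ⟨fun s p h => ⟨trivial, le _ _ _ h, trivial⟩,
      fun s _ => by obtain ⟨s', h⟩ := p12 a ha s; exact ⟨(a, s'), h⟩,
      fun p hp => p13 p.1 hp.1 p.2⟩ with h | f1
  · exact h s (a, s') ⟨ha, trivial⟩
  rcases hP.dich (R := {p : P × (α × P) | (p.2.1, p.2.2, p.1) ∈ ρ}) (Sub.pre (by fun_prop) hρ)
    (hD.prod hP.cf) ⟨fun s p h => ⟨trivial, le _ _ _ h, trivial⟩,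
      fun s _ => by obtain ⟨s', h⟩ := p13 a ha s; exact ⟨(a, s'), h⟩,
      fun p hp => p12 p.1 hp.1 p.2⟩ with h | f2
  · exact h s' (a, s) ⟨ha, trivial⟩
  have triv : ∀ x y : P, x = y := by
    refine aff (D1 := D) (D2 := Set.univ) hρ (fun a ha b _ => p12 a ha b)
      (fun a b s h => ⟨le _ _ _ h, trivial⟩) p13 (fun b _ s => p23 b s) ?_ ?_ ha (b0 := s) trivial
    · intro x x' b b' t t1 t2 h1 h2 h3 h4
      rcases hP.dich (R := {p : P × P | ∃ d, (d, b', p.1) ∈ ρ ∧ (d, b, p.2) ∈ ρ})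
        (Sub.ex (Sub.and (Sub.pre (by fun_prop) hρ) (Sub.pre (by fun_prop) hρ))) hP.cf
        ⟨fun _ _ _ => ⟨trivial, trivial⟩,
          fun u _ => by
            obtain ⟨d, hd⟩ := p23 b' u
            obtain ⟨u', hu'⟩ := p12 d (le _ _ _ hd) b
            exact ⟨u', d, hd, hu'⟩,
          fun u _ => by
            obtain ⟨d, hd⟩ := p23 b u
            obtain ⟨u', hu'⟩ := p12 d (le _ _ _ hd) b'
            exact ⟨u', d, hu', hd⟩⟩ with h | h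
      · obtain ⟨d, h5, h6⟩ := h t t trivial
        have := f1 b' b (d, t) h5 h6
        subst this
        exact (f2 t1 t (x, b') h3 h1).trans (f2 t t2 (x', b') h2 h4)
      · exact h t1 t2 t ⟨x, h3, h1⟩ ⟨x', h4, h2⟩
    · intro x x' b b' t t1 t2 h1 h2 h3 h4
      have := f1 b b' (x, t) h1 h2
      subst this
      exact f2 t1 t2 (x', b) h3 h4
  obtain ⟨s'', h⟩ := p12 a ha s
  rwa [triv s' s'']

theorem Simp.kernel [Finite α] [Finite β] (hP : Simp A P) {ρ : Set (α × β × P)} (hρ : Sub A ρ)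
    {D1 : Set α} {D2 : Set β} (hD2 : CF A D2)
    (tot : ∀ a ∈ D1, ∀ b ∈ D2, ∃ s, (a, b, s) ∈ ρ)
    (le : ∀ a b s, (a, b, s) ∈ ρ → a ∈ D1 ∧ b ∈ D2)
    (fn : ∀ a b s s', (a, b, s) ∈ ρ → (a, b, s') ∈ ρ → s = s')
    (s2 : ∀ b ∈ D2, ∀ s, ∃ a, (a, b, s) ∈ ρ) :
    ∀ a a' b b' s s1 s2, (a, b, s) ∈ ρ → (a', b, s) ∈ ρ → (a, b', s1) ∈ ρ →
      (a', b', s2) ∈ ρ → s1 = s2 := by
  intro x x' b b' t t1 t2 h1 h2 h3 h4
  have hb := (le _ _ _ h1).2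
  have hb' := (le _ _ _ h3).2
  rcases hP.dich (R := {p : P × P | ∃ d, (d, b', p.1) ∈ ρ ∧ (d, b, p.2) ∈ ρ})
    (Sub.ex (Sub.and (Sub.pre (by fun_prop) hρ) (Sub.pre (by fun_prop) hρ))) hP.cf
    ⟨fun _ _ _ => ⟨trivial, trivial⟩,
      fun u _ => by
        obtain ⟨d, hd⟩ := s2 b' hb' u
        obtain ⟨u', hu'⟩ := tot d (le _ _ _ hd).1 b hb
        exact ⟨u', d, hd, hu'⟩,
      fun u _ => by
        obtain ⟨d, hd⟩ := s2 b hb u
        obtain ⟨u', hu'⟩ := tot d (le _ _ _ hd).1 b' hb'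
        exact ⟨u', d, hu', hd⟩⟩ with h | h
  · have := hP.b2 (ρ := {p : β × P × P | ∃ d, (d, p.1, p.2.1) ∈ ρ ∧ (d, b, p.2.2) ∈ ρ})
      (Sub.ex (Sub.and (Sub.pre (by fun_prop) hρ) (Sub.pre (by fun_prop) hρ))) hD2
      (fun y u u' ⟨d, k, _⟩ => (le _ _ _ k).2)
      (fun y hy u => by
        obtain ⟨d, hd⟩ := s2 y hy u
        obtain ⟨u', hu'⟩ := tot d (le _ _ _ hd).1 b hb
        exact ⟨u', d, hd, hu'⟩)
      (fun y hy u => by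
        obtain ⟨d, hd⟩ := s2 b hb u
        obtain ⟨u', hu'⟩ := tot d (le _ _ _ hd).1 y hy
        exact ⟨u', d, hu', hd⟩)
      (fun u u' => ⟨b', h u u' trivial⟩)
    obtain ⟨d, k1, k2⟩ := this b hb t1 t2
    exact fn _ _ _ _ k1 k2
  · exact h t1 t2 t ⟨x, h3, h1⟩ ⟨x', h4, h2⟩

/-- A homomorphism from a binary relation onto a simple centre-free algebra cannot be surjective on
all slices. -/
theorem Simp.noslice [Finite α] [Finite β] (hP : Simp A P) (n : ℕ) :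
    ∀ ρ : Set (α × β × P), ρ.ncard = n → Sub A ρ → ρ.Nonempty →
    (∀ a b s s', (a, b, s) ∈ ρ → (a, b, s') ∈ ρ → s = s') →
    (∀ a b s, (a, b, s) ∈ ρ → ∀ s', ∃ b', (a, b', s') ∈ ρ) →
    (∀ a b s, (a, b, s) ∈ ρ → ∀ s', ∃ a', (a', b, s') ∈ ρ) → ∀ x y : P, x = y := by
  induction n using Nat.strong_induction_on with
  | _ n ih =>
  intro ρ hn hρ ⟨⟨a0, b0, s0⟩, h0⟩ fn s1 s2
  let D1 : Set α := {a | ∃ q, (a, q) ∈ ρ}
  let D2 : Set β := {b | ∃ a, ∃ s, (a, b, s) ∈ ρ}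
  have hD1 : Sub A D1 := Sub.ex (Sub.pre (by fun_prop) hρ)
  have hD2 : Sub A D2 := Sub.ex (Sub.ex (Sub.pre (by fun_prop) hρ))
  have cut1 : ∀ K : Set α, Sub A K → (∃ p ∈ ρ, p.1 ∈ K) → (∃ p ∈ ρ, p.1 ∉ K) →
      (∀ a b s, (a, b, s) ∈ ρ → a ∈ K → ∀ s', ∃ a' ∈ K, (a', b, s') ∈ ρ) → ∀ x y : P, x = y := by
    intro K hK ⟨p, hp, hpK⟩ ⟨q, hq, hqK⟩ h
    refine ih _ ?_ {p | p ∈ ρ ∧ p.1 ∈ K} rfl (Sub.and hρ (Sub.pre (by fun_prop) hK)) ⟨p, hp, hpK⟩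
      (fun a b s s' h1 h2 => fn a b s s' h1.1 h2.1)
      (fun a b s h1 s' => (s1 a b s h1.1 s').imp fun b' h2 => ⟨h2, h1.2⟩)
      (fun a b s h1 s' => (h a b s h1.1 h1.2 s').imp fun a' h2 => ⟨h2.2, h2.1⟩)
    rw [← hn]
    exact Set.ncard_lt_ncard ⟨fun _ h => h.1, fun h => hqK (h hq).2⟩ (Set.toFinite _)
  by_cases c1 : CF A D1
  swap
  · have : ∃ C, Cen A C D1 ∧ C.Nonempty ∧ ¬ D1 ⊆ C := by
      by_contra h; push Not at h; exact c1 ⟨hD1, h⟩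
    obtain ⟨C, hC, ⟨c, hc⟩, hn⟩ := this
    obtain ⟨a, ⟨q, ha⟩, haC⟩ := Set.not_subset.mp hn
    obtain ⟨q', hq'⟩ := hC.le hc
    refine cut1 C hC.subC ⟨_, hq', hc⟩ ⟨_, ha, haC⟩ (fun a b s h1 h2 s' => ?_)
    have hG : Sub A {g : α × P | (g.1, b, g.2) ∈ ρ} := Sub.pre (by fun_prop) hρ
    have := (Cen.pre (f := fun g : α × P => g.1) (by fun_prop) hG hC
      (fun g hg => ⟨_, hg⟩)).image (f := fun g : α × P => g.2) (by fun_prop)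
    rw [show (fun g : α × P => g.2) '' {g : α × P | (g.1, b, g.2) ∈ ρ} = Set.univ from
      Set.eq_univ_of_forall fun u => by
        obtain ⟨a', h⟩ := s2 a b s h1 u; exact ⟨(a', u), h, rfl⟩] at this
    obtain ⟨g, hg, rfl⟩ := hP.cf.eq _ this ⟨s, (a, s), ⟨h1, h2⟩, rfl⟩ (Set.mem_univ s')
    exact ⟨g.1, hg.2, hg.1⟩
  by_cases c2 : CF A D2
  swap
  · have : ∃ C, Cen A C D2 ∧ C.Nonempty ∧ ¬ D2 ⊆ C := by
      by_contra h; push Not at h; exact c2 ⟨hD2, h⟩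
    obtain ⟨C, hC, ⟨c, hc⟩, hn'⟩ := this
    obtain ⟨b, ⟨a, s, hb⟩, hbC⟩ := Set.not_subset.mp hn'
    obtain ⟨a', s', hq'⟩ := hC.le hc
    refine ih _ ?_ {p | p ∈ ρ ∧ p.2.1 ∈ C} rfl (Sub.and hρ (Sub.pre (by fun_prop) hC.subC))
      ⟨_, hq', hc⟩ (fun a b s s' h1 h2 => fn a b s s' h1.1 h2.1) (fun a b s h1 s' => ?_)
      (fun a b s h1 s' => (s2 a b s h1.1 s').imp fun a' h2 => ⟨h2, h1.2⟩)
    · rw [← hn]
      exact Set.ncard_lt_ncard ⟨fun _ h => h.1, fun h => hbC (h hb).2⟩ (Set.toFinite _)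
    · have hG : Sub A {g : β × P | (a, g.1, g.2) ∈ ρ} := Sub.pre (by fun_prop) hρ
      have := (Cen.pre (f := fun g : β × P => g.1) (by fun_prop) hG hC
        (fun g hg => ⟨_, _, hg⟩)).image (f := fun g : β × P => g.2) (by fun_prop)
      rw [show (fun g : β × P => g.2) '' {g : β × P | (a, g.1, g.2) ∈ ρ} = Set.univ from
        Set.eq_univ_of_forall fun u => by
          obtain ⟨b', h⟩ := s1 a b s h1.1 u; exact ⟨(b', u), h, rfl⟩] at this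
      obtain ⟨g, hg, rfl⟩ := hP.cf.eq _ this ⟨s, (b, s), h1, rfl⟩ (Set.mem_univ s')
      exact ⟨g.1, hg⟩
  rcases absorption (R := {p : α × β | ∃ s, (p.1, p.2, s) ∈ ρ}) (Sub.ex (Sub.pre (by fun_prop) hρ))
    c1 c2 ⟨fun a b ⟨s, h⟩ => ⟨⟨_, h⟩, _, _, h⟩, fun a ⟨q, h⟩ => ⟨q.1, q.2, h⟩,
      fun b ⟨a, s, h⟩ => ⟨a, s, h⟩⟩ with tot | ⟨θ, hθ, hprop, hlink⟩
  · have le : ∀ a b s, (a, b, s) ∈ ρ → a ∈ D1 ∧ b ∈ D2 := fun a b s h => ⟨⟨_, h⟩, _, _, h⟩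
    have t1 : ∀ a ∈ D1, ∀ s, ∃ b, (a, b, s) ∈ ρ := fun a ⟨q, h⟩ s => s1 a q.1 q.2 h s
    have t2 : ∀ b ∈ D2, ∀ s, ∃ a, (a, b, s) ∈ ρ := fun b ⟨a, s', h⟩ s => s2 a b s' h s
    refine aff hρ tot le t1 t2 (hP.kernel hρ c2 tot le fn t2) ?_ (le _ _ _ h0).1 (le _ _ _ h0).2
    intro a a' b b' s u1 u2 h1 h2 h3 h4
    exact hP.kernel (ρ := {p : β × α × P | (p.2.1, p.1, p.2.2) ∈ ρ}) (Sub.pre (by fun_prop) hρ)
      (D1 := D2) c1 (fun b hb a ha => tot a ha b hb) (fun b a s h => (le _ _ _ h).symm)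
      (fun b a s s' => fn a b s s') t1 b b' a a' s u1 u2 h1 h2 h3 h4
  · push Not at hprop
    obtain ⟨a, ⟨q, ha⟩, b, ⟨q', hb⟩, hab⟩ := hprop
    refine cut1 {y | (a, y) ∈ θ} (Sub.pre (by fun_prop) hθ.sub) ⟨_, ha, hθ.refl a ⟨q, ha⟩⟩
      ⟨_, hb, hab⟩ (fun x y s h1 h2 s' => ?_)
    obtain ⟨x', h3⟩ := s2 x y s h1 s'
    exact ⟨x', hθ.trans _ _ _ h2 (hlink x x' y ⟨s, h1⟩ ⟨s', h3⟩), h3⟩

/-- Simultaneous restriction to one class along a family of maps onto a simple algebra. -/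
theorem Simp.multi [Finite α] (hP : Simp A P) {J : Type} (Ψ : J → Set (γ × P))
    (hΨ : ∀ j, Sub A (Ψ j)) {π : γ → α} (hπ : Hom A π) {D : Set α} (hD : CF A D) (s0 : P)
    (d0 : α) (hd0 : d0 ∈ D) (s : Finset J) : ∀ G : Set γ, Sub A G → (∀ g ∈ G, π g ∈ D) →
    (∃ g ∈ G, π g = d0) → (∀ j ∈ s, ∀ g ∈ G, ∃ u, (g, u) ∈ Ψ j) →
    (∀ j ∈ s, (∀ g ∈ G, π g = d0 → (g, s0) ∈ Ψ j) ∨
      ∀ d ∈ D, ∀ u, ∃ g ∈ G, π g = d ∧ (g, u) ∈ Ψ j) →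
    (∀ j ∈ s, ∀ k ∈ s, (∀ g ∈ G, π g = d0 → (g, s0) ∈ Ψ j) ∨ (∀ g ∈ G, π g = d0 → (g, s0) ∈ Ψ k) ∨
      (∀ g ∈ G, ∀ u, (g, u) ∈ Ψ j → (g, u) ∈ Ψ k) ∨
      ∀ u u', ∃ g ∈ G, (g, u) ∈ Ψ j ∧ (g, u') ∈ Ψ k) →
    ∃ g ∈ G, π g = d0 ∧ ∀ j ∈ s, (g, s0) ∈ Ψ j := by
  classical
  induction s using Finset.induction_on with
  | empty => intro G _ _ ⟨g, hg, e⟩ _ _ _; exact ⟨g, hg, e, by simp⟩
  | insert j1 s _ ih =>
    intro G hG hGD hex tot h1 h2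
    have m1 : j1 ∈ insert j1 s := by simp
    have ms : ∀ j ∈ s, j ∈ insert j1 s := fun j hj => by simp [hj]
    by_cases good : ∀ g ∈ G, π g = d0 → (g, s0) ∈ Ψ j1
    · obtain ⟨g, hg, e, h⟩ := ih G hG hGD hex (fun j hj => tot j (ms j hj))
        (fun j hj => h1 j (ms j hj)) (fun j hj k hk => h2 j (ms j hj) k (ms k hk))
      refine ⟨g, hg, e, fun j hj => ?_⟩
      rcases Finset.mem_insert.mp hj with rfl | hj
      · exact good g hg e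
      · exact h j hj
    have sur := (h1 j1 m1).resolve_left good
    have stat : ∀ j ∈ s, (∀ g, g ∈ G ∧ (g, s0) ∈ Ψ j1 → π g = d0 → (g, s0) ∈ Ψ j) ∨
        ((∀ d ∈ D, ∀ u, ∃ g ∈ G, π g = d ∧ (g, u) ∈ Ψ j) ∧
          ∀ u u', ∃ g ∈ G, (g, u) ∈ Ψ j1 ∧ (g, u') ∈ Ψ j) := by
      intro j hj
      rcases h1 j (ms j hj) with k1 | k1
      · exact Or.inl (fun g hg e => k1 g hg.1 e)
      · rcases h2 j1 m1 j (ms j hj) with k2 | k2 | k2 | k2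
        · exact absurd k2 good
        · exact Or.inl (fun g hg e => k2 g hg.1 e)
        · exact Or.inl (fun g hg _ => k2 g hg.1 _ hg.2)
        · exact Or.inr ⟨k1, k2⟩
    obtain ⟨g, hg, e, h⟩ := ih {g | g ∈ G ∧ (g, s0) ∈ Ψ j1}
      (Sub.and hG (Sub.pre (by fun_prop) (hΨ j1))) (fun g hg => hGD g hg.1)
      (by obtain ⟨g, hg, e, h⟩ := sur d0 hd0 s0; exact ⟨g, ⟨hg, h⟩, e⟩)
      (fun j hj g hg => tot j (ms j hj) g hg.1)
      (fun j hj => by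
        rcases stat j hj with k | ⟨k1, k2⟩
        · exact Or.inl k
        · right
          have := hP.b2 (ρ := {p : α × P × P | ∃ g, g ∈ G ∧ π g = p.1 ∧ (g, p.2.1) ∈ Ψ j1 ∧
              (g, p.2.2) ∈ Ψ j})
            (Sub.ex (Sub.and (Sub.pre (by fun_prop) hG) (Sub.and (Sub.eq (by fun_prop) (by fun_prop))
              (Sub.and (Sub.pre (by fun_prop) (hΨ j1)) (Sub.pre (by fun_prop) (hΨ j)))))) hD
            (fun a u u' ⟨g, hg, e, _⟩ => (show π g = a from e) ▸ hGD g hg)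
            (fun a ha u => by
              obtain ⟨g, hg, e, h⟩ := sur a ha u
              obtain ⟨u', h'⟩ := tot j (ms j hj) g hg
              exact ⟨u', g, hg, e, h, h'⟩)
            (fun a ha u => by
              obtain ⟨g, hg, e, h⟩ := k1 a ha u
              obtain ⟨u', h'⟩ := tot j1 m1 g hg
              exact ⟨u', g, hg, e, h', h⟩)
            (fun u u' => by
              obtain ⟨g, hg, h, h'⟩ := k2 u u'
              exact ⟨π g, g, hg, rfl, h, h'⟩)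
          intro d hd u
          obtain ⟨g, hg, e, h, h'⟩ := this d hd s0 u
          exact ⟨g, ⟨hg, h⟩, e, h'⟩)
      (fun j hj k hk => by
        rcases stat j hj with kj | ⟨_, kj⟩
        · exact Or.inl kj
        rcases stat k hk with kk | ⟨_, kk⟩
        · exact Or.inr (Or.inl kk)
        rcases h2 j (ms j hj) k (ms k hk) with k2 | k2 | k2 | k2
        · exact Or.inl (fun g hg e => k2 g hg.1 e)
        · exact Or.inr (Or.inl (fun g hg e => k2 g hg.1 e))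
        · exact Or.inr (Or.inr (Or.inl (fun g hg => k2 g hg.1)))
        · right; right; right
          have := hP.b2 (ρ := {p : P × P × P | ∃ g, g ∈ G ∧ (g, p.1) ∈ Ψ j1 ∧ (g, p.2.1) ∈ Ψ j ∧
              (g, p.2.2) ∈ Ψ k})
            (Sub.ex (Sub.and (Sub.pre (by fun_prop) hG) (Sub.and (Sub.pre (by fun_prop) (hΨ j1))
              (Sub.and (Sub.pre (by fun_prop) (hΨ j)) (Sub.pre (by fun_prop) (hΨ k)))))) hP.cf
            (fun _ _ _ _ => trivial)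
            (fun a _ u => by
              obtain ⟨g, hg, h, h'⟩ := kj a u
              obtain ⟨u', h''⟩ := tot k (ms k hk) g hg
              exact ⟨u', g, hg, h, h', h''⟩)
            (fun a _ u => by
              obtain ⟨g, hg, h, h'⟩ := kk a u
              obtain ⟨u', h''⟩ := tot j (ms j hj) g hg
              exact ⟨u', g, hg, h, h'', h'⟩)
            (fun u u' => by
              obtain ⟨g, hg, h, h'⟩ := k2 u u'
              obtain ⟨a, h''⟩ := tot j1 m1 g hg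
              exact ⟨a, g, hg, h'', h, h'⟩)
          intro u u'
          obtain ⟨g, hg, h, h', h''⟩ := this s0 trivial u u'
          exact ⟨g, ⟨hg, h⟩, h', h''⟩)
    refine ⟨g, hg.1, e, fun j hj => ?_⟩
    rcases Finset.mem_insert.mp hj with rfl | hj
    · exact hg.2
    · exact h j hj

end

end Pool.Agent.H218Z.BW
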